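import Mathlib

/-!
Equidominating graphs: basic facts about dominating sets relative to a vertex set `U`
inside a type with a closed adjacency relation `A`.
-/

namespace Pool.Agent.H70.Equi

open Finset

set_option linter.unusedSectionVars false
set_option linter.unusedVariables false

variable {V : Type*} [DecidableEq V]

/-- total weight -/
def wt (w : V → ℕ) (D : Finset V) : ℕ := ∑ v ∈ D, w v

/-- `D` dominates `U` -/
def Dom (A : V → V → Prop) (U D : Finset V) : Prop := ∀ u ∈ U, ∃ d ∈ D, A u d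

/-- minimal dominating set of the graph induced on `U` -/
def Mds (A : V → V → Prop) (U D : Finset V) : Prop :=
  D ⊆ U ∧ Dom A U D ∧ ∀ d ∈ D, ¬ Dom A U (D.erase d)

/-- independence -/
def Indep (A : V → V → Prop) (D : Finset V) : Prop := ∀ a ∈ D, ∀ b ∈ D, A a b → a = b

/-- weight structure of the graph induced on `U` -/
def EqStr (A : V → V → Prop) (w : V → ℕ) (U : Finset V) (t : ℕ) : Prop :=
  ∀ D ⊆ U, (Mds A U D ↔ wt w D = t)

variable {A : V → V → Prop} {w : V → ℕ}

theorem wt_union {D E : Finset V} (h : Disjoint D E) : wt w (D ∪ E) = wt w D + wt w E :=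
  Finset.sum_union h

theorem wt_insert {v : V} {D : Finset V} (h : v ∉ D) : wt w (insert v D) = w v + wt w D :=
  Finset.sum_insert h

theorem wt_erase {v : V} {D : Finset V} (h : v ∈ D) : w v + wt w (D.erase v) = wt w D :=
  Finset.add_sum_erase D w h

theorem wt_mono {D E : Finset V} (h : D ⊆ E) : wt w D ≤ wt w E :=
  Finset.sum_le_sum_of_subset h

theorem wt_sdiff {D E : Finset V} (h : D ⊆ E) : wt w (E \ D) + wt w D = wt w E :=
  Finset.sum_sdiff h

theorem wt_inter_add_sdiff (D E : Finset V) : wt w (D ∩ E) + wt w (D \ E) = wt w D := by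
  have : wt w (D ∩ E) + wt w (D \ E) = wt w ((D ∩ E) ∪ (D \ E)) := by
    rw [wt_union]
    exact Finset.disjoint_left.mpr (by
      intro x hx hx'
      simp only [Finset.mem_inter, Finset.mem_sdiff] at hx hx'
      exact hx'.2 hx.2)
  rw [this]
  congr 1
  ext x
  simp only [Finset.mem_union, Finset.mem_inter, Finset.mem_sdiff]
  tauto

theorem wt_pos (hw : ∀ v, 0 < w v) {D : Finset V} (h : D.Nonempty) : 0 < wt w D := by
  obtain ⟨v, hv⟩ := h
  have := wt_mono (w := w) (Finset.singleton_subset_iff.mpr hv)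
  have h2 : wt w {v} = w v := by simp [wt]
  have := hw v
  omega

theorem le_wt {v : V} {D : Finset V} (h : v ∈ D) : w v ≤ wt w D := by
  have := wt_mono (w := w) (Finset.singleton_subset_iff.mpr h)
  have h2 : wt w {v} = w v := by simp [wt]
  omega

theorem Dom.mono {U D E : Finset V} (h : Dom A U D) (hDE : D ⊆ E) : Dom A U E := by
  intro u hu
  obtain ⟨d, hd, h1⟩ := h u hu
  exact ⟨d, hDE hd, h1⟩

/-- every finset satisfying a property contains a minimal one -/
theorem exists_min_sub (P : Finset V → Prop) (X : Finset V) (h : P X) :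
    ∃ D ⊆ X, P D ∧ ∀ d ∈ D, ¬ P (D.erase d) := by
  induction X using Finset.strongInduction with
  | H X ih =>
    by_cases hX : ∀ d ∈ X, ¬ P (X.erase d)
    · exact ⟨X, Finset.Subset.refl _, h, hX⟩
    · push Not at hX
      obtain ⟨d, hd, hP⟩ := hX
      obtain ⟨D, hD, h1, h2⟩ := ih (X.erase d) (Finset.erase_ssubset hd) hP
      exact ⟨D, hD.trans (Finset.erase_subset _ _), h1, h2⟩

theorem exists_mds {U X : Finset V} (hX : X ⊆ U) (h : Dom A U X) : ∃ D ⊆ X, Mds A U D := by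
  obtain ⟨D, hD, h1, h2⟩ := exists_min_sub (fun D => Dom A U D) X h
  exact ⟨D, hD, hD.trans hX, h1, h2⟩

theorem Mds.eq_of_dom {U D E : Finset V} (h : Mds A U D) (hE : E ⊆ D) (hd : Dom A U E) :
    E = D := by
  by_contra hne
  have hss : E ⊂ D := lt_of_le_of_ne hE hne
  obtain ⟨d, hdD, hdE⟩ := Finset.exists_of_ssubset hss
  refine h.2.2 d hdD (hd.mono ?_)
  intro x hx
  rw [Finset.mem_erase]
  refine ⟨?_, hE hx⟩
  rintro rfl
  exact hdE hx

theorem Mds.priv {U D : Finset V} (h : Mds A U D) {d : V} (hd : d ∈ D) :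
    ∃ u ∈ U, A u d ∧ ∀ d' ∈ D, A u d' → d' = d := by
  have h1 := h.2.2 d hd
  unfold Dom at h1
  push Not at h1
  obtain ⟨u, hu, h2⟩ := h1
  have h3 : ∀ d' ∈ D, A u d' → d' = d := by
    intro d' hd' hA
    by_contra hne
    exact h2 d' (Finset.mem_erase.mpr ⟨hne, hd'⟩) hA
  obtain ⟨d', hd', hA⟩ := h.2.1 u hu
  have := h3 d' hd' hA
  subst this
  exact ⟨u, hu, hA, h3⟩

theorem mds_of_priv {U D : Finset V} (hDU : D ⊆ U) (hdom : Dom A U D)
    (hp : ∀ d ∈ D, ∃ u ∈ U, ∀ d' ∈ D, A u d' → d' = d) : Mds A U D := by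
  refine ⟨hDU, hdom, ?_⟩
  intro d hd hcon
  obtain ⟨u, hu, h1⟩ := hp d hd
  obtain ⟨d', hd', hA⟩ := hcon u hu
  rw [Finset.mem_erase] at hd'
  exact hd'.1 (h1 d' hd'.2 hA)

theorem mds_of_indep {U D : Finset V} (hDU : D ⊆ U) (hdom : Dom A U D)
    (hi : Indep A D) : Mds A U D :=
  mds_of_priv hDU hdom (fun d hd => ⟨d, hDU hd, fun d' hd' hA => (hi d hd d' hd' hA).symm⟩)

theorem Indep.mono {D E : Finset V} (h : Indep A E) (hD : D ⊆ E) : Indep A D :=
  fun a ha b hb hA => h a (hD ha) b (hD hb) hA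

/-- extension of an independent set to a maximal one inside `X` -/
theorem exists_mis (hr : ∀ v, A v v) (hs : ∀ u v, A u v → A v u)
    {X J : Finset V} (hJ : J ⊆ X) (hi : Indep A J) :
    ∃ B, J ⊆ B ∧ B ⊆ X ∧ Indep A B ∧ Dom A X B := by
  classical
  obtain ⟨B, hB⟩ := Finset.exists_maximal (s := X.powerset.filter (fun B => J ⊆ B ∧ Indep A B))
    ⟨J, by simp [hJ, hi]⟩
  have hB1 := hB.prop
  simp only [Finset.mem_filter, Finset.mem_powerset] at hB1
  refine ⟨B, hB1.2.1, hB1.1, hB1.2.2, ?_⟩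
  intro u hu
  by_contra hcon
  push Not at hcon
  have hmem : insert u B ∈ X.powerset.filter (fun B => J ⊆ B ∧ Indep A B) := by
    simp only [Finset.mem_filter, Finset.mem_powerset]
    refine ⟨Finset.insert_subset hu hB1.1, hB1.2.1.trans (Finset.subset_insert _ _), ?_⟩
    intro a ha b hb hA
    rw [Finset.mem_insert] at ha hb
    rcases ha with rfl | ha <;> rcases hb with rfl | hb
    · rfl
    · exact absurd hA (hcon b hb)
    · exact absurd (hs _ _ hA) (hcon a ha)
    · exact hB1.2.2 a ha b hb hA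
  have := hB.le_of_ge hmem (Finset.subset_insert _ _)
  exact hcon u (this (Finset.mem_insert_self _ _)) (hr u)

/-- the graph after deleting the closed neighbourhood of `J` -/
noncomputable def delN (A : V → V → Prop) (U J : Finset V) : Finset V :=
  haveI := Classical.decPred (fun u => ∀ j ∈ J, ¬ A u j)
  U.filter (fun u => ∀ j ∈ J, ¬ A u j)

theorem mem_delN {U J : Finset V} {u : V} : u ∈ delN A U J ↔ u ∈ U ∧ ∀ j ∈ J, ¬ A u j := by
  unfold delN
  simp

theorem mds_delN_iff (hr : ∀ v, A v v) (hs : ∀ u v, A u v → A v u)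
    {U J D : Finset V} (hJ : J ⊆ U) (hi : Indep A J) (hD : D ⊆ delN A U J) :
    Mds A (delN A U J) D ↔ Mds A U (J ∪ D) := by
  have hDJ : ∀ d ∈ D, ∀ j ∈ J, ¬ A d j := fun d hd => (mem_delN.mp (hD hd)).2
  have hDU : D ⊆ U := fun d hd => (mem_delN.mp (hD hd)).1
  constructor
  · intro h
    refine mds_of_priv (Finset.union_subset hJ hDU) ?_ ?_
    · intro u hu
      by_cases hcase : ∃ j ∈ J, A u j
      · obtain ⟨j, hj, hA⟩ := hcase
        exact ⟨j, Finset.mem_union_left _ hj, hA⟩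
      · push Not at hcase
        obtain ⟨d, hd, hA⟩ := h.2.1 u (mem_delN.mpr ⟨hu, hcase⟩)
        exact ⟨d, Finset.mem_union_right _ hd, hA⟩
    · intro d hd
      rw [Finset.mem_union] at hd
      rcases hd with hd | hd
      · refine ⟨d, hJ hd, ?_⟩
        intro d' hd' hA
        rw [Finset.mem_union] at hd'
        rcases hd' with hd' | hd'
        · exact (hi d hd d' hd' hA).symm
        · exact absurd (hs _ _ hA) (hDJ d' hd' d hd)
      · obtain ⟨u, hu, hA, hp⟩ := h.priv hd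
        rw [mem_delN] at hu
        refine ⟨u, hu.1, ?_⟩
        intro d' hd' hA'
        rw [Finset.mem_union] at hd'
        rcases hd' with hd' | hd'
        · exact absurd hA' (hu.2 d' hd')
        · exact hp d' hd' hA'
  · intro h
    refine mds_of_priv hD ?_ ?_
    · intro u hu
      rw [mem_delN] at hu
      obtain ⟨d, hd, hA⟩ := h.2.1 u hu.1
      rw [Finset.mem_union] at hd
      rcases hd with hd | hd
      · exact absurd hA (hu.2 d hd)
      · exact ⟨d, hd, hA⟩
    · intro d hd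
      obtain ⟨u, hu, hA, hp⟩ := h.priv (Finset.mem_union_right _ hd)
      refine ⟨u, mem_delN.mpr ⟨hu, ?_⟩, fun d' hd' hA' =>
        hp d' (Finset.mem_union_right _ hd') hA'⟩
      intro j hj hAj
      have := hp j (Finset.mem_union_left _ hj) hAj
      subst this
      exact hDJ j hd j hj (hr j)

theorem disjoint_delN (hr : ∀ v, A v v) {U J D : Finset V} (hD : D ⊆ delN A U J) :
    Disjoint J D := by
  rw [Finset.disjoint_left]
  intro x hx hxD
  exact (mem_delN.mp (hD hxD)).2 x hx (hr x)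

theorem EqStr.delN (hr : ∀ v, A v v) (hs : ∀ u v, A u v → A v u)
    {U J : Finset V} {t : ℕ} (h : EqStr A w U t) (hJ : J ⊆ U) (hi : Indep A J) :
    ∃ t', t = wt w J + t' ∧ EqStr A w (delN A U J) t' := by
  obtain ⟨B, hJB, hBU, hBi, hBd⟩ := exists_mis hr hs hJ hi
  have hB : wt w B = t := (h B hBU).mp (mds_of_indep hBU hBd hBi)
  refine ⟨wt w (B \ J), ?_, ?_⟩
  · rw [← hB, ← wt_sdiff hJB, Nat.add_comm]
  · intro D hD
    rw [mds_delN_iff hr hs hJ hi hD, h (J ∪ D) (Finset.union_subset hJ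
      (fun d hd => (mem_delN.mp (hD hd)).1)), wt_union (disjoint_delN hr hD), ← hB,
      ← wt_sdiff hJB]
    omega

theorem dom_erase_iff (hs : ∀ u v, A u v → A v u) {U D : Finset V} {z v : V}
    (hv : v ∈ U) (hvz : v ≠ z) (hsub : ∀ u ∈ U, A v u → A z u) (hD : D ⊆ U) :
    Dom A (U.erase z) D ↔ Dom A U D := by
  constructor
  · intro h u hu
    by_cases huz : u = z
    · subst huz
      obtain ⟨d, hd, hA⟩ := h v (Finset.mem_erase.mpr ⟨hvz, hv⟩)
      exact ⟨d, hd, hsub d (hD hd) hA⟩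
    · exact h u (Finset.mem_erase.mpr ⟨huz, hu⟩)
  · intro h u hu
    exact h u (Finset.mem_of_mem_erase hu)

theorem EqStr.erase (hs : ∀ u v, A u v → A v u) {U : Finset V} {t : ℕ}
    (h : EqStr A w U t) {z v : V} (hv : v ∈ U) (hvz : v ≠ z)
    (hsub : ∀ u ∈ U, A v u → A z u) : EqStr A w (U.erase z) t := by
  intro D hD
  have hDU : D ⊆ U := hD.trans (Finset.erase_subset _ _)
  rw [← h D hDU]
  unfold Mds
  rw [dom_erase_iff hs hv hvz hsub hDU]
  constructor
  · rintro ⟨_, h2, h3⟩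
    refine ⟨hDU, h2, fun d hd hcon => h3 d hd ?_⟩
    rwa [dom_erase_iff hs hv hvz hsub ((Finset.erase_subset _ _).trans hDU)]
  · rintro ⟨_, h2, h3⟩
    refine ⟨hD, h2, fun d hd hcon => h3 d hd ?_⟩
    rwa [dom_erase_iff hs hv hvz hsub ((Finset.erase_subset _ _).trans hDU)] at hcon

/-- `W` is a system of representatives of the inclusion-minimal closed neighbourhoods -/
structure IsReps (A : V → V → Prop) (U W : Finset V) : Prop where
  sub : W ⊆ U
  ex : ∀ x ∈ U, ∃ v ∈ W, ∀ u ∈ U, A v u → A x u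
  inj : ∀ v ∈ W, ∀ v' ∈ W, (∀ u ∈ U, A v u → A v' u) → v = v'

/-- block structure of the traces on `W` -/
structure Struct (A : V → V → Prop) (U W : Finset V) : Prop where
  s1 : ∀ x ∈ U, x ∉ W → ∀ a ∈ W, ∀ b ∈ W, A x a → A a b → A x b
  s2 : ∀ x ∈ U, x ∉ W → ∀ y ∈ U, y ∉ W → ∀ a ∈ W, A x a → A y a →
    (∀ b ∈ W, A x b → A y b) ∨ (∀ b ∈ W, A y b → A x b)
  s3 : ∀ a ∈ W, ∀ b ∈ W, a ≠ b → A a b → ∃ b' ∈ W, b' ≠ b ∧ ¬ A b b' ∧
    (∀ v ∈ W, v ≠ b → v ≠ b' → (A b v ↔ A b' v)) ∧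
    (∀ v ∈ W, A a v → ¬ A b v → v = b')

theorem dom_of_reps (hs : ∀ u v, A u v → A v u) {U W D : Finset V} (hW : IsReps A U W)
    (hD : D ⊆ U) (h : ∀ v ∈ W, ∃ d ∈ D, A v d) : Dom A U D := by
  intro x hx
  obtain ⟨v, hv, hsub⟩ := hW.ex x hx
  obtain ⟨d, hd, hA⟩ := h v hv
  exact ⟨d, hd, hsub d (hD hd) hA⟩

/-- a representative system exists -/
theorem exists_reps (hr : ∀ v, A v v) (U : Finset V) : ∃ W, IsReps A U W := by
  classical
  -- minimal (by cardinality) set with the covering property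
  obtain ⟨W, hWU, h1, h2⟩ := exists_min_sub
    (fun W => ∀ x ∈ U, ∃ v ∈ W, ∀ u ∈ U, A v u → A x u) U
    (fun x hx => ⟨x, hx, fun u _ h => h⟩)
  refine ⟨W, hWU, h1, ?_⟩
  intro v hv v' hv' hsub
  by_contra hne
  refine h2 v' hv' ?_
  intro x hx
  obtain ⟨y, hy, hyx⟩ := h1 x hx
  by_cases hyv : y = v'
  · subst hyv
    exact ⟨v, Finset.mem_erase.mpr ⟨hne, hv⟩, fun u hu hA => hyx u hu (hsub u hu hA)⟩
  · exact ⟨y, Finset.mem_erase.mpr ⟨hyv, hy⟩, hyx⟩

/-- monotonicity of weights -/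
theorem wt_le_of_nbhd (hr : ∀ v, A v v) (hs : ∀ u v, A u v → A v u) {U : Finset V} {t : ℕ}
    (h : EqStr A w U t) {v u : V} (hv : v ∈ U) (hu : u ∈ U)
    (hsub : ∀ x ∈ U, A v x → A u x) : w v ≤ w u := by
  by_cases hne : v = u
  · rw [hne]
  obtain ⟨D, hJ, hDU, hDi, hDd⟩ := exists_mis hr hs (Finset.singleton_subset_iff.mpr hv)
    (show Indep A {v} by
      intro a ha b hb _
      rw [Finset.mem_singleton] at ha hb
      rw [ha, hb])
  have hvD : v ∈ D := hJ (Finset.mem_singleton_self v)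
  have hD := mds_of_indep hDU hDd hDi
  have hwD := (h D hDU).mp hD
  have huD : u ∉ D := by
    intro huD
    exact hne (hDi u huD v hvD (hsub v hv (hr v))).symm
  have hdom : Dom A U (insert u (D.erase v)) := by
    intro x hx
    obtain ⟨d, hd, hA⟩ := hDd x hx
    by_cases hdv : d = v
    · subst hdv
      exact ⟨u, Finset.mem_insert_self _ _, hs _ _ (hsub x hx (hs _ _ hA))⟩
    · exact ⟨d, Finset.mem_insert_of_mem (Finset.mem_erase.mpr ⟨hdv, hd⟩), hA⟩
  have hsubU : insert u (D.erase v) ⊆ U :=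
    Finset.insert_subset hu ((Finset.erase_subset _ _).trans hDU)
  obtain ⟨D', hD', hM⟩ := exists_mds hsubU hdom
  have h1 := (h D' (hD'.trans hsubU)).mp hM
  have h2 := wt_mono (w := w) hD'
  rw [wt_insert (by simp [huD])] at h2
  have h3 := wt_erase (w := w) hvD
  omega

end Pool.Agent.H70.Equi
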