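import Pool.Agent.H70.Equi.Basic

/-!
Consequences of the block structure.
-/

namespace Pool.Agent.H70.Equi

open Finset

set_option linter.unusedSectionVars false
set_option linter.unusedVariables false

variable {V : Type*} [DecidableEq V] {A : V → V → Prop} {w : V → ℕ}

/-- elements of `B` adjacent to `x` -/
noncomputable def tr (A : V → V → Prop) (x : V) (B : Finset V) : Finset V :=
  haveI := Classical.decPred (fun u => A x u)
  B.filter (fun u => A x u)

theorem mem_tr {x b : V} {B : Finset V} : b ∈ tr A x B ↔ b ∈ B ∧ A x b := by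
  unfold tr
  simp

theorem tr_sub {x : V} {B : Finset V} : tr A x B ⊆ B := fun b hb => (mem_tr.mp hb).1

theorem Struct.adj_weight (hr : ∀ v, A v v) (hs : ∀ u v, A u v → A v u) {U W : Finset V} {t : ℕ}
    (h : EqStr A w U t) (hW : IsReps A U W) (hS : Struct A U W) {a b : V} (ha : a ∈ W)
    (hb : b ∈ W) (hne : a ≠ b) (hA : A a b) : w a = w b := by
  obtain ⟨b', hb'W, hb'b, hnb, htwb, hFb⟩ := hS.s3 a ha b hb hne hA
  obtain ⟨a', ha'W, ha'a, hna, htwa, hFa⟩ := hS.s3 b hb a ha hne.symm (hs _ _ hA)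
  have hbb'W : ({b, b'} : Finset V) ⊆ W := by
    intro x hx
    simp only [Finset.mem_insert, Finset.mem_singleton] at hx
    rcases hx with rfl | rfl <;> assumption
  have hbb'i : Indep A ({b, b'} : Finset V) := by
    intro x hx y hy hxy
    simp only [Finset.mem_insert, Finset.mem_singleton] at hx hy
    rcases hx with rfl | rfl <;> rcases hy with rfl | rfl
    · rfl
    · exact absurd hxy hnb
    · exact absurd (hs _ _ hxy) hnb
    · rfl
  obtain ⟨B, hJB, hBW, hBi, hBd⟩ := exists_mis hr hs hbb'W hbb'i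
  have hbB : b ∈ B := hJB (by simp)
  have hb'B : b' ∈ B := hJB (by simp)
  have hBU : B ⊆ U := hBW.trans hW.sub
  have hBM : Mds A U B := mds_of_indep hBU (dom_of_reps hs hW hBU hBd) hBi
  have hBt := (h B hBU).mp hBM
  have haB : a ∉ B := fun haB => hne (hBi a haB b hbB hA)
  have hax : ∀ x ∈ B, x ≠ b → x ≠ b' → ¬ A a x := by
    intro x hx hxb hxb' hAx
    by_cases hbx : A b x
    · exact hxb (hBi b hbB x hx hbx).symm
    · exact hxb' (hFb x (hBW hx) hAx hbx)
  have ha'b : a' ≠ b := by
    rintro rfl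
    exact hna hA
  have hA'b : A a' b := (htwa b hb hne.symm ha'b.symm).mp hA
  have ha'B : a' ∉ B := fun ha'B => ha'b (hBi a' ha'B b hbB hA'b)
  have hD : Mds A U (insert a (B.erase b)) := by
    refine mds_of_priv (Finset.insert_subset (hW.sub ha) ((Finset.erase_subset _ _).trans hBU))
      ?_ ?_
    · refine dom_of_reps hs hW (Finset.insert_subset (hW.sub ha)
        ((Finset.erase_subset _ _).trans hBU)) ?_
      intro v hv
      obtain ⟨d, hd, hAd⟩ := hBd v hv
      by_cases hdb : d = b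
      · subst hdb
        by_cases hvd : v = d
        · subst hvd
          exact ⟨a, Finset.mem_insert_self _ _, hs _ _ hA⟩
        · have hvb' : v ≠ b' := by
            rintro rfl
            exact hnb (hs _ _ hAd)
          refine ⟨b', Finset.mem_insert_of_mem (Finset.mem_erase.mpr ⟨hb'b, hb'B⟩), ?_⟩
          exact hs _ _ ((htwb v hv hvd hvb').mp (hs _ _ hAd))
      · exact ⟨d, Finset.mem_insert_of_mem (Finset.mem_erase.mpr ⟨hdb, hd⟩), hAd⟩
    · intro d hd
      rw [Finset.mem_insert] at hd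
      rcases hd with rfl | hd
      · refine ⟨b, hW.sub hb, ?_⟩
        intro d' hd' hA'
        rw [Finset.mem_insert] at hd'
        rcases hd' with rfl | hd'
        · rfl
        · rw [Finset.mem_erase] at hd'
          exact absurd (hBi b hbB d' hd'.2 hA').symm hd'.1
      · rw [Finset.mem_erase] at hd
        by_cases hdb' : d = b'
        · subst hdb'
          refine ⟨a', hW.sub ha'W, ?_⟩
          intro d' hd' hA'
          rw [Finset.mem_insert] at hd'
          rcases hd' with rfl | hd'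
          · exact absurd (hs _ _ hA') hna
          · rw [Finset.mem_erase] at hd'
            by_contra hne'
            have h1 : d' ≠ a := fun e => haB (e ▸ hd'.2)
            have h2 : d' ≠ a' := fun e => ha'B (e ▸ hd'.2)
            exact hax d' hd'.2 hd'.1 hne' ((htwa d' (hBW hd'.2) h1 h2).mpr hA')
        · refine ⟨d, hBU hd.2, ?_⟩
          intro d' hd' hA'
          rw [Finset.mem_insert] at hd'
          rcases hd' with rfl | hd'
          · exact absurd (hs _ _ hA') (hax d hd.2 hd.1 hdb')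
          · exact (hBi d hd.2 d' (Finset.mem_of_mem_erase hd') hA').symm
  have hDt := (h _ hD.1).mp hD
  rw [wt_insert (by simp [haB])] at hDt
  have := wt_erase (w := w) hbB
  omega

theorem Struct.nonadj_weight (hr : ∀ v, A v v) (hs : ∀ u v, A u v → A v u)
    {U W : Finset V} {t : ℕ} (h : EqStr A w U t) (hW : IsReps A U W) (hS : Struct A U W)
    {x y v : V} (hx : x ∈ U) (hy : y ∈ U) (hv : v ∈ W) (hvx : A v x) (hvy : A v y)
    (hxy : ¬ A x y) : w x = w v := by
  by_cases hxW : x ∈ W
  · by_cases hyW : y ∈ W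
    · have hne : v ≠ x := by
        rintro rfl
        exact hxy hvy
      exact (hS.adj_weight hr hs h hW hv hxW hne hvx).symm
    · exact absurd (hs _ _ (hS.s1 y hy hyW v hv x hxW (hs _ _ hvy) hvx)) hxy
  · by_cases hyW : y ∈ W
    · exact absurd (hS.s1 x hx hxW v hv y hyW (hs _ _ hvx) hvy) hxy
    · exfalso
      rcases hS.s2 x hx hxW y hy hyW v hv (hs _ _ hvx) (hs _ _ hvy) with h1 | h1
      · obtain ⟨v₁, hv₁, hsub⟩ := hW.ex x hx
        exact hxy (hsub y hy (hs _ _ (h1 v₁ hv₁ (hsub v₁ (hW.sub hv₁) (hr v₁)))))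
      · obtain ⟨v₁, hv₁, hsub⟩ := hW.ex y hy
        exact hxy (hs _ _ (hsub x hx (hs _ _ (h1 v₁ hv₁ (hsub v₁ (hW.sub hv₁) (hr v₁))))))

/-- independent dominating set obtained from `B` by swapping in `x` -/
theorem swap_mis (hr : ∀ v, A v v) (hs : ∀ u v, A u v → A v u)
    {U W B : Finset V} (hW : IsReps A U W) (hBW : B ⊆ W) (hBi : Indep A B)
    (hBd : Dom A W B) {x : V} (hx : x ∈ U)
    (hcl : ∀ a ∈ W, ∀ b ∈ W, A x a → A a b → A x b) :
    Mds A U (insert x (B \ tr A x B)) := by
  have hsub : insert x (B \ tr A x B) ⊆ U :=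
    Finset.insert_subset hx ((Finset.sdiff_subset).trans (hBW.trans hW.sub))
  refine mds_of_indep hsub (dom_of_reps hs hW hsub ?_) ?_
  · intro v hv
    obtain ⟨d, hd, hA⟩ := hBd v hv
    by_cases hxd : A x d
    · exact ⟨x, Finset.mem_insert_self _ _, hs _ _ (hcl d (hBW hd) v hv hxd (hs _ _ hA))⟩
    · refine ⟨d, Finset.mem_insert_of_mem (Finset.mem_sdiff.mpr ⟨hd, ?_⟩), hA⟩
      rw [mem_tr]
      exact fun hh => hxd hh.2
  · intro a ha b hb hA
    rw [Finset.mem_insert, Finset.mem_sdiff, mem_tr] at ha hb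
    rcases ha with rfl | ha <;> rcases hb with rfl | hb
    · rfl
    · exact absurd ⟨hb.1, hA⟩ hb.2
    · exact absurd ⟨ha.1, hs _ _ hA⟩ ha.2
    · exact hBi a ha.1 b hb.1 hA

theorem weight_eq_tr (hr : ∀ v, A v v) (hs : ∀ u v, A u v → A v u)
    {U W B : Finset V} {t : ℕ} (h : EqStr A w U t) (hW : IsReps A U W) (hBW : B ⊆ W)
    (hBi : Indep A B) (hBd : Dom A W B) {x : V} (hx : x ∈ U) (hxB : x ∉ B)
    (hcl : ∀ a ∈ W, ∀ b ∈ W, A x a → A a b → A x b) : w x = wt w (tr A x B) := by
  have hM := swap_mis hr hs hW hBW hBi hBd hx hcl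
  have h1 := (h _ hM.1).mp hM
  have hBU : B ⊆ U := hBW.trans hW.sub
  have h2 := (h B hBU).mp (mds_of_indep hBU (dom_of_reps hs hW hBU hBd) hBi)
  rw [wt_insert (by simp [hxB])] at h1
  have h3 := wt_sdiff (w := w) (tr_sub (A := A) (x := x) (B := B))
  omega

end Pool.Agent.H70.Equi
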