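import Pool.Agent.H70.Equi.CaseZ2

/-!
The inductive step when all closed neighbourhoods are pairwise incomparable.
-/

namespace Pool.Agent.H70.Equi

open Finset

set_option linter.unusedSectionVars false
set_option linter.unusedVariables false

variable {V : Type*} [DecidableEq V] {A : V → V → Prop} {w : V → ℕ}

/-- all closed neighbourhoods are incomparable -/
def Inc (A : V → V → Prop) (U : Finset V) : Prop :=
  ∀ v ∈ U, ∀ v' ∈ U, (∀ u ∈ U, A v u → A v' u) → v = v'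

theorem indep_pair {x y : V} (hs : ∀ u v, A u v → A v u) (h : ¬ A x y) :
    Indep A ({x, y} : Finset V) := by
  intro a ha b hb hab
  simp only [Finset.mem_insert, Finset.mem_singleton] at ha hb
  rcases ha with rfl | rfl <;> rcases hb with rfl | rfl
  · rfl
  · exact absurd hab h
  · exact absurd (hs _ _ hab) h
  · rfl

theorem pair_sub {x y : V} {U : Finset V} (hx : x ∈ U) (hy : y ∈ U) : ({x, y} : Finset V) ⊆ U := by
  intro a ha
  simp only [Finset.mem_insert, Finset.mem_singleton] at ha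
  rcases ha with rfl | rfl <;> assumption

theorem wt_insert_le {v : V} {D : Finset V} : wt w (insert v D) ≤ w v + wt w D := by
  by_cases h : v ∈ D
  · rw [Finset.insert_eq_of_mem h]
    omega
  · rw [wt_insert h]

/-- exchange of two vertices of equal weight -/
theorem exchange {U D : Finset V} {t : ℕ} (h : EqStr A w U t) (hD : Mds A U D) {c c' : V}
    (hc : c ∈ D) (hc' : c' ∉ D) (hc'U : c' ∈ U) (hw : w c = w c') :
    Mds A U (insert c' (D.erase c)) := by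
  have hsub : insert c' (D.erase c) ⊆ U :=
    Finset.insert_subset hc'U ((Finset.erase_subset _ _).trans hD.1)
  refine (h _ hsub).mpr ?_
  rw [wt_insert (by simp [hc'])]
  have h1 := wt_erase (w := w) hc
  have h2 := (h D hD.1).mp hD
  omega

theorem swap_half (hr : ∀ v, A v v) (hs : ∀ u v, A u v → A v u) {U : Finset V} {t : ℕ}
    (h : EqStr A w U t) {c₁ c₂ v : V} (hc₁ : c₁ ∈ U) (hc₂ : c₂ ∈ U) (hv : v ∈ U)
    (hw : w c₁ = w c₂) (h1 : A v c₁) (h2 : ¬ A v c₂) :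
    ∃ v' ∈ U, ∀ u ∈ U, A v' u → (u = c₂ ∨ (A v u ∧ u ≠ c₁)) := by
  classical
  by_contra hcon
  push Not at hcon
  have hdom : Dom A U (U.filter (fun u => ¬ (u = c₂ ∨ (A v u ∧ u ≠ c₁)))) := by
    intro v' hv'
    obtain ⟨u, hu, hA, hne, hh⟩ := hcon v' hv'
    refine ⟨u, ?_, hA⟩
    rw [Finset.mem_filter]
    refine ⟨hu, ?_⟩
    rintro (h3 | h3)
    · exact hne h3
    · exact h3.2 (hh h3.1)
  obtain ⟨D, hDX, hD⟩ := exists_mds (Finset.filter_subset _ _) hdom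
  have hmem : ∀ d ∈ D, d ≠ c₂ ∧ (A v d → d = c₁) := by
    intro d hd
    have := (Finset.mem_filter.mp (hDX hd)).2
    refine ⟨fun e => this (Or.inl e), fun hA => ?_⟩
    by_contra hne
    exact this (Or.inr ⟨hA, hne⟩)
  obtain ⟨d, hd, hA⟩ := hD.2.1 v hv
  have hdc : d = c₁ := (hmem d hd).2 hA
  subst hdc
  have hc₂D : c₂ ∉ D := fun hh => (hmem c₂ hh).1 rfl
  have hD' := exchange h hD hd hc₂D hc₂ hw
  obtain ⟨e, he, hAe⟩ := hD'.2.1 v hv
  rw [Finset.mem_insert, Finset.mem_erase] at he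
  rcases he with rfl | he
  · exact h2 hAe
  · exact he.1 ((hmem e he.2).2 hAe)

theorem swap (hr : ∀ v, A v v) (hs : ∀ u v, A u v → A v u) {U : Finset V} {t : ℕ}
    (h : EqStr A w U t) (hinc : Inc A U) {c₁ c₂ v : V} (hc₁ : c₁ ∈ U) (hc₂ : c₂ ∈ U)
    (hv : v ∈ U) (hw : w c₁ = w c₂) (h1 : A v c₁) (h2 : ¬ A v c₂) :
    ∃ v' ∈ U, ∀ u ∈ U, A v' u ↔ (u = c₂ ∨ (A v u ∧ u ≠ c₁)) := by
  have hcc : c₁ ≠ c₂ := by
    rintro rfl
    exact h2 h1
  obtain ⟨v', hv', hsub⟩ := swap_half hr hs h hc₁ hc₂ hv hw h1 h2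
  have hn1 : ¬ A v' c₁ := by
    intro hh
    rcases hsub c₁ hc₁ hh with h3 | h3
    · exact hcc h3
    · exact h3.2 rfl
  have hy2 : A v' c₂ := by
    by_contra hn
    have : v' = v := by
      refine hinc v' hv' v hv ?_
      intro u hu hA
      rcases hsub u hu hA with h3 | h3
      · subst h3
        exact absurd hA hn
      · exact h3.1
    subst this
    exact hn1 h1
  obtain ⟨v'', hv'', hsub'⟩ := swap_half hr hs h hc₂ hc₁ hv' hw.symm hy2 hn1
  have hv''v : v'' = v := by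
    refine hinc v'' hv'' v hv ?_
    intro u hu hA
    rcases hsub' u hu hA with h3 | h3
    · subst h3
      exact h1
    · rcases hsub u hu h3.1 with h4 | h4
      · exact absurd h4 h3.2
      · exact h4.1
  subst hv''v
  refine ⟨v', hv', ?_⟩
  intro u hu
  constructor
  · exact hsub u hu
  · rintro (h3 | h3)
    · subst h3
      exact hy2
    · rcases hsub' u hu h3.1 with h4 | h4
      · exact absurd h4 h3.2
      · exact h4.1

/-- nonadjacent vertices of equal weight are false twins -/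
theorem false_twins (hr : ∀ v, A v v) (hs : ∀ u v, A u v → A v u) {U : Finset V} {t : ℕ}
    (h : EqStr A w U t) (hinc : Inc A U) {c₁ c₂ : V} (hc₁ : c₁ ∈ U) (hc₂ : c₂ ∈ U)
    (hw : w c₁ = w c₂) (hn : ¬ A c₁ c₂) :
    ∀ u ∈ U, u ≠ c₁ → u ≠ c₂ → (A c₁ u ↔ A c₂ u) := by
  obtain ⟨v', hv', hiff⟩ := swap hr hs h hinc hc₁ hc₂ hc₁ hw (hr c₁) hn
  have hv'c : v' = c₂ := by
    rcases (hiff v' hv').mp (hr v') with h3 | h3
    · exact h3
    · exfalso
      rcases (hiff c₁ hc₁).mp (hs _ _ h3.1) with h4 | h4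
      · subst h4
        exact hn (hr _)
      · exact h4.2 rfl
  subst hv'c
  intro u hu hu1 hu2
  rw [hiff u hu]
  constructor
  · intro hA
    exact Or.inr ⟨hA, hu1⟩
  · rintro (h3 | h3)
    · exact absurd h3 hu2
    · exact h3.1

theorem third (hr : ∀ v, A v v) (hs : ∀ u v, A u v → A v u) {U : Finset V} {t : ℕ}
    (h : EqStr A w U t) (hinc : Inc A U) {c₁ c₁' c₂ : V} (hc₁ : c₁ ∈ U) (hc₁' : c₁' ∈ U)
    (hc₂ : c₂ ∈ U) (hw1 : w c₁ = w c₂) (hw2 : w c₁' = w c₂) (hn : ¬ A c₁ c₁')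
    (hA : A c₁ c₂) (hne : c₁ ≠ c₂) :
    ∃ y ∈ U, w y = w c₂ ∧ ∀ u ∈ U, A y u ↔ (u = c₁ ∨ (A c₁' u ∧ u ≠ c₂)) := by
  have hcc : c₁ ≠ c₁' := by
    rintro rfl
    exact hn (hr _)
  have hc21' : c₂ ≠ c₁' := by
    rintro rfl
    exact hn hA
  have htw := false_twins hr hs h hinc hc₁ hc₁' (hw1.trans hw2.symm) hn
  have hA' : A c₁' c₂ := (htw c₂ hc₂ hne.symm hc21').mp hA
  obtain ⟨y, hy, hiff⟩ := swap hr hs h hinc hc₂ hc₁ hc₁' hw1.symm hA'
    (fun hh => hn (hs _ _ hh))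
  refine ⟨y, hy, ?_, hiff⟩
  have hyc₂ : ¬ A y c₂ := by
    intro hh
    rcases (hiff c₂ hc₂).mp hh with h3 | h3
    · exact hne h3.symm
    · exact h3.2 rfl
  have hyc₁ : A y c₁ := (hiff c₁ hc₁).mpr (Or.inl rfl)
  have hyc₁' : A y c₁' := (hiff c₁' hc₁').mpr (Or.inr ⟨hr _, hc21'.symm⟩)
  have hyne2 : y ≠ c₂ := by
    rintro rfl
    exact hyc₂ (hr _)
  have hyne1 : y ≠ c₁ := by
    rintro rfl
    exact hyc₂ hA
  have hyne1' : y ≠ c₁' := by
    rintro rfl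
    exact hyc₂ hA'
  obtain ⟨D, hJD, hDU, hDi, hDd⟩ := exists_mis hr hs (pair_sub hc₂ hy)
    (indep_pair hs (fun hh => hyc₂ (hs _ _ hh)))
  have hc₂D : c₂ ∈ D := hJD (by simp)
  have hyD : y ∈ D := hJD (by simp)
  have hD := mds_of_indep hDU hDd hDi
  have hDt := (h D hDU).mp hD
  have hc₁D : c₁ ∉ D := fun hh => hyne1 (hDi y hyD c₁ hh hyc₁)
  have hc₁'D : c₁' ∉ D := fun hh => hyne1' (hDi y hyD c₁' hh hyc₁')
  have hD1 := exchange h hD hc₂D hc₁D hc₁ hw1.symm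
  have hyDe : y ∈ D.erase c₂ := Finset.mem_erase.mpr ⟨hyne2, hyD⟩
  set K : Finset V := (D.erase c₂).erase y with hK
  have hKD : ∀ k ∈ K, k ∈ D ∧ k ≠ c₂ ∧ k ≠ y := by
    intro k hk
    rw [hK, Finset.mem_erase, Finset.mem_erase] at hk
    exact ⟨hk.2.2, hk.2.1, hk.1⟩
  have hKn' : ∀ k ∈ K, ¬ A c₁' k := by
    intro k hk hh
    obtain ⟨hk1, hk2, hk3⟩ := hKD k hk
    have : A y k := (hiff k (hDU hk1)).mpr (Or.inr ⟨hh, hk2⟩)
    exact hk3 (hDi y hyD k hk1 this).symm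
  have hKn : ∀ k ∈ K, ¬ A c₁ k := by
    intro k hk hh
    obtain ⟨hk1, hk2, hk3⟩ := hKD k hk
    have hkc₁ : k ≠ c₁ := fun e => hc₁D (e ▸ hk1)
    have hkc₁' : k ≠ c₁' := fun e => hc₁'D (e ▸ hk1)
    exact hKn' k hk ((htw k (hDU hk1) hkc₁ hkc₁').mp hh)
  have hD2U : insert c₁ (insert c₁' K) ⊆ U :=
    Finset.insert_subset hc₁ (Finset.insert_subset hc₁' (fun k hk => hDU (hKD k hk).1))
  have hD2 : Mds A U (insert c₁ (insert c₁' K)) := by
    refine mds_of_indep hD2U ?_ ?_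
    · intro u hu
      obtain ⟨d, hd, hAd⟩ := hD1.2.1 u hu
      rw [Finset.mem_insert] at hd
      rcases hd with rfl | hd
      · exact ⟨d, by simp, hAd⟩
      · by_cases hdy : d = y
        · subst hdy
          rcases (hiff u hu).mp (hs _ _ hAd) with h3 | h3
          · exact ⟨c₁, by simp, h3 ▸ hr _⟩
          · exact ⟨c₁', by simp, hs _ _ h3.1⟩
        · refine ⟨d, ?_, hAd⟩
          rw [Finset.mem_insert, Finset.mem_insert]
          exact Or.inr (Or.inr (Finset.mem_erase.mpr ⟨hdy, hd⟩))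
    · intro a ha b hb hab
      rw [Finset.mem_insert, Finset.mem_insert] at ha hb
      rcases ha with rfl | rfl | ha <;> rcases hb with rfl | rfl | hb
      · rfl
      · exact absurd hab hn
      · exact absurd hab (hKn b hb)
      · exact absurd (hs _ _ hab) hn
      · rfl
      · exact absurd hab (hKn' b hb)
      · exact absurd (hs _ _ hab) (hKn a ha)
      · exact absurd (hs _ _ hab) (hKn' a ha)
      · exact hDi a (hKD a ha).1 b (hKD b hb).1 hab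
  have hD2t := (h _ hD2U).mp hD2
  have hc₁'K : c₁' ∉ K := fun hh => hc₁'D (hKD _ hh).1
  have hc₁K : c₁ ∉ insert c₁' K := by
    rw [Finset.mem_insert, not_or]
    exact ⟨hcc, fun hh => hc₁D (hKD _ hh).1⟩
  rw [wt_insert hc₁K, wt_insert hc₁'K] at hD2t
  have e1 := wt_erase (w := w) hc₂D
  have e2 := wt_erase (w := w) hyDe
  rw [← hK] at e2
  omega

theorem swap_weight (hr : ∀ v, A v v) (hs : ∀ u v, A u v → A v u) {U : Finset V} {t : ℕ}
    (h : EqStr A w U t) {c₁ c₂ v v' : V} (hc₁ : c₁ ∈ U) (hc₂ : c₂ ∈ U)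
    (hv : v ∈ U) (hv' : v' ∈ U) (hw : w c₁ = w c₂) (h1 : A v c₁) (h2 : ¬ A v c₂)
    (hvc : v ≠ c₁) (hiff : ∀ u ∈ U, A v' u ↔ (u = c₂ ∨ (A v u ∧ u ≠ c₁))) :
    w v ≤ w v' := by
  have hvc₂ : v ≠ c₂ := by
    rintro rfl
    exact h2 (hr _)
  obtain ⟨D, hJD, hDU, hDi, hDd⟩ := exists_mis hr hs (pair_sub hv hc₂) (indep_pair hs h2)
  have hvD : v ∈ D := hJD (by simp)
  have hc₂D : c₂ ∈ D := hJD (by simp)
  have hD := mds_of_indep hDU hDd hDi
  have hDt := (h D hDU).mp hD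
  have hc₁D : c₁ ∉ D := fun hh => hvc (hDi v hvD c₁ hh h1)
  have hD1 := exchange h hD hc₂D hc₁D hc₁ hw.symm
  have hvDe : v ∈ D.erase c₂ := Finset.mem_erase.mpr ⟨hvc₂, hvD⟩
  set K : Finset V := (D.erase c₂).erase v with hK
  have hKU : K ⊆ U := (Finset.erase_subset _ _).trans ((Finset.erase_subset _ _).trans hDU)
  have hXU : insert c₁ (insert v' K) ⊆ U :=
    Finset.insert_subset hc₁ (Finset.insert_subset hv' hKU)
  have hX : Dom A U (insert c₁ (insert v' K)) := by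
    intro u hu
    obtain ⟨d, hd, hAd⟩ := hD1.2.1 u hu
    rw [Finset.mem_insert] at hd
    rcases hd with rfl | hd
    · exact ⟨d, by simp, hAd⟩
    · by_cases hdv : d = v
      · subst hdv
        by_cases huc : u = c₁
        · exact ⟨c₁, by simp, huc ▸ hr _⟩
        · exact ⟨v', by simp, hs _ _ ((hiff u hu).mpr (Or.inr ⟨hs _ _ hAd, huc⟩))⟩
      · refine ⟨d, ?_, hAd⟩
        rw [Finset.mem_insert, Finset.mem_insert]
        exact Or.inr (Or.inr (Finset.mem_erase.mpr ⟨hdv, hd⟩))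
  obtain ⟨D', hD'X, hD'⟩ := exists_mds hXU hX
  have e0 := (h D' (hD'X.trans hXU)).mp hD'
  have e1 := wt_mono (w := w) hD'X
  have e2 : wt w (insert c₁ (insert v' K)) ≤ w c₁ + (w v' + wt w K) :=
    le_trans wt_insert_le (Nat.add_le_add_left wt_insert_le _)
  have e3 := wt_erase (w := w) hc₂D
  have e4 := wt_erase (w := w) hvDe
  rw [← hK] at e4
  omega

/-- the class of minimum weight cannot be a clique with two elements -/
theorem no_clique (hr : ∀ v, A v v) (hs : ∀ u v, A u v → A v u) {U : Finset V} {t γ : ℕ}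
    (h : EqStr A w U t) (hinc : Inc A U) (hmin : ∀ v ∈ U, γ ≤ w v)
    (hcl : ∀ c ∈ U, w c = γ → ∀ c' ∈ U, w c' = γ → A c c')
    {c₁ c₂ : V} (hc₁ : c₁ ∈ U) (hw₁ : w c₁ = γ) (hc₂ : c₂ ∈ U) (hw₂ : w c₂ = γ)
    (hne : c₁ ≠ c₂) : False := by
  classical
  have hex : ∃ y ∈ U, A c₁ y ∧ ¬ A c₂ y := by
    by_contra hcon
    push Not at hcon
    exact hne (hinc c₁ hc₁ c₂ hc₂ hcon)
  obtain ⟨y₁, hy₁, hcy, hncy⟩ := hex
  have hwy₁ : w y₁ ≠ γ := fun e => hncy (hcl c₂ hc₂ hw₂ y₁ hy₁ e)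
  have hwy₁' : γ < w y₁ := lt_of_le_of_ne (hmin y₁ hy₁) (Ne.symm hwy₁)
  have hy₁c₁ : y₁ ≠ c₁ := by
    rintro rfl
    exact hwy₁ hw₁
  have hf : ∀ c, c ∈ U ∧ w c = γ ∧ ¬ A y₁ c →
      ∃ y ∈ U, w y = w y₁ ∧ ∀ u ∈ U, A y u ↔ (u = c ∨ (A y₁ u ∧ u ≠ c₁)) := by
    rintro c ⟨hc, hwc, hnc⟩
    obtain ⟨y, hy, hiff⟩ := swap hr hs h hinc hc₁ hc hy₁ (hw₁.trans hwc.symm) (hs _ _ hcy) hnc
    have hcc₁ : c₁ ≠ c := by
      rintro rfl
      exact hnc (hs _ _ hcy)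
    have hyc₁ : ¬ A y c₁ := by
      intro hh
      rcases (hiff c₁ hc₁).mp hh with h3 | h3
      · exact hcc₁ h3
      · exact h3.2 rfl
    have hyc : y ≠ c := by
      rintro rfl
      exact hyc₁ (hcl _ hy hwc c₁ hc₁ hw₁)
    refine ⟨y, hy, ?_, hiff⟩
    refine le_antisymm ?_ ?_
    · refine swap_weight hr hs h hc hc₁ hy hy₁ (hwc.trans hw₁.symm)
        ((hiff c hc).mpr (Or.inl rfl)) hyc₁ hyc ?_
      intro u hu
      constructor
      · intro hA
        by_cases huc : u = c₁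
        · exact Or.inl huc
        · refine Or.inr ⟨(hiff u hu).mpr (Or.inr ⟨hA, huc⟩), ?_⟩
          rintro rfl
          exact hnc hA
      · rintro (h3 | h3)
        · rw [h3]
          exact hs _ _ hcy
        · rcases (hiff u hu).mp h3.1 with h4 | h4
          · exact absurd h4 h3.2
          · exact h4.1
    · exact swap_weight hr hs h hc₁ hc hy₁ hy (hw₁.trans hwc.symm) (hs _ _ hcy) hnc hy₁c₁ hiff
  choose! f hfU hfw hfiff using hf
  have hc₂P : c₂ ∈ U ∧ w c₂ = γ ∧ ¬ A y₁ c₂ := ⟨hc₂, hw₂, fun hh => hncy (hs _ _ hh)⟩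
  have hy₂ := hfU c₂ hc₂P
  have hwy₂ := hfw c₂ hc₂P
  have hiff₂ := hfiff c₂ hc₂P
  set y₂ := f c₂ with hy₂def
  have hny₂c₁ : ¬ A y₂ c₁ := by
    intro hh
    rcases (hiff₂ c₁ hc₁).mp hh with h3 | h3
    · exact hne h3
    · exact h3.2 rfl
  have hy₂c₂ : A y₂ c₂ := (hiff₂ c₂ hc₂).mpr (Or.inl rfl)
  have hy₁₂ : y₁ ≠ y₂ := by
    intro e
    exact hny₂c₁ (e ▸ hs _ _ hcy)
  have hc₁y₂ : c₁ ≠ y₂ := by
    intro e
    rw [← e, hw₁] at hwy₂
    exact hwy₁ hwy₂.symm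
  -- N[c₂] = N[c₁] - y₁ + y₂
  have hNc₂ : ∀ u ∈ U, A c₂ u → (u = y₂ ∨ (A c₁ u ∧ u ≠ y₁)) := by
    obtain ⟨v', hv', hiff'⟩ := swap hr hs h hinc hy₁ hy₂ hc₁ hwy₂.symm hcy
      (fun hh => hny₂c₁ (hs _ _ hh))
    have hv'c : v' = c₂ := by
      have h3 : A v' y₂ := (hiff' y₂ hy₂).mpr (Or.inl rfl)
      rcases (hiff₂ v' hv').mp (hs _ _ h3) with h4 | h4
      · exact h4
      · exfalso
        rcases (hiff' y₁ hy₁).mp (hs _ _ h4.1) with h5 | h5
        · exact hy₁₂ h5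
        · exact h5.2 rfl
    subst hv'c
    intro u hu hA
    exact (hiff' u hu).mp hA
  obtain ⟨D₁, hJD, hDU, hDi, hDd⟩ := exists_mis hr hs (pair_sub hc₁ hy₂)
    (indep_pair hs (fun hh => hny₂c₁ (hs _ _ hh)))
  have hc₁D : c₁ ∈ D₁ := hJD (by simp)
  have hy₂D : y₂ ∈ D₁ := hJD (by simp)
  have hDt := (h D₁ hDU).mp (mds_of_indep hDU hDd hDi)
  have hy₂De : y₂ ∈ D₁.erase c₁ := Finset.mem_erase.mpr ⟨hc₁y₂.symm, hy₂D⟩
  set K : Finset V := (D₁.erase c₁).erase y₂ with hK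
  have e1 := wt_erase (w := w) hc₁D
  have e2 := wt_erase (w := w) hy₂De
  rw [← hK] at e2
  have hKD : ∀ k ∈ K, k ∈ D₁ ∧ k ≠ c₁ ∧ k ≠ y₂ := by
    intro k hk
    rw [hK, Finset.mem_erase, Finset.mem_erase] at hk
    exact ⟨hk.2.2, hk.2.1, hk.1⟩
  have hKc₁ : ∀ k ∈ K, ¬ A c₁ k := by
    intro k hk hh
    obtain ⟨hk1, hk2, _⟩ := hKD k hk
    exact hk2 (hDi c₁ hc₁D k hk1 hh).symm
  have hKy₂ : ∀ k ∈ K, ¬ A y₂ k := by
    intro k hk hh
    obtain ⟨hk1, _, hk3⟩ := hKD k hk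
    exact hk3 (hDi y₂ hy₂D k hk1 hh).symm
  have hKy₁ : ∀ k ∈ K, ¬ A y₁ k := by
    intro k hk hh
    obtain ⟨hk1, hk2, _⟩ := hKD k hk
    exact hKy₂ k hk ((hiff₂ k (hDU hk1)).mpr (Or.inr ⟨hh, hk2⟩))
  have hKi : Indep A K := hDi.mono (fun k hk => (hKD k hk).1)
  have hKU : K ⊆ U := fun k hk => hDU (hKD k hk).1
  have hy₁K : y₁ ∉ K := fun hh => hKy₁ y₁ hh (hr _)
  have hy₂K : y₂ ∉ K := fun hh => (hKD y₂ hh).2.2 rfl
  -- vertices missed by y₁ and K have minimum weight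
  have hmiss : ∀ u ∈ U, ¬ A y₁ u → (∀ k ∈ K, ¬ A k u) → w u = γ := by
    intro u hu hn1 hn2
    have huK : u ∉ K := fun hh => hn2 u hh (hr _)
    have hy₁u : y₁ ∉ insert u K := by
      rw [Finset.mem_insert, not_or]
      refine ⟨?_, hy₁K⟩
      rintro rfl
      exact hn1 (hr _)
    have hi : Indep A (insert y₁ (insert u K)) := by
      intro a ha b hb hab
      rw [Finset.mem_insert, Finset.mem_insert] at ha hb
      rcases ha with rfl | rfl | ha <;> rcases hb with rfl | rfl | hb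
      · rfl
      · exact absurd hab hn1
      · exact absurd hab (hKy₁ b hb)
      · exact absurd (hs _ _ hab) hn1
      · rfl
      · exact absurd (hs _ _ hab) (hn2 b hb)
      · exact absurd (hs _ _ hab) (hKy₁ a ha)
      · exact absurd hab (hn2 a ha)
      · exact hKi a ha b hb hab
    obtain ⟨D', hJ', hD'U, hD'i, hD'd⟩ := exists_mis hr hs
      (Finset.insert_subset hy₁ (Finset.insert_subset hu hKU)) hi
    have e3 := (h D' hD'U).mp (mds_of_indep hD'U hD'd hD'i)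
    have e4 := wt_mono (w := w) hJ'
    rw [wt_insert hy₁u, wt_insert huK] at e4
    have := hmin u hu
    omega
  set C₂ : Finset V := U.filter (fun c => ¬ A y₁ c ∧ ∀ k ∈ K, ¬ A k c) with hC₂
  have hC₂mem : ∀ c, c ∈ C₂ ↔ c ∈ U ∧ ¬ A y₁ c ∧ ∀ k ∈ K, ¬ A k c := by
    intro c
    rw [hC₂, Finset.mem_filter]
  have hC₂P : ∀ c ∈ C₂, c ∈ U ∧ w c = γ ∧ ¬ A y₁ c := by
    intro c hc
    obtain ⟨h3, h4, h5⟩ := (hC₂mem c).mp hc
    exact ⟨h3, hmiss c h3 h4 h5, h4⟩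
  have hc₂C₂ : c₂ ∈ C₂ := by
    rw [hC₂mem]
    refine ⟨hc₂, hc₂P.2.2, ?_⟩
    intro k hk hh
    rcases hNc₂ k (hKU hk) (hs _ _ hh) with h3 | h3
    · exact (hKD k hk).2.2 h3
    · exact hKc₁ k hk h3.1
  have hmemF : ∀ d, d ∈ insert y₁ (C₂.image f ∪ K) ↔
      d = y₁ ∨ (∃ c ∈ C₂, f c = d) ∨ d ∈ K := by
    intro d
    rw [Finset.mem_insert, Finset.mem_union, Finset.mem_image]
  have hFU : insert y₁ (C₂.image f ∪ K) ⊆ U := by
    intro d hd
    rcases (hmemF d).mp hd with rfl | ⟨c, hc, rfl⟩ | hd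
    · exact hy₁
    · exact hfU c (hC₂P c hc)
    · exact hKU hd
  have hF : Mds A U (insert y₁ (C₂.image f ∪ K)) := by
    refine mds_of_priv hFU ?_ ?_
    · intro u hu
      by_cases h3 : A y₁ u
      · exact ⟨y₁, by simp, hs _ _ h3⟩
      · by_cases h4 : ∃ k ∈ K, A k u
        · obtain ⟨k, hk, hA⟩ := h4
          exact ⟨k, (hmemF k).mpr (Or.inr (Or.inr hk)), hs _ _ hA⟩
        · push Not at h4
          have huC : u ∈ C₂ := (hC₂mem u).mpr ⟨hu, h3, h4⟩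
          refine ⟨f u, (hmemF _).mpr (Or.inr (Or.inl ⟨u, huC, rfl⟩)), hs _ _ ?_⟩
          exact (hfiff u (hC₂P u huC) u hu).mpr (Or.inl rfl)
    · intro d hd
      rcases (hmemF d).mp hd with rfl | ⟨c, hc, rfl⟩ | hdK
      · refine ⟨c₁, hc₁, ?_⟩
        intro d' hd' hA
        rcases (hmemF d').mp hd' with rfl | ⟨c, hc, rfl⟩ | hd'
        · rfl
        · exfalso
          obtain ⟨h3, h4, h5⟩ := hC₂P c hc
          rcases (hfiff c ⟨h3, h4, h5⟩ c₁ hc₁).mp (hs _ _ hA) with h6 | h6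
          · subst h6
            exact h5 (hs _ _ hcy)
          · exact h6.2 rfl
        · exact absurd hA (hKc₁ d' hd')
      · obtain ⟨h3, h4, h5⟩ := hC₂P c hc
        refine ⟨c, h3, ?_⟩
        intro d' hd' hA
        rcases (hmemF d').mp hd' with rfl | ⟨c', hc', rfl⟩ | hd'
        · exact absurd (hs _ _ hA) h5
        · rcases (hfiff c' (hC₂P c' hc') c h3).mp (hs _ _ hA) with h6 | h6
          · rw [h6]
          · exact absurd h6.1 h5
        · exact absurd (hs _ _ hA) (((hC₂mem c).mp hc).2.2 d' hd')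
      · refine ⟨d, hKU hdK, ?_⟩
        intro d' hd' hA
        rcases (hmemF d').mp hd' with rfl | ⟨c', hc', rfl⟩ | hd'
        · exact absurd (hs _ _ hA) (hKy₁ d hdK)
        · exfalso
          rcases (hfiff c' (hC₂P c' hc') d (hKU hdK)).mp (hs _ _ hA) with h6 | h6
          · subst h6
            exact ((hC₂mem _).mp hc').2.2 _ hdK (hr _)
          · exact hKy₁ d hdK h6.1
        · exact (hKi d hdK d' hd' hA).symm
  have e5 := (h _ hFU).mp hF
  have hsubF : insert y₁ (insert y₂ K) ⊆ insert y₁ (C₂.image f ∪ K) := by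
    intro d hd
    rw [Finset.mem_insert, Finset.mem_insert] at hd
    rw [hmemF]
    rcases hd with rfl | rfl | hd
    · exact Or.inl rfl
    · exact Or.inr (Or.inl ⟨c₂, hc₂C₂, rfl⟩)
    · exact Or.inr (Or.inr hd)
  have e6 := wt_mono (w := w) hsubF
  have hy₁K2 : y₁ ∉ insert y₂ K := by
    rw [Finset.mem_insert, not_or]
    exact ⟨hy₁₂, hy₁K⟩
  rw [wt_insert hy₁K2, wt_insert hy₂K] at e6
  omega

end Pool.Agent.H70.Equi
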