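import Pool.Agent.H70.Equi.CaseA

/-!
The class of minimum weight is a union of components; the structure theorem.
-/

namespace Pool.Agent.H70.Equi

open Finset

set_option linter.unusedSectionVars false
set_option linter.unusedVariables false

variable {V : Type*} [DecidableEq V] {A : V → V → Prop} {w : V → ℕ}

/-- induction hypothesis -/
def IHyp (A : V → V → Prop) (w : V → ℕ) (U : Finset V) : Prop :=
  ∀ U', U' ⊂ U → ∀ W, IsReps A U' W → ∀ t, EqStr A w U' t → Struct A U' W

theorem delN_ssubset (hr : ∀ v, A v v) {U J : Finset V} {j : V} (hj : j ∈ J) (hjU : j ∈ U) :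
    delN A U J ⊂ U := by
  refine Finset.ssubset_iff_of_subset (fun u hu => (mem_delN.mp hu).1) |>.mpr ⟨j, hjU, ?_⟩
  intro hh
  exact (mem_delN.mp hh).2 j hj (hr j)

/-- if all vertices of minimum weight have the same outside neighbourhood, it is empty -/
theorem isolated (hr : ∀ v, A v v) (hs : ∀ u v, A u v → A v u) {U : Finset V} {t γ : ℕ}
    (hγ : 0 < γ)
    (h : EqStr A w U t) (hinc : Inc A U) (hmin : ∀ v ∈ U, γ ≤ w v) (IH : IHyp A w U)
    (hB : ∀ c ∈ U, w c = γ → ∀ c' ∈ U, w c' = γ → ∀ x ∈ U, w x ≠ γ → A x c → A x c') :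
    ∀ c ∈ U, w c = γ → ∀ x ∈ U, w x ≠ γ → ¬ A x c := by
  classical
  intro u hu hwu x₀ hx₀ hwx₀ hx₀u
  -- B
  have hBc : ∀ x ∈ U, w x ≠ γ → A x u → ∀ c ∈ U, w c = γ → A x c :=
    fun x hx hwx hxu c hc hwc => hB u hu hwu c hc hwc x hx hwx hxu
  have hRc : ∀ v ∈ U, w v ≠ γ → ¬ A v u → ∀ c ∈ U, w c = γ → ¬ A v c :=
    fun v hv hwv hvu c hc hwc hvc => hvu (hB c hc hwc u hu hwu v hv hwv hvc)
  -- (1)
  have h1 : ∀ x ∈ U, w x ≠ γ → A x u → ∃ y ∈ U, w y ≠ γ ∧ A y u ∧ ¬ A x y := by
    intro x hx hwx hxu
    by_contra hcon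
    push Not at hcon
    have : u = x := by
      refine hinc u hu x hx ?_
      intro a ha hua
      by_cases hwa : w a = γ
      · exact hBc x hx hwx hxu a ha hwa
      · exact hcon a ha hwa (hs _ _ hua)
    subst this
    exact hwx hwu
  -- (2)
  have h2 : ∀ x ∈ U, w x ≠ γ → A x u → ∀ y ∈ U, w y ≠ γ → A y u → ¬ A x y →
      ∀ v ∈ U, w v ≠ γ → ¬ A v u → A x v ∨ A y v := by
    intro x hx hwx hxu y hy hwy hyu hxy v hv hwv hvu
    by_contra hcon
    rw [not_or] at hcon
    have hi : Indep A ({v} : Finset V) := by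
      intro a ha b hb _
      rw [Finset.mem_singleton] at ha hb
      rw [ha, hb]
    obtain ⟨t', _, h'⟩ := h.delN hr hs (Finset.singleton_subset_iff.mpr hv) hi
    obtain ⟨W', hW'⟩ := exists_reps hr (delN A U {v})
    have hS' := IH (delN A U {v}) (delN_ssubset hr (Finset.mem_singleton_self v) hv) W' hW'
      t' h'
    have hmem : ∀ a, a ∈ U → ¬ A a v → a ∈ delN A U {v} := by
      intro a ha hav
      rw [mem_delN]
      refine ⟨ha, ?_⟩
      intro j hj
      rw [Finset.mem_singleton] at hj
      rwa [hj]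
    have hu' : u ∈ delN A U {v} := hmem u hu (fun hh => hvu (hs _ _ hh))
    have hx' : x ∈ delN A U {v} := hmem x hx hcon.1
    have hy' : y ∈ delN A U {v} := hmem y hy hcon.2
    obtain ⟨r, hr', hsub⟩ := hW'.ex u hu'
    have hrU' := hW'.sub hr'
    have hrU : r ∈ U := (mem_delN.mp hrU').1
    have hwr : w r = γ := by
      have e1 := wt_le_of_nbhd hr hs h' hrU' hu' hsub
      have e2 := hmin r hrU
      omega
    have e3 := hS'.nonadj_weight hr hs h' hW' hx' hy' hr'
      (hs _ _ (hBc x hx hwx hxu r hrU hwr)) (hs _ _ (hBc y hy hwy hyu r hrU hwr)) hxy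
    exact hwx (e3.trans hwr)
  -- (3)
  have h3 : ∀ x ∈ U, w x ≠ γ → A x u → ∃ v ∈ U, w v ≠ γ ∧ ¬ A v u ∧ ¬ A x v := by
    intro x hx hwx hxu
    by_contra hcon
    push Not at hcon
    obtain ⟨y, hy, hwy, hyu, hxy⟩ := h1 x hx hwx hxu
    have hxne : x ≠ u := by
      rintro rfl
      exact hwx hwu
    have hM : Mds A U {x, u} := by
      refine mds_of_priv (pair_sub hx hu) ?_ ?_
      · intro a ha
        by_cases hwa : w a = γ
        · exact ⟨x, by simp, hs _ _ (hBc x hx hwx hxu a ha hwa)⟩
        · by_cases hau : A a u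
          · exact ⟨u, by simp, hau⟩
          · exact ⟨x, by simp, hs _ _ (hcon a ha hwa hau)⟩
      · have hex1 : ∃ a ∈ U, ¬ A a u := by
          by_contra hc
          push Not at hc
          exact hxne (hinc x hx u hu (fun a ha _ => hs _ _ (hc a ha)))
        obtain ⟨a, ha, hau⟩ := hex1
        intro d hd
        simp only [Finset.mem_insert, Finset.mem_singleton] at hd
        rcases hd with rfl | rfl
        · refine ⟨a, ha, ?_⟩
          intro d' hd' hA
          simp only [Finset.mem_insert, Finset.mem_singleton] at hd'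
          rcases hd' with rfl | rfl
          · rfl
          · exact absurd hA hau
        · refine ⟨y, hy, ?_⟩
          intro d' hd' hA
          simp only [Finset.mem_insert, Finset.mem_singleton] at hd'
          rcases hd' with rfl | rfl
          · exact absurd (hs _ _ hA) hxy
          · rfl
    have e1 := (h _ hM.1).mp hM
    rw [wt_insert (by simpa using hxne)] at e1
    have e2 : wt w {u} = w u := by simp [wt]
    obtain ⟨D, hJD, hDU, hDi, hDd⟩ := exists_mis hr hs (Finset.singleton_subset_iff.mpr hx)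
      (show Indep A ({x} : Finset V) by
        intro a ha b hb _
        rw [Finset.mem_singleton] at ha hb
        rw [ha, hb])
    have hxD : x ∈ D := hJD (Finset.mem_singleton_self x)
    have hDt := (h D hDU).mp (mds_of_indep hDU hDd hDi)
    obtain ⟨q, hq, hyq⟩ := hDd y hy
    have hqx : q ≠ x := by
      rintro rfl
      exact hxy (hs _ _ hyq)
    have hnxq : ¬ A x q := fun hh => hqx (hDi x hxD q hq hh).symm
    have hwq : w q ≠ γ := fun e => hnxq (hBc x hx hwx hxu q (hDU hq) e)
    have e3 := wt_mono (w := w) (pair_sub hxD hq)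
    rw [wt_insert (by simpa using hqx.symm)] at e3
    have e4 : wt w {q} = w q := by simp [wt]
    have e5 := hmin q (hDU hq)
    omega
  -- (4)
  have h4 : ∀ x ∈ U, w x ≠ γ → A x u → ∀ y ∈ U, w y ≠ γ → A y u → ¬ A x y →
      w x + w y = t := by
    intro x hx hwx hxu y hy hwy hyu hxy
    have hxne : x ≠ y := by
      rintro rfl
      exact hxy (hr _)
    obtain ⟨vx, hvx, hwvx, hvxu, hxvx⟩ := h3 x hx hwx hxu
    obtain ⟨vy, hvy, hwvy, hvyu, hyvy⟩ := h3 y hy hwy hyu
    have e2 : wt w {x, y} = w x + w y := by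
      rw [wt_insert (by simpa using hxne)]
      simp [wt]
    by_cases hdom : Dom A U {x, y}
    · have hM : Mds A U {x, y} := by
        refine mds_of_priv (pair_sub hx hy) hdom ?_
        intro d hd
        simp only [Finset.mem_insert, Finset.mem_singleton] at hd
        rcases hd with rfl | rfl
        · refine ⟨vy, hvy, ?_⟩
          intro d' hd' hA
          simp only [Finset.mem_insert, Finset.mem_singleton] at hd'
          rcases hd' with rfl | rfl
          · rfl
          · exact absurd (hs _ _ hA) hyvy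
        · refine ⟨vx, hvx, ?_⟩
          intro d' hd' hA
          simp only [Finset.mem_insert, Finset.mem_singleton] at hd'
          rcases hd' with rfl | rfl
          · exact absurd (hs _ _ hA) hxvx
          · rfl
      have e1 := (h _ hM.1).mp hM
      omega
    · exfalso
      unfold Dom at hdom
      push Not at hdom
      obtain ⟨a, ha, hna⟩ := hdom
      have hax : ¬ A a x := hna x (by simp)
      have hay : ¬ A a y := hna y (by simp)
      have hux : u ≠ x := by
        rintro rfl
        exact hwx hwu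
      have huy : u ≠ y := by
        rintro rfl
        exact hwy hwu
      have hsubU : insert u {x, y} ⊆ U := Finset.insert_subset hu (pair_sub hx hy)
      have hM : Mds A U (insert u {x, y}) := by
        refine mds_of_priv hsubU ?_ ?_
        · intro b hb
          by_cases hwb : w b = γ
          · exact ⟨x, by simp, hs _ _ (hBc x hx hwx hxu b hb hwb)⟩
          · by_cases hbu : A b u
            · exact ⟨u, by simp, hbu⟩
            · rcases h2 x hx hwx hxu y hy hwy hyu hxy b hb hwb hbu with h5 | h5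
              · exact ⟨x, by simp, hs _ _ h5⟩
              · exact ⟨y, by simp, hs _ _ h5⟩
        · intro d hd
          simp only [Finset.mem_insert, Finset.mem_singleton] at hd
          rcases hd with rfl | rfl | rfl
          · refine ⟨a, ha, ?_⟩
            intro d' hd' hA
            simp only [Finset.mem_insert, Finset.mem_singleton] at hd'
            rcases hd' with rfl | rfl | rfl
            · rfl
            · exact absurd hA hax
            · exact absurd hA hay
          · refine ⟨vy, hvy, ?_⟩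
            intro d' hd' hA
            simp only [Finset.mem_insert, Finset.mem_singleton] at hd'
            rcases hd' with rfl | rfl | rfl
            · exact absurd hA hvyu
            · rfl
            · exact absurd (hs _ _ hA) hyvy
          · refine ⟨vx, hvx, ?_⟩
            intro d' hd' hA
            simp only [Finset.mem_insert, Finset.mem_singleton] at hd'
            rcases hd' with rfl | rfl | rfl
            · exact absurd hA hvxu
            · exact absurd (hs _ _ hA) hxvx
            · rfl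
      have e1 := (h _ hsubU).mp hM
      rw [wt_insert (by simp [hux, huy]), e2] at e1
      obtain ⟨D, hJD, hDU, hDi, hDd⟩ := exists_mis hr hs (pair_sub hx hy) (indep_pair hs hxy)
      have hxD : x ∈ D := hJD (by simp)
      have hyD : y ∈ D := hJD (by simp)
      have hDt := (h D hDU).mp (mds_of_indep hDU hDd hDi)
      obtain ⟨q, hq, haq⟩ := hDd a ha
      have hqx : q ≠ x := by
        rintro rfl
        exact hax haq
      have hqy : q ≠ y := by
        rintro rfl
        exact hay haq
      have hnxq : ¬ A x q := fun hh => hqx (hDi x hxD q hq hh).symm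
      have hwq : w q ≠ γ := fun e => hnxq (hBc x hx hwx hxu q (hDU hq) e)
      have e3 := wt_mono (w := w) (Finset.insert_subset hq (pair_sub hxD hyD))
      rw [wt_insert (by simp [hqx, hqy]), e2] at e3
      have e5 := hmin q (hDU hq)
      omega
  -- (5)
  have h5 : ∀ x ∈ U, w x ≠ γ → A x u → ∃ K : Finset V, K ⊆ U ∧ (∀ k ∈ K, ¬ A k u ∧ ¬ A x k
      ∧ w k ≠ γ) ∧ w x + wt w K = t := by
    intro x hx hwx hxu
    obtain ⟨K, _, hKR, hKi, hKd⟩ := exists_mis hr hs
      (Finset.empty_subset (U.filter (fun v => w v ≠ γ ∧ ¬ A v u ∧ ¬ A x v)))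
      (show Indep A (∅ : Finset V) by
        intro a ha
        simp at ha)
    have hKm : ∀ k ∈ K, k ∈ U ∧ w k ≠ γ ∧ ¬ A k u ∧ ¬ A x k := by
      intro k hk
      have := hKR hk
      rw [Finset.mem_filter] at this
      exact this
    have hKU : K ⊆ U := fun k hk => (hKm k hk).1
    refine ⟨K, hKU, fun k hk => ⟨(hKm k hk).2.2.1, (hKm k hk).2.2.2, (hKm k hk).2.1⟩, ?_⟩
    have hsubU : insert x K ⊆ U := Finset.insert_subset hx hKU
    obtain ⟨v₀, hv₀, hwv₀, hv₀u, hxv₀⟩ := h3 x hx hwx hxu
    obtain ⟨k₀, hk₀, _⟩ := hKd v₀ (by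
      rw [Finset.mem_filter]
      exact ⟨hv₀, hwv₀, hv₀u, hxv₀⟩)
    have hM : Mds A U (insert x K) := by
      refine mds_of_indep hsubU ?_ ?_
      · intro a ha
        by_cases hwa : w a = γ
        · exact ⟨x, by simp, hs _ _ (hBc x hx hwx hxu a ha hwa)⟩
        · by_cases hxa : A x a
          · exact ⟨x, by simp, hs _ _ hxa⟩
          · by_cases hau : A a u
            · obtain ⟨hk1, hk2, hk3, hk4⟩ := hKm k₀ hk₀
              rcases h2 x hx hwx hxu a ha hwa hau hxa k₀ hk1 hk2 hk3 with h6 | h6
              · exact absurd h6 hk4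
              · exact ⟨k₀, by simp [hk₀], h6⟩
            · obtain ⟨k, hk, hA⟩ := hKd a (by
                rw [Finset.mem_filter]
                exact ⟨ha, hwa, hau, hxa⟩)
              exact ⟨k, by simp [hk], hA⟩
      · intro a ha b hb hab
        rw [Finset.mem_insert] at ha hb
        rcases ha with rfl | ha <;> rcases hb with rfl | hb
        · rfl
        · exact absurd hab (hKm b hb).2.2.2
        · exact absurd (hs _ _ hab) (hKm a ha).2.2.2
        · exact hKi a ha b hb hab
    have hxK : x ∉ K := fun hh => (hKm x hh).2.2.2 (hr _)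
    have e1 := (h _ hsubU).mp hM
    rwa [wt_insert hxK] at e1
  -- conclusion
  obtain ⟨y₀, hy₀, hwy₀, hy₀u, hxy₀⟩ := h1 x₀ hx₀ hwx₀ hx₀u
  have e1 := h4 x₀ hx₀ hwx₀ hx₀u y₀ hy₀ hwy₀ hy₀u hxy₀
  obtain ⟨K₁, hK₁U, hK₁, e2⟩ := h5 x₀ hx₀ hwx₀ hx₀u
  obtain ⟨K₂, hK₂U, hK₂, e3⟩ := h5 y₀ hy₀ hwy₀ hy₀u
  have hdis : Disjoint K₁ K₂ := by
    rw [Finset.disjoint_left]
    intro k hk1 hk2
    obtain ⟨h6, h7, h8⟩ := hK₁ k hk1
    obtain ⟨_, h9, _⟩ := hK₂ k hk2
    rcases h2 x₀ hx₀ hwx₀ hx₀u y₀ hy₀ hwy₀ hy₀u hxy₀ k (hK₁U hk1) h8 h6 with h10 | h10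
    · exact h7 h10
    · exact h9 h10
  have hsubU : K₁ ∪ K₂ ⊆ U := Finset.union_subset hK₁U hK₂U
  have hM := (h _ hsubU).mpr (show wt w (K₁ ∪ K₂) = t by
    rw [wt_union hdis]
    omega)
  obtain ⟨k, hk, hA⟩ := hM.2.1 u hu
  rw [Finset.mem_union] at hk
  rcases hk with hk | hk
  · exact (hK₁ k hk).1 (hs _ _ hA)
  · exact (hK₂ k hk).1 (hs _ _ hA)

/-- the case of pairwise incomparable closed neighbourhoods -/
theorem caseA (hr : ∀ v, A v v) (hs : ∀ u v, A u v → A v u) (hw : ∀ v, 0 < w v)
    {U : Finset V} {t : ℕ} (h : EqStr A w U t) (hinc : Inc A U) (IH : IHyp A w U) :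
    Struct A U U := by
  classical
  by_cases hU : U = ∅
  · subst hU
    exact ⟨fun x hx => by simp at hx, fun x hx => by simp at hx, fun x hx => by simp at hx⟩
  obtain ⟨m, hm, hmin⟩ := Finset.exists_min_image U w (Finset.nonempty_iff_ne_empty.mpr hU)
  set γ := w m with hγ
  have hγpos : 0 < γ := hw m
  -- either the class is a single vertex or every member has a non-neighbour in it
  have hdich : (∀ c ∈ U, w c = γ → ∀ c' ∈ U, w c' = γ → c = c') ∨
      (∀ c ∈ U, w c = γ → ∃ c' ∈ U, w c' = γ ∧ ¬ A c c') := by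
    by_cases hcl : ∀ c ∈ U, w c = γ → ∀ c' ∈ U, w c' = γ → A c c'
    · left
      intro c hc hwc c' hc' hwc'
      by_contra hne
      exact no_clique hr hs h hinc hmin hcl hc hwc hc' hwc' hne
    · right
      push Not at hcl
      obtain ⟨d, hd, hwd, d', hd', hwd', hdd'⟩ := hcl
      intro c hc hwc
      by_cases hdc : A d c
      · by_cases hdceq : d = c
        · subst hdceq
          exact ⟨d', hd', hwd', hdd'⟩
        · obtain ⟨y, hy, hwy, hiff⟩ := third hr hs h hinc hd hd' hc (hwd.trans hwc.symm)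
            (hwd'.trans hwc.symm) hdd' hdc hdceq
          refine ⟨y, hy, hwy.trans hwc, ?_⟩
          intro hcy
          rcases (hiff c hc).mp (hs _ _ hcy) with h3 | h3
          · exact hdceq h3.symm
          · exact h3.2 rfl
      · exact ⟨d, hd, hwd, fun hh => hdc (hs _ _ hh)⟩
  -- same outside neighbourhoods
  have hB : ∀ c ∈ U, w c = γ → ∀ c' ∈ U, w c' = γ → ∀ x ∈ U, w x ≠ γ → A x c → A x c' := by
    intro c hc hwc c' hc' hwc' x hx hwx hxc
    by_cases hcc : c = c'
    · subst hcc
      exact hxc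
    have hxne : x ≠ c := by
      rintro rfl
      exact hwx hwc
    have hxne' : x ≠ c' := by
      rintro rfl
      exact hwx hwc'
    rcases hdich with hone | hnon
    · exact absurd (hone c hc hwc c' hc' hwc') hcc
    · by_cases hA : A c c'
      · obtain ⟨c₀, hc₀, hwc₀, hncc₀⟩ := hnon c hc hwc
        have hxne₀ : x ≠ c₀ := by
          rintro rfl
          exact hwx hwc₀
        obtain ⟨y, hy, hwy, hiff⟩ := third hr hs h hinc hc hc₀ hc' (hwc.trans hwc'.symm)
          (hwc₀.trans hwc'.symm) hncc₀ hA hcc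
        have hxney : x ≠ y := by
          rintro rfl
          exact hwx (hwy.trans hwc')
        have h3 : A c₀ x := (false_twins hr hs h hinc hc hc₀ (hwc.trans hwc₀.symm) hncc₀ x hx
          hxne hxne₀).mp (hs _ _ hxc)
        have h4 : A y x := (hiff x hx).mpr (Or.inr ⟨h3, hxne'⟩)
        have h5 : ¬ A y c' := by
          intro hh
          rcases (hiff c' hc').mp hh with h6 | h6
          · exact hcc h6.symm
          · exact h6.2 rfl
        exact hs _ _ ((false_twins hr hs h hinc hy hc' hwy h5 x hx hxney hxne').mp h4)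
      · exact hs _ _ ((false_twins hr hs h hinc hc hc' (hwc.trans hwc'.symm) hA x hx hxne
          hxne').mp (hs _ _ hxc))
  have hiso := isolated hr hs hγpos h hinc hmin IH hB
  -- s3
  refine ⟨fun x hx hxU => absurd hx hxU, fun x hx hxU => absurd hx hxU, ?_⟩
  intro a ha b hb hab hAab
  by_cases hwa : w a = γ
  · have hwb : w b = γ := by
      by_contra hwb
      exact hiso a ha hwa b hb hwb (hs _ _ hAab)
    rcases hdich with hone | hnon
    · exact absurd (hone a ha hwa b hb hwb) hab
    · obtain ⟨a₀, ha₀, hwa₀, hnaa₀⟩ := hnon a ha hwa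
      obtain ⟨y, hy, hwy, hiff⟩ := third hr hs h hinc ha ha₀ hb (hwa.trans hwb.symm)
        (hwa₀.trans hwb.symm) hnaa₀ hAab hab
      have hyb : ¬ A y b := by
        intro hh
        rcases (hiff b hb).mp hh with h6 | h6
        · exact hab h6.symm
        · exact h6.2 rfl
      have hyneb : y ≠ b := by
        rintro rfl
        exact hyb (hr _)
      have htw := false_twins hr hs h hinc hb hy hwy.symm (fun hh => hyb (hs _ _ hh))
      refine ⟨y, hy, hyneb, fun hh => hyb (hs _ _ hh), ?_, ?_⟩
      · intro v hv hvb hvy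
        exact htw v hv hvb hvy
      · intro v hv hav hbv
        by_contra hvy
        have hvb : v ≠ b := by
          rintro rfl
          exact hbv (hr _)
        have hva : v ≠ a := by
          rintro rfl
          exact hbv (hs _ _ hAab)
        have hva₀ : v ≠ a₀ := by
          rintro rfl
          exact hnaa₀ hav
        have h3 : A a₀ v := (false_twins hr hs h hinc ha ha₀ (hwa.trans hwa₀.symm) hnaa₀ v hv
          hva hva₀).mp hav
        have h4 : A y v := (hiff v hv).mpr (Or.inr ⟨h3, hvb⟩)
        exact hbv ((htw v hv hvb hvy).mpr h4)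
  · have hwb : w b ≠ γ := fun hwb => hiso b hb hwb a ha hwa hAab
    -- delete the class of minimum weight
    obtain ⟨J, _, hJC, hJi, hJd⟩ := exists_mis hr hs
      (Finset.empty_subset (U.filter (fun v => w v = γ)))
      (show Indep A (∅ : Finset V) by
        intro a ha
        simp at ha)
    have hJm : ∀ j ∈ J, j ∈ U ∧ w j = γ := by
      intro j hj
      have := hJC hj
      rwa [Finset.mem_filter] at this
    have hJU : J ⊆ U := fun j hj => (hJm j hj).1
    have hmem' : ∀ x, x ∈ delN A U J ↔ x ∈ U ∧ w x ≠ γ := by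
      intro x
      rw [mem_delN]
      constructor
      · rintro ⟨hx, hh⟩
        refine ⟨hx, ?_⟩
        intro hwx
        obtain ⟨j, hj, hA⟩ := hJd x (by
          rw [Finset.mem_filter]
          exact ⟨hx, hwx⟩)
        exact hh j hj hA
      · rintro ⟨hx, hwx⟩
        exact ⟨hx, fun j hj => hiso j (hJm j hj).1 (hJm j hj).2 x hx hwx⟩
    obtain ⟨j₀, hj₀, _⟩ := hJd m (by
      rw [Finset.mem_filter]
      exact ⟨hm, rfl⟩)
    have hss := delN_ssubset hr hj₀ (hJU hj₀)
    obtain ⟨t', _, h'⟩ := h.delN hr hs hJU hJi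
    have hreps : IsReps A (delN A U J) (delN A U J) := by
      refine ⟨Finset.Subset.refl _, fun x hx => ⟨x, hx, fun _ _ hh => hh⟩, ?_⟩
      intro v hv v' hv' hsub
      have hv1 := (hmem' v).mp hv
      have hv1' := (hmem' v').mp hv'
      refine hinc v hv1.1 v' hv1'.1 ?_
      intro x hx hA
      by_cases hwx : w x = γ
      · exact absurd hA (hiso x hx hwx v hv1.1 hv1.2)
      · exact hsub x ((hmem' x).mpr ⟨hx, hwx⟩) hA
    have hS' := IH _ hss _ hreps t' h'
    obtain ⟨b', hb', hb'b, hnb, htw, hF⟩ := hS'.s3 a ((hmem' a).mpr ⟨ha, hwa⟩) b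
      ((hmem' b).mpr ⟨hb, hwb⟩) hab hAab
    have hb'1 := (hmem' b').mp hb'
    refine ⟨b', hb'1.1, hb'b, hnb, ?_, ?_⟩
    · intro v hv hvb hvb'
      by_cases hwv : w v = γ
      · exact ⟨fun hh => absurd hh (hiso v hv hwv b hb hwb),
          fun hh => absurd hh (hiso v hv hwv b' hb'1.1 hb'1.2)⟩
      · exact htw v ((hmem' v).mpr ⟨hv, hwv⟩) hvb hvb'
    · intro v hv hav hbv
      by_cases hwv : w v = γ
      · exact absurd hav (hiso v hv hwv a ha hwa)
      · exact hF v ((hmem' v).mpr ⟨hv, hwv⟩) hav hbv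

/-- the structure theorem -/
theorem struct_of_eqStr (hr : ∀ v, A v v) (hs : ∀ u v, A u v → A v u) (hw : ∀ v, 0 < w v)
    (U : Finset V) : ∀ W, IsReps A U W → ∀ t, EqStr A w U t → Struct A U W := by
  induction U using Finset.strongInduction with
  | H U ih =>
    intro W hW t h
    by_cases hWU : W = U
    · subst hWU
      exact caseA hr hs hw h hW.inj (fun U' hU' => ih U' hU')
    · have hex : ∃ z ∈ U, z ∉ W := by
        by_contra hcon
        push Not at hcon
        exact hWU (Finset.Subset.antisymm hW.sub hcon)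
      obtain ⟨z, hz, hzW⟩ := hex
      exact caseZ hr hs hw h hW hz hzW (ih (U.erase z) (Finset.erase_ssubset hz))

end Pool.Agent.H70.Equi
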