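import Pool.Agent.H70.Equi.Blocks

/-!
The inductive step when some vertex has a redundant closed neighbourhood.
-/

namespace Pool.Agent.H70.Equi

open Finset

set_option linter.unusedSectionVars false
set_option linter.unusedVariables false

variable {V : Type*} [DecidableEq V] {A : V → V → Prop} {w : V → ℕ}

/-- representatives which stay representatives after deleting `z` -/
theorem reps_erase (hr : ∀ v, A v v) {U W : Finset V} (hW : IsReps A U W) {z : V}
    (hzW : z ∉ W) : ∃ W₁ ⊆ W, IsReps A (U.erase z) W₁ := by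
  classical
  refine ⟨W.filter (fun v => ∀ v' ∈ W, (∀ u ∈ U.erase z, A v' u → A v u) → v' = v),
    Finset.filter_subset _ _, ?_, ?_, ?_⟩
  · intro v hv
    rw [Finset.mem_filter] at hv
    rw [Finset.mem_erase]
    refine ⟨?_, hW.sub hv.1⟩
    rintro rfl
    exact hzW hv.1
  · intro x hx
    have hxU := Finset.mem_of_mem_erase hx
    obtain ⟨v, hv, hsub⟩ := hW.ex x hxU
    have hne : (W.filter (fun v => ∀ u ∈ U.erase z, A v u → A x u)).Nonempty :=
      ⟨v, by
        rw [Finset.mem_filter]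
        exact ⟨hv, fun u hu hA => hsub u (Finset.mem_of_mem_erase hu) hA⟩⟩
    obtain ⟨m, hm, hmin⟩ := Finset.exists_min_image
      (W.filter (fun v => ∀ u ∈ U.erase z, A v u → A x u))
      (fun v => ((U.erase z).filter (fun u => A v u)).card) hne
    rw [Finset.mem_filter] at hm
    refine ⟨m, ?_, hm.2⟩
    rw [Finset.mem_filter]
    refine ⟨hm.1, ?_⟩
    intro v' hv' hsub'
    have hv'mem : v' ∈ W.filter (fun v => ∀ u ∈ U.erase z, A v u → A x u) := by
      rw [Finset.mem_filter]
      exact ⟨hv', fun u hu hA => hm.2 u hu (hsub' u hu hA)⟩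
    have hcard := hmin v' hv'mem
    have hss : (U.erase z).filter (fun u => A v' u) ⊆ (U.erase z).filter (fun u => A m u) := by
      intro u hu
      rw [Finset.mem_filter] at hu ⊢
      exact ⟨hu.1, hsub' u hu.1 hu.2⟩
    have heq := Finset.eq_of_subset_of_card_le hss hcard
    by_cases hz : A v' z → A m z
    · refine hW.inj v' hv' m hm.1 ?_
      intro u hu hA
      by_cases huz : u = z
      · subst huz
        exact hz hA
      · exact hsub' u (Finset.mem_erase.mpr ⟨huz, hu⟩) hA
    · push Not at hz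
      refine (hW.inj m hm.1 v' hv' ?_).symm
      intro u hu hA
      by_cases huz : u = z
      · subst huz
        exact hz.1
      · have : u ∈ (U.erase z).filter (fun u => A m u) := by
          rw [Finset.mem_filter]
          exact ⟨Finset.mem_erase.mpr ⟨huz, hu⟩, hA⟩
        rw [← heq, Finset.mem_filter] at this
        exact this.2
  · intro v hv v' hv' hsub
    rw [Finset.mem_filter] at hv hv'
    exact hv'.2 v hv.1 hsub

/-- laminarity with respect to the new vertex, when no representative is lost -/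
theorem laminar_new (hr : ∀ v, A v v) (hs : ∀ u v, A u v → A v u) (hw : ∀ v, 0 < w v)
    {U W : Finset V} {t : ℕ} (h : EqStr A w U t) (hW : IsReps A U W) {x z : V}
    (hx : x ∈ U) (hxW : x ∉ W) (hz : z ∈ U) (hzW : z ∉ W) (hxz : x ≠ z)
    (hclx : ∀ a ∈ W, ∀ b ∈ W, A x a → A a b → A x b)
    (hclz : ∀ a ∈ W, ∀ b ∈ W, A z a → A a b → A z b)
    {a : V} (ha : a ∈ W) (hxa : A x a) (hza : A z a) :
    (∀ b ∈ W, A x b → A z b) ∨ (∀ b ∈ W, A z b → A x b) := by
  by_contra hcon
  rw [not_or] at hcon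
  obtain ⟨h1, h2⟩ := hcon
  push Not at h1 h2
  obtain ⟨p, hp, hxp, hzp⟩ := h1
  obtain ⟨q, hq, hzq, hxq⟩ := h2
  obtain ⟨B, _, hBW, hBi, hBd⟩ := exists_mis hr hs (Finset.empty_subset W)
    (show Indep A (∅ : Finset V) by
      intro a ha
      simp at ha)
  have hxB : x ∉ B := fun hh => hxW (hBW hh)
  have hzB : z ∉ B := fun hh => hzW (hBW hh)
  have hwx := weight_eq_tr hr hs h hW hBW hBi hBd hx hxB hclx
  have hwz := weight_eq_tr hr hs h hW hBW hBi hBd hz hzB hclz
  have hBU : B ⊆ U := hBW.trans hW.sub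
  have hBt := (h B hBU).mp (mds_of_indep hBU (dom_of_reps hs hW hBU hBd) hBi)
  have hsubU : insert z (insert x (B \ (tr A z B ∪ tr A x B))) ⊆ U :=
    Finset.insert_subset hz (Finset.insert_subset hx (Finset.sdiff_subset.trans hBU))
  have hmemd : ∀ d, d ∈ B \ (tr A z B ∪ tr A x B) ↔ d ∈ B ∧ ¬ A z d ∧ ¬ A x d := by
    intro d
    rw [Finset.mem_sdiff, Finset.mem_union, mem_tr, mem_tr]
    tauto
  have hM : Mds A U (insert z (insert x (B \ (tr A z B ∪ tr A x B)))) := by
    refine mds_of_priv hsubU (dom_of_reps hs hW hsubU ?_) ?_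
    · intro v hv
      obtain ⟨d, hd, hA⟩ := hBd v hv
      by_cases hzd : A z d
      · exact ⟨z, by simp, hs _ _ (hclz d (hBW hd) v hv hzd (hs _ _ hA))⟩
      · by_cases hxd : A x d
        · exact ⟨x, by simp, hs _ _ (hclx d (hBW hd) v hv hxd (hs _ _ hA))⟩
        · refine ⟨d, ?_, hA⟩
          rw [Finset.mem_insert, Finset.mem_insert, hmemd]
          exact Or.inr (Or.inr ⟨hd, hzd, hxd⟩)
    · intro d hd
      rw [Finset.mem_insert, Finset.mem_insert, hmemd] at hd
      rcases hd with rfl | rfl | hd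
      · refine ⟨q, hW.sub hq, ?_⟩
        intro d' hd' hA
        rw [Finset.mem_insert, Finset.mem_insert, hmemd] at hd'
        rcases hd' with rfl | rfl | hd'
        · rfl
        · exact absurd (hs _ _ hA) hxq
        · exact absurd (hclz q hq d' (hBW hd'.1) hzq hA) hd'.2.1
      · refine ⟨p, hW.sub hp, ?_⟩
        intro d' hd' hA
        rw [Finset.mem_insert, Finset.mem_insert, hmemd] at hd'
        rcases hd' with rfl | rfl | hd'
        · exact absurd (hs _ _ hA) hzp
        · rfl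
        · exact absurd (hclx p hp d' (hBW hd'.1) hxp hA) hd'.2.2
      · refine ⟨d, hBU hd.1, ?_⟩
        intro d' hd' hA
        rw [Finset.mem_insert, Finset.mem_insert, hmemd] at hd'
        rcases hd' with rfl | rfl | hd'
        · exact absurd (hs _ _ hA) hd.2.1
        · exact absurd (hs _ _ hA) hd.2.2
        · exact (hBi d hd.1 d' hd'.1 hA).symm
  have hMt := (h _ hsubU).mp hM
  have hx1 : x ∉ B \ (tr A z B ∪ tr A x B) := fun hh => hxB (Finset.mem_sdiff.mp hh).1
  have hz1 : z ∉ insert x (B \ (tr A z B ∪ tr A x B)) := by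
    rw [Finset.mem_insert, not_or]
    exact ⟨fun e => hxz e.symm, fun hh => hzB (Finset.mem_sdiff.mp hh).1⟩
  rw [wt_insert hz1, wt_insert hx1] at hMt
  have h5 := wt_sdiff (w := w) (Finset.union_subset (tr_sub (A := A) (x := z) (B := B))
    (tr_sub (A := A) (x := x) (B := B)))
  have h6 : wt w (tr A z B ∪ tr A x B) + wt w (tr A z B ∩ tr A x B) =
      wt w (tr A z B) + wt w (tr A x B) := Finset.sum_union_inter
  have h7 : 0 < wt w (tr A z B ∩ tr A x B) := by
    obtain ⟨b, hb, hA⟩ := hBd a ha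
    refine wt_pos hw ⟨b, ?_⟩
    rw [Finset.mem_inter, mem_tr, mem_tr]
    exact ⟨⟨hb, hclz a ha b (hBW hb) hza hA⟩, ⟨hb, hclx a ha b (hBW hb) hxa hA⟩⟩
  omega

/-- the trace of the new vertex is closed under adjacency of representatives -/
theorem closed_new (hr : ∀ v, A v v) (hs : ∀ u v, A u v → A v u)
    {U W W₁ : Finset V} {t : ℕ} (h : EqStr A w U t) (hW : IsReps A U W) {z : V}
    (hz : z ∈ U) (hzW : z ∉ W) (hW₁W : W₁ ⊆ W) (h₁ : EqStr A w (U.erase z) t)
    (hW₁ : IsReps A (U.erase z) W₁) (hS₁ : Struct A (U.erase z) W₁) :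
    ∀ a ∈ W₁, ∀ c ∈ W₁, A z a → A a c → A z c := by
  intro a ha c hc hza hac
  by_contra hzc
  have hne : a ≠ c := by
    rintro rfl
    exact hzc hza
  obtain ⟨a', ha'W, ha'a, hna, htwa, hFa⟩ := hS₁.s3 c hc a ha hne.symm (hs _ _ hac)
  obtain ⟨c', hc'W, hc'c, hnc, htwc, hFc⟩ := hS₁.s3 a ha c hc hne hac
  have haa'W : ({a, a'} : Finset V) ⊆ W₁ := by
    intro x hx
    simp only [Finset.mem_insert, Finset.mem_singleton] at hx
    rcases hx with rfl | rfl <;> assumption
  have haa'i : Indep A ({a, a'} : Finset V) := by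
    intro x hx y hy hxy
    simp only [Finset.mem_insert, Finset.mem_singleton] at hx hy
    rcases hx with rfl | rfl <;> rcases hy with rfl | rfl
    · rfl
    · exact absurd hxy hna
    · exact absurd (hs _ _ hxy) hna
    · rfl
  obtain ⟨B, hJB, hBW, hBi, hBd⟩ := exists_mis hr hs haa'W haa'i
  have haB : a ∈ B := hJB (by simp)
  have ha'B : a' ∈ B := hJB (by simp)
  have hzW₁ : z ∉ W₁ := fun hh => hzW (hW₁W hh)
  have hac' : a ≠ c' := by
    rintro rfl
    exact hnc (hs _ _ hac)
  have hc'a : A c' a := (htwc a ha hne hac').mp (hs _ _ hac)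
  have hca' : c ≠ a' := by
    rintro rfl
    exact hna hac
  have ha'c : A a' c := (htwa c hc hne.symm hca').mp hac
  have hc'B : c' ∉ B := fun hh => hac' (hBi c' hh a haB hc'a).symm
  have hcb : ∀ b ∈ B, b ≠ a → b ≠ a' → ¬ A c b := by
    intro b hb hba hba' hAcb
    have : ¬ A a b := fun hAab => hba (hBi a haB b hb hAab).symm
    exact hba' (hFa b (hBW hb) hAcb this)
  have hBU : B ⊆ U := hBW.trans (hW₁W.trans hW.sub)
  have hXU : insert z (B.erase a) ⊆ U :=
    Finset.insert_subset hz ((Finset.erase_subset _ _).trans hBU)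
  have hXdom : Dom A U (insert z (B.erase a)) := by
    refine dom_of_reps hs hW hXU ?_
    intro v hv
    have hvU₁ : v ∈ U.erase z := by
      rw [Finset.mem_erase]
      refine ⟨?_, hW.sub hv⟩
      rintro rfl
      exact hzW hv
    by_cases hvW₁ : v ∈ W₁
    · obtain ⟨b, hb, hA⟩ := hBd v hvW₁
      by_cases hba : b = a
      · subst hba
        by_cases hva : v = b
        · subst hva
          exact ⟨z, by simp, hs _ _ hza⟩
        · have hva' : v ≠ a' := by
            rintro rfl
            exact hna (hs _ _ hA)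
          exact ⟨a', by simp [ha'a, ha'B], hs _ _ ((htwa v hvW₁ hva hva').mp (hs _ _ hA))⟩
      · exact ⟨b, by simp [hba, hb], hA⟩
    · obtain ⟨k', hk'W, hk'sub⟩ := hW₁.ex v hvU₁
      obtain ⟨b, hb, hA⟩ := hBd k' hk'W
      have hvb : A v b := hk'sub b (hW₁.sub (hBW hb)) hA
      by_cases hba : b = a
      · subst hba
        have hvc := hS₁.s1 v hvU₁ hvW₁ b ha c hc hvb hac
        have hva' := hS₁.s1 v hvU₁ hvW₁ c hc a' ha'W hvc (hs _ _ ha'c)
        exact ⟨a', by simp [ha'a, ha'B], hva'⟩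
      · exact ⟨b, by simp [hba, hb], hvb⟩
  obtain ⟨D, hDX, hD⟩ := exists_mds hXU hXdom
  have hmemX : ∀ d ∈ D, d = z ∨ (d ∈ B ∧ d ≠ a) := by
    intro d hd
    have := hDX hd
    rw [Finset.mem_insert, Finset.mem_erase] at this
    tauto
  have ha'D : a' ∈ D := by
    obtain ⟨d, hd, hA⟩ := hD.2.1 c (hW₁W.trans hW.sub hc)
    rcases hmemX d hd with rfl | ⟨hdB, hda⟩
    · exact absurd (hs _ _ hA) hzc
    · by_cases hda' : d = a'
      · rwa [← hda']
      · exact absurd hA (hcb d hdB hda hda')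
  have hc'D : c' ∉ D := by
    intro hh
    rcases hmemX c' hh with rfl | ⟨h1, _⟩
    · exact hzW₁ hc'W
    · exact hc'B h1
  have hw1 : w a' = w c := hS₁.adj_weight hr hs h₁ hW₁ ha'W hc hca'.symm ha'c
  have hw2 : w a = w c := hS₁.adj_weight hr hs h₁ hW₁ ha hc hne hac
  have hw3 : w c' = w a := hS₁.adj_weight hr hs h₁ hW₁ hc'W ha hac'.symm hc'a
  have hDt := (h D (hDX.trans hXU)).mp hD
  have hD3U : insert c' (D.erase a') ⊆ U :=
    Finset.insert_subset (Finset.mem_of_mem_erase (hW₁.sub hc'W))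
      ((Finset.erase_subset _ _).trans (hDX.trans hXU))
  have hD3t : wt w (insert c' (D.erase a')) = t := by
    rw [wt_insert (by simp [hc'D])]
    have := wt_erase (w := w) ha'D
    omega
  have hD3 := (h _ hD3U).mpr hD3t
  obtain ⟨d, hd, hA⟩ := hD3.2.1 c (hW₁W.trans hW.sub hc)
  rw [Finset.mem_insert, Finset.mem_erase] at hd
  rcases hd with rfl | ⟨hda', hd⟩
  · exact hnc hA
  · rcases hmemX d hd with rfl | ⟨hdB, hda⟩
    · exact hzc (hs _ _ hA)
    · exact hcb d hdB hda hda' hA

end Pool.Agent.H70.Equi
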