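import Pool.Agent.H70.Equi.CaseZ

/-!
No representative is lost when a redundant vertex is deleted.
-/

namespace Pool.Agent.H70.Equi

open Finset

set_option linter.unusedSectionVars false
set_option linter.unusedVariables false

variable {V : Type*} [DecidableEq V] {A : V → V → Prop} {w : V → ℕ}

/-- standing data for the deletion of a redundant vertex `z` -/
structure Ctx (A : V → V → Prop) (w : V → ℕ) (U W W₁ B : Finset V) (z : V) (t : ℕ) : Prop where
  hr : ∀ v, A v v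
  hs : ∀ u v, A u v → A v u
  h : EqStr A w U t
  hW : IsReps A U W
  hz : z ∈ U
  hzW : z ∉ W
  hW₁W : W₁ ⊆ W
  h₁ : EqStr A w (U.erase z) t
  hW₁ : IsReps A (U.erase z) W₁
  hS₁ : Struct A (U.erase z) W₁
  hBW : B ⊆ W₁
  hBi : Indep A B
  hBd : Dom A W₁ B

namespace Ctx

variable {U W W₁ B : Finset V} {z : V} {t : ℕ}

theorem W_sub (c : Ctx A w U W W₁ B z t) : W ⊆ U.erase z := by
  intro v hv
  rw [Finset.mem_erase]
  refine ⟨?_, c.hW.sub hv⟩
  rintro rfl
  exact c.hzW hv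

theorem BU (c : Ctx A w U W W₁ B z t) : B ⊆ U :=
  c.hBW.trans (c.hW₁W.trans c.hW.sub)

theorem zB (c : Ctx A w U W W₁ B z t) : z ∉ B :=
  fun hh => c.hzW (c.hW₁W (c.hBW hh))

theorem clz (c : Ctx A w U W W₁ B z t) : ∀ a ∈ W₁, ∀ b ∈ W₁, A z a → A a b → A z b :=
  closed_new c.hr c.hs c.h c.hW c.hz c.hzW c.hW₁W c.h₁ c.hW₁ c.hS₁

theorem clk (c : Ctx A w U W W₁ B z t) {k : V} (hk : k ∈ W) (hk1 : k ∉ W₁) :
    ∀ a ∈ W₁, ∀ b ∈ W₁, A k a → A a b → A k b :=
  c.hS₁.s1 k (c.W_sub hk) hk1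

theorem f0 (c : Ctx A w U W W₁ B z t) {k : V} (hk : k ∈ W) (hk1 : k ∉ W₁) :
    ∃ k' ∈ W₁, (∀ u ∈ U.erase z, A k' u → A k u) ∧ A z k' ∧ ¬ A z k := by
  obtain ⟨k', hk', hsub⟩ := c.hW₁.ex k (c.W_sub hk)
  have hne : k' ≠ k := by
    rintro rfl
    exact hk1 hk'
  have hnot : ¬ ∀ u ∈ U, A k' u → A k u := fun hh => hne (c.hW.inj k' (c.hW₁W hk') k hk hh)
  have hz' : A k' z ∧ ¬ A k z := by
    by_contra hcon
    refine hnot ?_
    intro u hu hA
    by_cases huz : u = z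
    · subst huz
      by_contra h2
      exact hcon ⟨hA, h2⟩
    · exact hsub u (Finset.mem_erase.mpr ⟨huz, hu⟩) hA
  exact ⟨k', hk', hsub, c.hs _ _ hz'.1, fun hh => hz'.2 (c.hs _ _ hh)⟩

theorem f0' (c : Ctx A w U W W₁ B z t) {k : V} (hk : k ∈ W) (hk1 : k ∉ W₁) :
    ∃ k' ∈ W₁, A k k' ∧ A z k' := by
  obtain ⟨k', hk', hsub, h1, _⟩ := c.f0 hk hk1
  exact ⟨k', hk', hsub k' (c.W_sub (c.hW₁W hk')) (c.hr k'), h1⟩

theorem nz (c : Ctx A w U W W₁ B z t) {k : V} (hk : k ∈ W) (hk1 : k ∉ W₁) : ¬ A z k := by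
  obtain ⟨_, _, _, _, h1⟩ := c.f0 hk hk1
  exact h1

theorem f2 (c : Ctx A w U W W₁ B z t) :
    ∃ q ∈ W₁, A z q ∧ ∀ k ∈ W, k ∉ W₁ → ¬ A k q := by
  obtain ⟨q, hq, hsub⟩ := c.hW.ex z c.hz
  have hzq : A z q := hsub q (c.hW.sub hq) (c.hr q)
  refine ⟨q, ?_, hzq, ?_⟩
  · by_contra hq1
    exact c.nz hq hq1 hzq
  · intro k hk hk1 hA
    exact c.nz hk hk1 (hsub k (c.hW.sub hk) (c.hs _ _ hA))

theorem f3 (c : Ctx A w U W W₁ B z t) {k l : V} (hk : k ∈ W) (hk1 : k ∉ W₁)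
    (hl : l ∈ W) (hl1 : l ∉ W₁) {a : V} (ha : a ∈ W₁) (hka : A k a) (hla : A l a) :
    A k l := by
  rcases c.hS₁.s2 k (c.W_sub hk) hk1 l (c.W_sub hl) hl1 a ha hka hla with h1 | h1
  · obtain ⟨k', hk', hsub, _, _⟩ := c.f0 hk hk1
    have h2 : A k k' := hsub k' (c.W_sub (c.hW₁W hk')) (c.hr k')
    exact hsub l (c.W_sub hl) (c.hs _ _ (h1 k' hk' h2))
  · obtain ⟨l', hl', hsub, _, _⟩ := c.f0 hl hl1
    have h2 : A l l' := hsub l' (c.W_sub (c.hW₁W hl')) (c.hr l')
    exact c.hs _ _ (hsub k (c.W_sub hk) (c.hs _ _ (h1 l' hl' h2)))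

theorem f4 (c : Ctx A w U W W₁ B z t) {k : V} (hk : k ∈ W) (hk1 : k ∉ W₁) :
    w k = wt w (tr A k B) :=
  weight_eq_tr c.hr c.hs c.h₁ c.hW₁ c.hBW c.hBi c.hBd (c.W_sub hk)
    (fun hh => hk1 (c.hBW hh)) (c.clk hk hk1)

/-- a closed trace meeting `B` in one point is a singleton -/
theorem f5 (c : Ctx A w U W W₁ B z t) {x b : V}
    (hcl : ∀ a ∈ W₁, ∀ b ∈ W₁, A x a → A a b → A x b) (hb : b ∈ B)
    (hone : ∀ b' ∈ B, A x b' → b' = b) : ∀ v ∈ W₁, A x v → v = b := by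
  intro v hv hxv
  by_contra hne
  have hvb : A v b := by
    obtain ⟨b₁, hb₁, hA⟩ := c.hBd v hv
    have := hone b₁ hb₁ (hcl v hv b₁ (c.hBW hb₁) hxv hA)
    rwa [← this]
  obtain ⟨b', hb'W, hb'b, hnb, htw, hF⟩ := c.hS₁.s3 v hv b (c.hBW hb) hne hvb
  have hvb' : v ≠ b' := by
    rintro rfl
    exact hnb (c.hs _ _ hvb)
  have hb'v : A b' v := (htw v hv hne hvb').mp (c.hs _ _ hvb)
  have hxb' : A x b' := hcl v hv b' hb'W hxv (c.hs _ _ hb'v)
  obtain ⟨b₂, hb₂, hA⟩ := c.hBd b' hb'W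
  have := hone b₂ hb₂ (hcl b' hb'W b₂ (c.hBW hb₂) hxb' hA)
  subst this
  exact hnb (c.hs _ _ hA)

/-- the singleton traces of lost representatives -/
def PX (A : V → V → Prop) (W W₁ : Finset V) (z : V) (s : V) : Prop :=
  s ∈ W₁ ∧ A z s ∧ ∃ k ∈ W, k ∉ W₁ ∧ A k s ∧ ∀ v ∈ W₁, A k v → v = s

theorem PX_B (c : Ctx A w U W W₁ B z t) {s : V} (h : PX A W W₁ z s) : s ∈ B := by
  obtain ⟨hs1, _, k, hk, hk1, hks, hone⟩ := h
  obtain ⟨b, hb, hA⟩ := c.hBd s hs1
  have := hone b (c.hBW hb) (c.clk hk hk1 s hs1 b (c.hBW hb) hks hA)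
  rwa [← this]

/-- the key exchange step -/
theorem key (c : Ctx A w U W W₁ B z t) {l : V} (hl : l ∈ W) (hl1 : l ∉ W₁)
    {b : V} (hb : b ∈ B) (hlb : A l b) (hzb : A z b) : PX A W W₁ z b := by
  classical
  obtain ⟨q, hq, hzq, hkq⟩ := c.f2
  have hmembase : ∀ d, d ∈ B \ (tr A z B ∪ tr A l B) ↔ d ∈ B ∧ ¬ A z d ∧ ¬ A l d := by
    intro d
    rw [Finset.mem_sdiff, Finset.mem_union, mem_tr, mem_tr]
    tauto
  -- the property of a correcting set
  have hP0 : Dom A U (insert z (insert l ((B \ (tr A z B ∪ tr A l B)) ∪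
      (tr A z B \ tr A l B)))) := by
    intro u hu
    by_cases huz : u = z
    · subst huz
      exact ⟨u, by simp, c.hr u⟩
    · have hM := swap_mis c.hr c.hs c.hW₁ c.hBW c.hBi c.hBd (c.W_sub hl) (c.clk hl hl1)
      obtain ⟨d, hd, hA⟩ := hM.2.1 u (Finset.mem_erase.mpr ⟨huz, hu⟩)
      refine ⟨d, ?_, hA⟩
      rw [Finset.mem_insert, Finset.mem_sdiff] at hd
      simp only [Finset.mem_insert, Finset.mem_union, Finset.mem_sdiff]
      rcases hd with rfl | hd
      · exact Or.inr (Or.inl rfl)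
      · by_cases hzd : d ∈ tr A z B
        · exact Or.inr (Or.inr (Or.inr ⟨hzd, hd.2⟩))
        · refine Or.inr (Or.inr (Or.inl ⟨hd.1, ?_⟩))
          rintro (h1 | h1)
          · exact hzd h1
          · exact hd.2 h1
  obtain ⟨X', hX', hPX', hmin⟩ := exists_min_sub
    (fun Y => Dom A U (insert z (insert l ((B \ (tr A z B ∪ tr A l B)) ∪ Y))))
    (tr A z B \ tr A l B) hP0
  have hX'mem : ∀ d ∈ X', d ∈ B ∧ A z d ∧ ¬ A l d := by
    intro d hd
    have := hX' hd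
    rw [Finset.mem_sdiff, mem_tr, mem_tr] at this
    exact ⟨this.1.1, this.1.2, fun hh => this.2 ⟨this.1.1, hh⟩⟩
  -- E is the common part
  set E : Finset V := (B \ (tr A z B ∪ tr A l B)) ∪ X' with hE
  have hEmem : ∀ d ∈ E, d ∈ B ∧ ¬ A l d := by
    intro d hd
    rw [hE, Finset.mem_union] at hd
    rcases hd with hd | hd
    · have := (hmembase d).mp hd
      exact ⟨this.1, this.2.2⟩
    · have := hX'mem d hd
      exact ⟨this.1, this.2.2⟩
  have hEB : E ⊆ B := fun d hd => (hEmem d hd).1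
  have hlB : l ∉ B := fun hh => hl1 (c.hBW hh)
  have hlz : l ≠ z := by
    rintro rfl
    exact c.hzW hl
  have hlE : l ∉ E := fun hh => hlB (hEB hh)
  have hzE : z ∉ insert l E := by
    rw [Finset.mem_insert, not_or]
    exact ⟨hlz.symm, fun hh => c.zB (hEB hh)⟩
  have hDU : insert z (insert l E) ⊆ U :=
    Finset.insert_subset c.hz (Finset.insert_subset (c.hW.sub hl) (hEB.trans c.BU))
  -- each element of X' has a private lost representative
  have hX'priv : ∀ d ∈ X', ∃ r ∈ W, r ∉ W₁ ∧ A r d ∧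
      ∀ d' ∈ insert z (insert l E), A r d' → d' = d := by
    intro d hd
    have h1 := hmin d hd
    unfold Dom at h1
    push Not at h1
    obtain ⟨u, hu, h2⟩ := h1
    obtain ⟨r, hr, hsub⟩ := c.hW.ex u hu
    obtain ⟨d₁, hd₁, hA₁⟩ := hPX' r (c.hW.sub hr)
    have hall : ∀ d' ∈ insert z (insert l E), A r d' → d' = d := by
      intro d' hd' hA'
      by_contra hne
      refine h2 d' ?_ (hsub d' (hDU hd') hA')
      rw [hE] at hd'
      simp only [Finset.mem_insert, Finset.mem_union, Finset.mem_erase] at hd' ⊢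
      rcases hd' with h3 | h3 | h3 | h3
      · exact Or.inl h3
      · exact Or.inr (Or.inl h3)
      · exact Or.inr (Or.inr (Or.inl h3))
      · exact Or.inr (Or.inr (Or.inr ⟨hne, h3⟩))
    have hd₁d : d₁ = d := hall d₁ hd₁ hA₁
    rw [hd₁d] at hA₁
    refine ⟨r, hr, ?_, hA₁, hall⟩
    intro hrW₁
    have hdm := hX'mem d hd
    have hzr : A z r := c.clz d (c.hBW hdm.1) r hrW₁ hdm.2.1 (c.hs _ _ hA₁)
    have := hall z (Finset.mem_insert_self _ _) (c.hs _ _ hzr)
    rw [← this] at hdm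
    exact c.zB hdm.1
  have hD : Mds A U (insert z (insert l E)) := by
    refine mds_of_priv hDU hPX' ?_
    intro d hd
    rw [Finset.mem_insert, Finset.mem_insert] at hd
    rcases hd with rfl | rfl | hd
    · refine ⟨q, c.hW.sub (c.hW₁W hq), ?_⟩
      intro d' hd' hA'
      rw [Finset.mem_insert, Finset.mem_insert] at hd'
      rcases hd' with rfl | rfl | hd'
      · rfl
      · exact absurd (c.hs _ _ hA') (hkq _ hl hl1)
      · rw [hE, Finset.mem_union] at hd'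
        rcases hd' with hd' | hd'
        · have h3 := (hmembase d').mp hd'
          exact absurd (c.clz q hq d' (c.hBW h3.1) hzq hA') h3.2.1
        · obtain ⟨r, hr, hr1, hA1, _⟩ := hX'priv d' hd'
          exact absurd (c.clk hr hr1 d' (c.hBW (hX'mem d' hd').1) q hq hA1 (c.hs _ _ hA'))
            (hkq r hr hr1)
    · refine ⟨d, c.hW.sub hl, ?_⟩
      intro d' hd' hA'
      rw [Finset.mem_insert, Finset.mem_insert] at hd'
      rcases hd' with rfl | rfl | hd'
      · exact absurd (c.hs _ _ hA') (c.nz hl hl1)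
      · rfl
      · exact absurd hA' (hEmem d' hd').2
    · rw [hE, Finset.mem_union] at hd
      rcases hd with hd | hd
      · have h3 := (hmembase d).mp hd
        refine ⟨d, c.BU h3.1, ?_⟩
        intro d' hd' hA'
        rw [Finset.mem_insert, Finset.mem_insert] at hd'
        rcases hd' with rfl | rfl | hd'
        · exact absurd (c.hs _ _ hA') h3.2.1
        · exact absurd (c.hs _ _ hA') h3.2.2
        · exact (c.hBi d h3.1 d' (hEB hd') hA').symm
      · obtain ⟨r, hr, hr1, hA1, hall⟩ := hX'priv d hd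
        exact ⟨r, c.hW.sub hr, hall⟩
  have hDt := (c.h _ hDU).mp hD
  rw [wt_insert hzE, wt_insert hlE, c.f4 hl hl1] at hDt
  -- exchange l for its trace
  have hdisj : Disjoint E (tr A l B) := by
    rw [Finset.disjoint_left]
    intro d hd hd'
    exact (hEmem d hd).2 (mem_tr.mp hd').2
  have hD2U : insert z (E ∪ tr A l B) ⊆ U :=
    Finset.insert_subset c.hz ((Finset.union_subset hEB tr_sub).trans c.BU)
  have hzE2 : z ∉ E ∪ tr A l B := fun hh => c.zB ((Finset.union_subset hEB tr_sub) hh)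
  have hD2t : wt w (insert z (E ∪ tr A l B)) = t := by
    rw [wt_insert hzE2, wt_union hdisj]
    omega
  have hD2 := (c.h _ hD2U).mpr hD2t
  have hbD2 : b ∈ insert z (E ∪ tr A l B) := by
    rw [Finset.mem_insert, Finset.mem_union, mem_tr]
    exact Or.inr (Or.inr ⟨hb, hlb⟩)
  obtain ⟨u, hu, hub, hup⟩ := hD2.priv hbD2
  obtain ⟨r, hr, hsub⟩ := c.hW.ex u hu
  have hall : ∀ d' ∈ insert z (E ∪ tr A l B), A r d' → d' = b :=
    fun d' hd' hA' => hup d' hd' (hsub d' (hD2U hd') hA')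
  have hrb : A r b := by
    obtain ⟨d₁, hd₁, hA₁⟩ := hD2.2.1 r (c.hW.sub hr)
    have := hall d₁ hd₁ hA₁
    rwa [← this]
  have hbz : z ≠ b := fun e => c.zB (e ▸ hb)
  have hr1 : r ∉ W₁ := by
    intro hr1
    have := c.clz b (c.hBW hb) r hr1 hzb (c.hs _ _ hrb)
    exact hbz (hall z (Finset.mem_insert_self _ _) (c.hs _ _ this))
  rcases c.hS₁.s2 r (c.W_sub hr) hr1 l (c.W_sub hl) hl1 b (c.hBW hb) hrb hlb with h1 | h1
  · have hone : ∀ b' ∈ B, A r b' → b' = b := by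
      intro b' hb' hA'
      refine hall b' ?_ hA'
      rw [Finset.mem_insert, Finset.mem_union, mem_tr]
      exact Or.inr (Or.inr ⟨hb', h1 b' (c.hBW hb') hA'⟩)
    exact ⟨c.hBW hb, hzb, r, hr, hr1, hrb, c.f5 (c.clk hr hr1) hb hone⟩
  · have hone : ∀ b' ∈ B, A l b' → b' = b := by
      intro b' hb' hA'
      refine hall b' ?_ (h1 b' (c.hBW hb') hA')
      rw [Finset.mem_insert, Finset.mem_union, mem_tr]
      exact Or.inr (Or.inr ⟨hb', hA'⟩)
    exact ⟨c.hBW hb, hzb, l, hl, hl1, hlb, c.f5 (c.clk hl hl1) hb hone⟩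

theorem traceX (c : Ctx A w U W W₁ B z t) {l : V} (hl : l ∈ W) (hl1 : l ∉ W₁)
    {v : V} (hv : v ∈ W₁) (hlv : A l v) (hzv : A z v) : PX A W W₁ z v := by
  obtain ⟨b, hb, hA⟩ := c.hBd v hv
  have hlb := c.clk hl hl1 v hv b (c.hBW hb) hlv hA
  have hzb := c.clz v hv b (c.hBW hb) hzv hA
  have hPb := c.key hl hl1 hb hlb hzb
  obtain ⟨_, _, k, hk, hk1, hkb, hone⟩ := id hPb
  have := hone v hv (c.clk hk hk1 b (c.hBW hb) v hv hkb (c.hs _ _ hA))
  rwa [this]

/-- no representative is lost -/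
theorem no_lost (c : Ctx A w U W W₁ B z t) : W ⊆ W₁ := by
  classical
  by_contra hnot
  obtain ⟨k₀, hk₀, hk₀1⟩ := Finset.not_subset.mp hnot
  obtain ⟨q, hq, hzq, hkq⟩ := c.f2
  obtain ⟨s, hsW₁, hk₀s, hzs⟩ := c.f0' hk₀ hk₀1
  have hPs : PX A W W₁ z s := c.traceX hk₀ hk₀1 hsW₁ hk₀s hzs
  have hsB : s ∈ B := c.PX_B hPs
  set Xs : Finset V := B.filter (fun s => PX A W W₁ z s) with hXs
  have hmemXs : ∀ x, x ∈ Xs ↔ PX A W W₁ z x := by
    intro x
    rw [hXs, Finset.mem_filter]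
    exact ⟨fun hh => hh.2, fun hh => ⟨c.PX_B hh, hh⟩⟩
  have hXsB : Xs ⊆ B := Finset.filter_subset _ _
  have hXstr : Xs ⊆ tr A z B := by
    intro x hx
    rw [mem_tr]
    exact ⟨hXsB hx, ((hmemXs x).mp hx).2.1⟩
  have hmem1 : ∀ d, d ∈ B \ tr A z B ↔ d ∈ B ∧ ¬ A z d := by
    intro d
    rw [Finset.mem_sdiff, mem_tr]
    tauto
  -- D_z
  have hDzU : insert z ((B \ tr A z B) ∪ Xs) ⊆ U :=
    Finset.insert_subset c.hz
      ((Finset.union_subset Finset.sdiff_subset hXsB).trans c.BU)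
  have hDz : Mds A U (insert z ((B \ tr A z B) ∪ Xs)) := by
    refine mds_of_priv hDzU (dom_of_reps c.hs c.hW hDzU ?_) ?_
    · intro v hv
      by_cases hv1 : v ∈ W₁
      · obtain ⟨b, hb, hA⟩ := c.hBd v hv1
        by_cases hzb : A z b
        · exact ⟨z, by simp, c.hs _ _ (c.clz b (c.hBW hb) v hv1 hzb (c.hs _ _ hA))⟩
        · refine ⟨b, ?_, hA⟩
          rw [Finset.mem_insert, Finset.mem_union, hmem1]
          exact Or.inr (Or.inl ⟨hb, hzb⟩)
      · obtain ⟨k', hk', hvk', hzk'⟩ := c.f0' hv hv1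
        refine ⟨k', ?_, hvk'⟩
        rw [Finset.mem_insert, Finset.mem_union, hmemXs]
        exact Or.inr (Or.inr (c.traceX hv hv1 hk' hvk' hzk'))
    · intro d hd
      rw [Finset.mem_insert, Finset.mem_union, hmem1, hmemXs] at hd
      rcases hd with rfl | hd | hd
      · refine ⟨q, c.hW.sub (c.hW₁W hq), ?_⟩
        intro d' hd' hA'
        rw [Finset.mem_insert, Finset.mem_union, hmem1, hmemXs] at hd'
        rcases hd' with rfl | hd' | hd'
        · rfl
        · exact absurd (c.clz q hq d' (c.hBW hd'.1) hzq hA') hd'.2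
        · obtain ⟨hd'1, _, k, hk, hk1, hkd, _⟩ := hd'
          exact absurd (c.clk hk hk1 d' hd'1 q hq hkd (c.hs _ _ hA')) (hkq k hk hk1)
      · refine ⟨d, c.BU hd.1, ?_⟩
        intro d' hd' hA'
        rw [Finset.mem_insert, Finset.mem_union, hmem1, hmemXs] at hd'
        rcases hd' with rfl | hd' | hd'
        · exact absurd (c.hs _ _ hA') hd.2
        · exact (c.hBi d hd.1 d' hd'.1 hA').symm
        · exact (c.hBi d hd.1 d' (c.PX_B hd') hA').symm
      · obtain ⟨hd1, hzd, k, hk, hk1, hkd, hone⟩ := hd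
        refine ⟨k, c.hW.sub hk, ?_⟩
        intro d' hd' hA'
        rw [Finset.mem_insert, Finset.mem_union, hmem1, hmemXs] at hd'
        rcases hd' with rfl | hd' | hd'
        · exact absurd (c.hs _ _ hA') (c.nz hk hk1)
        · exact hone d' (c.hBW hd'.1) hA'
        · exact hone d' hd'.1 hA'
  -- the set K of lost representatives with trace {s}
  set K : Finset V := W.filter (fun k => k ∉ W₁ ∧ A k s ∧ ∀ v ∈ W₁, A k v → v = s) with hK
  have hmemK : ∀ k, k ∈ K ↔ k ∈ W ∧ k ∉ W₁ ∧ A k s ∧ ∀ v ∈ W₁, A k v → v = s := by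
    intro k
    rw [hK, Finset.mem_filter]
  obtain ⟨Y, hYall, hYP, hYmin⟩ := exists_min_sub
    (fun Y => ∀ k ∈ K, ∃ y ∈ Y, A k y) (U.filter (fun y => ¬ A s y)) (by
      intro k hk
      obtain ⟨hkW, hk1, _, _⟩ := (hmemK k).mp hk
      by_contra hcon
      push Not at hcon
      have hks : k ≠ s := by
        rintro rfl
        exact hk1 hsW₁
      refine hks (c.hW.inj k hkW s (c.hW₁W hsW₁) ?_)
      intro u hu hA
      by_contra h2
      exact hcon u (by rw [Finset.mem_filter]; exact ⟨hu, h2⟩) hA)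
  have hYU : Y ⊆ U := hYall.trans (Finset.filter_subset _ _)
  have hYs : ∀ y ∈ Y, ¬ A s y := fun y hy => (Finset.mem_filter.mp (hYall hy)).2
  have hYpriv : ∀ y ∈ Y, ∃ k ∈ K, A k y ∧ ∀ y' ∈ Y, A k y' → y' = y := by
    intro y hy
    have h1 := hYmin y hy
    push Not at h1
    obtain ⟨k, hk, h2⟩ := h1
    have h3 : ∀ y' ∈ Y, A k y' → y' = y := by
      intro y' hy' hA
      by_contra hne
      exact h2 y' (Finset.mem_erase.mpr ⟨hne, hy'⟩) hA
    obtain ⟨y', hy', hA⟩ := hYP k hk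
    have := h3 y' hy' hA
    rw [this] at hA
    exact ⟨k, hk, hA, h3⟩
  have hYW₁ : ∀ y ∈ Y, y ∉ W₁ := by
    intro y hy hy1
    obtain ⟨k, hk, hA, _⟩ := hYpriv y hy
    have := ((hmemK k).mp hk).2.2.2 y hy1 hA
    subst this
    exact hYs y hy (c.hr y)
  have hYz : z ∉ Y := by
    intro hy
    obtain ⟨k, hk, hA, _⟩ := hYpriv z hy
    exact c.nz ((hmemK k).mp hk).1 ((hmemK k).mp hk).2.1 (c.hs _ _ hA)
  have hXU : insert z (Y ∪ ((B \ tr A z B) ∪ Xs.erase s)) ⊆ U := by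
    refine Finset.insert_subset c.hz (Finset.union_subset hYU ?_)
    exact (Finset.union_subset Finset.sdiff_subset
      ((Finset.erase_subset _ _).trans hXsB)).trans c.BU
  have hXdom : Dom A U (insert z (Y ∪ ((B \ tr A z B) ∪ Xs.erase s))) := by
    refine dom_of_reps c.hs c.hW hXU ?_
    intro v hv
    by_cases hv1 : v ∈ W₁
    · obtain ⟨b, hb, hA⟩ := c.hBd v hv1
      by_cases hzb : A z b
      · exact ⟨z, by simp, c.hs _ _ (c.clz b (c.hBW hb) v hv1 hzb (c.hs _ _ hA))⟩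
      · refine ⟨b, ?_, hA⟩
        rw [Finset.mem_insert, Finset.mem_union, Finset.mem_union, hmem1]
        exact Or.inr (Or.inr (Or.inl ⟨hb, hzb⟩))
    · by_cases hvK : v ∈ K
      · obtain ⟨y, hy, hA⟩ := hYP v hvK
        refine ⟨y, ?_, hA⟩
        rw [Finset.mem_insert, Finset.mem_union]
        exact Or.inr (Or.inl hy)
      · obtain ⟨k', hk', hvk', hzk'⟩ := c.f0' hv hv1
        by_cases hk's : k' = s
        · subst hk's
          have hex : ∃ u ∈ W₁, A v u ∧ u ≠ k' := by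
            by_contra hcon
            push Not at hcon
            exact hvK ((hmemK v).mpr ⟨hv, hv1, hvk', hcon⟩)
          obtain ⟨u, hu, hvu, hus⟩ := hex
          obtain ⟨b, hb, hA⟩ := c.hBd u hu
          have hvb := c.clk hv hv1 u hu b (c.hBW hb) hvu hA
          by_cases hzb : A z b
          · have hPb := c.traceX hv hv1 (c.hBW hb) hvb hzb
            refine ⟨b, ?_, hvb⟩
            rw [Finset.mem_insert, Finset.mem_union, Finset.mem_union, Finset.mem_erase,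
              hmemXs]
            refine Or.inr (Or.inr (Or.inr ⟨?_, hPb⟩))
            rintro rfl
            obtain ⟨_, _, k₁, hk₁, hk₁1, hk₁b, hone⟩ := hPb
            exact hus (hone u hu (c.clk hk₁ hk₁1 b (c.hBW hb) u hu hk₁b (c.hs _ _ hA)))
          · refine ⟨b, ?_, hvb⟩
            rw [Finset.mem_insert, Finset.mem_union, Finset.mem_union, hmem1]
            exact Or.inr (Or.inr (Or.inl ⟨hb, hzb⟩))
        · refine ⟨k', ?_, hvk'⟩
          rw [Finset.mem_insert, Finset.mem_union, Finset.mem_union, Finset.mem_erase,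
            hmemXs]
          exact Or.inr (Or.inr (Or.inr ⟨hk's, c.traceX hv hv1 hk' hvk' hzk'⟩))
  obtain ⟨D, hDX, hD⟩ := exists_mds hXU hXdom
  have hmemD : ∀ d ∈ D, d = z ∨ d ∈ Y ∨ (d ∈ B ∧ ¬ A z d) ∨ (d ≠ s ∧ d ∈ Xs) := by
    intro d hd
    have := hDX hd
    rw [Finset.mem_insert, Finset.mem_union, Finset.mem_union, Finset.mem_erase,
      hmem1] at this
    exact this
  have hsU : s ∈ U := c.hW.sub (c.hW₁W hsW₁)
  have hzD : z ∈ D := by
    obtain ⟨d, hd, hA⟩ := hD.2.1 s hsU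
    rcases hmemD d hd with rfl | hd' | hd' | hd'
    · exact hd
    · exact absurd hA (hYs d hd')
    · have := c.hBi s hsB d hd'.1 hA
      subst this
      exact absurd hzs hd'.2
    · exact absurd (c.hBi s hsB d (hXsB hd'.2) hA).symm hd'.1
  have hYD : Y ⊆ D := by
    intro y hy
    obtain ⟨k, hk, hA, hpr⟩ := hYpriv y hy
    obtain ⟨hkW, hk1, hks, hone⟩ := (hmemK k).mp hk
    obtain ⟨d, hd, hA'⟩ := hD.2.1 k (c.hW.sub hkW)
    rcases hmemD d hd with rfl | hd' | hd' | hd'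
    · exact absurd (c.hs _ _ hA') (c.nz hkW hk1)
    · rwa [← hpr d hd' hA']
    · have := hone d (c.hBW hd'.1) hA'
      subst this
      exact absurd hzs hd'.2
    · exact absurd (hone d (c.hBW (hXsB hd'.2)) hA') hd'.1
  -- the rest of D
  set R : Finset V := D \ insert z Y with hR
  have hmemR : ∀ d ∈ R, (d ∈ B ∧ ¬ A z d) ∨ (d ≠ s ∧ d ∈ Xs) := by
    intro d hd
    rw [hR, Finset.mem_sdiff, Finset.mem_insert, not_or] at hd
    rcases hmemD d hd.1 with h1 | h1 | h1 | h1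
    · exact absurd h1 hd.2.1
    · exact absurd h1 hd.2.2
    · exact Or.inl h1
    · exact Or.inr h1
  have hRB : R ⊆ B := by
    intro d hd
    rcases hmemR d hd with h1 | h1
    · exact h1.1
    · exact hXsB h1.2
  have hDt := (c.h D (hDX.trans hXU)).mp hD
  have hDzt := (c.h _ hDzU).mp hDz
  have hBt : wt w B = t := (c.h₁ B (c.hBW.trans (c.hW₁.sub))).mp
    (mds_of_indep (c.hBW.trans c.hW₁.sub)
      (dom_of_reps c.hs c.hW₁ (c.hBW.trans c.hW₁.sub) c.hBd) c.hBi)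
  have e1 : wt w R + wt w (insert z Y) = wt w D :=
    wt_sdiff (Finset.insert_subset hzD hYD)
  rw [wt_insert hYz] at e1
  have hdis1 : Disjoint (B \ tr A z B) Xs := by
    rw [Finset.disjoint_left]
    intro d hd hd'
    exact ((hmem1 d).mp hd).2 (mem_tr.mp (hXstr hd')).2
  have hznot : z ∉ (B \ tr A z B) ∪ Xs :=
    fun hh => c.zB ((Finset.union_subset Finset.sdiff_subset hXsB) hh)
  rw [wt_insert hznot, wt_union hdis1] at hDzt
  have e2 : wt w (B \ tr A z B) + wt w (tr A z B) = wt w B := wt_sdiff tr_sub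
  have e3 : wt w (tr A z B \ Xs) + wt w Xs = wt w (tr A z B) := wt_sdiff hXstr
  have hdis2 : Disjoint R (tr A z B \ Xs) := by
    rw [Finset.disjoint_left]
    intro d hd hd'
    rw [Finset.mem_sdiff, mem_tr] at hd'
    rcases hmemR d hd with h1 | h1
    · exact h1.2 hd'.1.2
    · exact hd'.2 h1.2
  have hdis3 : Disjoint Y (R ∪ (tr A z B \ Xs)) := by
    rw [Finset.disjoint_left]
    intro d hd hd'
    refine hYW₁ d hd (c.hBW ?_)
    exact (Finset.union_subset hRB (Finset.sdiff_subset.trans tr_sub)) hd'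
  have hFU : Y ∪ (R ∪ (tr A z B \ Xs)) ⊆ U :=
    Finset.union_subset hYU
      ((Finset.union_subset hRB (Finset.sdiff_subset.trans tr_sub)).trans c.BU)
  have hFt : wt w (Y ∪ (R ∪ (tr A z B \ Xs))) = t := by
    rw [wt_union hdis3, wt_union hdis2]
    omega
  have hF := (c.h _ hFU).mpr hFt
  obtain ⟨d, hd, hA⟩ := hF.2.1 s hsU
  rw [Finset.mem_union, Finset.mem_union] at hd
  rcases hd with hd | hd | hd
  · exact hYs d hd hA
  · have := c.hBi s hsB d (hRB hd) hA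
    subst this
    rcases hmemR s hd with h1 | h1
    · exact h1.2 hzs
    · exact h1.1 rfl
  · rw [Finset.mem_sdiff, mem_tr] at hd
    have := c.hBi s hsB d hd.1.1 hA
    subst this
    exact hd.2 ((hmemXs s).mpr hPs)

end Ctx

/-- the inductive step when some vertex is not a representative -/
theorem caseZ (hr : ∀ v, A v v) (hs : ∀ u v, A u v → A v u) (hw : ∀ v, 0 < w v)
    {U W : Finset V} {t : ℕ} (h : EqStr A w U t) (hW : IsReps A U W) {z : V}
    (hz : z ∈ U) (hzW : z ∉ W)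
    (IH : ∀ W₁, IsReps A (U.erase z) W₁ → ∀ t', EqStr A w (U.erase z) t' →
      Struct A (U.erase z) W₁) : Struct A U W := by
  obtain ⟨v₀, hv₀, hsub₀⟩ := hW.ex z hz
  have h₁ : EqStr A w (U.erase z) t := by
    refine h.erase hs (hW.sub hv₀) ?_ hsub₀
    rintro rfl
    exact hzW hv₀
  obtain ⟨W₁, hW₁W, hW₁⟩ := reps_erase hr hW hzW
  have hS₁ := IH W₁ hW₁ t h₁
  obtain ⟨B, _, hBW, hBi, hBd⟩ := exists_mis hr hs (Finset.empty_subset W₁)
    (show Indep A (∅ : Finset V) by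
      intro a ha
      simp at ha)
  have c : Ctx A w U W W₁ B z t :=
    ⟨hr, hs, h, hW, hz, hzW, hW₁W, h₁, hW₁, hS₁, hBW, hBi, hBd⟩
  have hWeq : W = W₁ := Finset.Subset.antisymm c.no_lost hW₁W
  subst hWeq
  have hclz := c.clz
  refine ⟨?_, ?_, hS₁.s3⟩
  · intro x hx hxW
    by_cases hxz : x = z
    · subst hxz
      exact hclz
    · exact hS₁.s1 x (Finset.mem_erase.mpr ⟨hxz, hx⟩) hxW
  · intro x hx hxW y hy hyW a ha hxa hya
    by_cases hxz : x = z
    · by_cases hyz : y = z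
      · subst hxz
        subst hyz
        exact Or.inl (fun b _ hb => hb)
      · subst hxz
        exact (laminar_new hr hs hw h hW hy hyW hx hxW hyz
          (hS₁.s1 y (Finset.mem_erase.mpr ⟨hyz, hy⟩) hyW) hclz ha hya hxa).symm
    · by_cases hyz : y = z
      · subst hyz
        exact laminar_new hr hs hw h hW hx hxW hy hyW hxz
          (hS₁.s1 x (Finset.mem_erase.mpr ⟨hxz, hx⟩) hxW) hclz ha hxa hya
      · exact hS₁.s2 x (Finset.mem_erase.mpr ⟨hxz, hx⟩) hxW y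
          (Finset.mem_erase.mpr ⟨hyz, hy⟩) hyW a ha hxa hya

end Pool.Agent.H70.Equi
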