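import Pool.Agent.H70.Equi.CaseA2

/-!
The block structure yields an equidominating weight structure.
-/

namespace Pool.Agent.H70.Equi

open Finset

set_option linter.unusedSectionVars false
set_option linter.unusedVariables false

variable {V : Type*} [DecidableEq V] {A : V → V → Prop}

/-- separating coefficients -/
theorem exists_coeff (M : ℕ) (hM : 0 < M) (W : Finset V) : ∃ c : V → ℕ, (∀ v, 0 < c v) ∧
    ∀ f g : V → ℕ, (∀ a ∈ W, f a < M) → (∀ a ∈ W, g a < M) →
      ∑ a ∈ W, f a * c a = ∑ a ∈ W, g a * c a → ∀ a ∈ W, f a = g a := by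
  induction W using Finset.induction_on with
  | empty => exact ⟨fun _ => 1, fun _ => Nat.one_pos, fun f g _ _ _ a ha => by simp at ha⟩
  | insert b W hb ih =>
    obtain ⟨c, hc, hsep⟩ := ih
    refine ⟨fun v => if v = b then 1 else M * c v, ?_, ?_⟩
    · intro v
      dsimp only
      split
      · exact Nat.one_pos
      · exact Nat.mul_pos hM (hc v)
    · intro f g hf hg heq
      have hsum : ∀ f : V → ℕ, ∑ a ∈ insert b W, f a * (if a = b then 1 else M * c a) =
          f b + M * ∑ a ∈ W, f a * c a := by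
        intro f
        rw [Finset.sum_insert hb]
        congr 1
        · simp
        · rw [Finset.mul_sum]
          refine Finset.sum_congr rfl ?_
          intro a ha
          have : a ≠ b := by
            rintro rfl
            exact hb ha
          rw [if_neg this]
          ring
      rw [hsum, hsum] at heq
      have hfb := hf b (Finset.mem_insert_self b W)
      have hgb := hg b (Finset.mem_insert_self b W)
      have h1 : f b = g b := by
        have := congrArg (· % M) heq
        simp only [Nat.add_mul_mod_self_left] at this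
        rwa [Nat.mod_eq_of_lt hfb, Nat.mod_eq_of_lt hgb] at this
      have h2 : ∑ a ∈ W, f a * c a = ∑ a ∈ W, g a * c a := by
        rw [h1] at heq
        exact Nat.eq_of_mul_eq_mul_left hM (Nat.add_left_cancel heq)
      intro a ha
      rw [Finset.mem_insert] at ha
      rcases ha with rfl | ha
      · exact h1
      · exact hsep f g (fun a ha => hf a (Finset.mem_insert_of_mem ha))
          (fun a ha => hg a (Finset.mem_insert_of_mem ha)) h2 a ha

/-- same component of the graph on the representatives -/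
def Pc (A : V → V → Prop) (W : Finset V) (x a : V) : Prop :=
  A x a ∨ ∃ u ∈ W, A x u ∧ A u a

open Classical in
/-- coefficients of the weights -/
noncomputable def cf (A : V → V → Prop) (W : Finset V) (x a : V) : ℕ :=
  if x ∈ W then
    (if (∀ u ∈ W, A x u → u = x) then (if a = x then 2 else 0)
      else (if Pc A W x a then 1 else 0))
  else (if A x a then 2 else 0)

section

variable {U W : Finset V} (hr : ∀ v, A v v) (hs : ∀ u v, A u v → A v u)
  (hW : IsReps A U W) (hS : Struct A U W)

include hr hs hS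

theorem Pc_symm {x y : V} (h : Pc A W x y) : Pc A W y x := by
  rcases h with h | ⟨u, hu, h1, h2⟩
  · exact Or.inl (hs _ _ h)
  · exact Or.inr ⟨u, hu, hs _ _ h2, hs _ _ h1⟩

theorem Pc_adj {x v y : V} (hx : x ∈ W) (hv : v ∈ W) (hy : y ∈ W)
    (h : Pc A W x v) (hA : A v y) : Pc A W x y := by
  rcases h with h | ⟨u, hu, h1, h2⟩
  · exact Or.inr ⟨v, hv, h, hA⟩
  · by_cases hxv : A x v
    · exact Or.inr ⟨v, hv, hxv, hA⟩
    · have huv : u ≠ v := by
        rintro rfl
        exact hxv h1
      obtain ⟨v', hv', hv'v, hnv, htw, hF⟩ := hS.s3 u hu v hv huv h2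
      have hxv' : x = v' := hF x hx (hs _ _ h1) (fun hh => hxv (hs _ _ hh))
      subst hxv'
      by_cases hyv : y = v
      · subst hyv
        exact Or.inr ⟨u, hu, h1, h2⟩
      · by_cases hyx : y = x
        · subst hyx
          exact Or.inl (hr _)
        · exact Or.inl ((htw y hy hyv hyx).mp hA)

theorem Pc_trans {x v y : V} (hx : x ∈ W) (hv : v ∈ W) (hy : y ∈ W)
    (h : Pc A W x v) (h' : Pc A W v y) : Pc A W x y := by
  rcases h' with h' | ⟨u, hu, h1, h2⟩
  · exact Pc_adj hr hs hS hx hv hy h h'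
  · exact Pc_adj hr hs hS hx hu hy (Pc_adj hr hs hS hx hv hu h h1) h2

theorem cl_Pc {x a b : V} (hx : x ∈ U) (hxW : x ∉ W) (ha : a ∈ W) (hb : b ∈ W)
    (hxa : A x a) (h : Pc A W a b) : A x b := by
  rcases h with h | ⟨u, hu, h1, h2⟩
  · exact hS.s1 x hx hxW a ha b hb hxa h
  · exact hS.s1 x hx hxW u hu b hb (hS.s1 x hx hxW a ha u hu hxa h1) h2

theorem Pc_two {v x₁ x₂ : V} (hv : v ∈ W) (hx₁ : x₁ ∈ W) (hx₂ : x₂ ∈ W) (hne : x₁ ≠ x₂)
    (h1 : Pc A W v x₁) (h2 : Pc A W v x₂) : A v x₁ ∨ A v x₂ := by
  by_contra hcon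
  rw [not_or] at hcon
  obtain ⟨hn1, hn2⟩ := hcon
  rcases h1 with h1 | ⟨u₁, hu₁, h3, h4⟩
  · exact hn1 h1
  rcases h2 with h2 | ⟨u₂, hu₂, h5, h6⟩
  · exact hn2 h2
  have hu₁v : u₁ ≠ v := by
    rintro rfl
    exact hn1 h4
  have hu₂v : u₂ ≠ v := by
    rintro rfl
    exact hn2 h6
  obtain ⟨v', hv', hv'v, hnv, htw, hF⟩ := hS.s3 u₁ hu₁ v hv hu₁v (hs _ _ h3)
  obtain ⟨v'', hv'', hv''v, hnv', htw', hF'⟩ := hS.s3 u₂ hu₂ v hv hu₂v (hs _ _ h5)
  have e1 : x₁ = v' := hF x₁ hx₁ h4 hn1
  have e2 : x₂ = v'' := hF' x₂ hx₂ h6 hn2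
  have hu₂v' : u₂ ≠ v' := by
    rintro rfl
    exact hnv h5
  have h7 : A v' u₂ := (htw u₂ hu₂ hu₂v hu₂v').mp h5
  have e3 : v' = v'' := hF' v' hv' (hs _ _ h7) hnv
  exact hne (e1.trans (e3.trans e2.symm))

theorem Pc_twin {x u : V} (hx : x ∈ W) (hu : u ∈ W) (hA : A x u) (hne : u ≠ x) :
    ∃ x' ∈ W, ¬ A x x' ∧ Pc A W x x' ∧ x' ≠ x := by
  obtain ⟨x', hx', hx'x, hnx, htw, hF⟩ := hS.s3 u hu x hx hne (hs _ _ hA)
  have hux' : u ≠ x' := by
    rintro rfl
    exact hnx hA
  exact ⟨x', hx', hnx, Or.inr ⟨u, hu, hA, hs _ _ ((htw u hu hne hux').mp hA)⟩, hx'x⟩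

omit hr hs hS in
theorem cf_le (x a : V) : cf A W x a ≤ 2 := by
  unfold cf
  split_ifs <;> omega

omit hs hS in
theorem cf_pos {x a : V} (ha : a ∈ W) (h : A x a) : 1 ≤ cf A W x a := by
  unfold cf
  split_ifs with h1 h2 h3 h4 <;> try omega
  · exact absurd (h2 a ha h) h3
  · exact absurd (Or.inl h) h4

omit hs hS in
theorem cf_two {x a : V} (h : cf A W x a = 2) :
    A x a ∧ (x ∈ W → a = x ∧ ∀ u ∈ W, A x u → u = x) := by
  unfold cf at h
  by_cases h1 : x ∈ W
  · rw [if_pos h1] at h
    by_cases h2 : ∀ u ∈ W, A x u → u = x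
    · rw [if_pos h2] at h
      by_cases h3 : a = x
      · subst h3
        exact ⟨hr _, fun _ => ⟨rfl, h2⟩⟩
      · rw [if_neg h3] at h
        omega
    · rw [if_neg h2] at h
      split_ifs at h
      omega
  · rw [if_neg h1] at h
    by_cases h5 : A x a
    · exact ⟨h5, fun hh => absurd hh h1⟩
    · rw [if_neg h5] at h
      omega

omit hr hs hS in
theorem cf_one {x a : V} (h : cf A W x a = 1) :
    x ∈ W ∧ (∃ u ∈ W, A x u ∧ u ≠ x) ∧ Pc A W x a := by
  unfold cf at h
  by_cases h1 : x ∈ W
  · rw [if_pos h1] at h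
    by_cases h2 : ∀ u ∈ W, A x u → u = x
    · rw [if_pos h2] at h
      split_ifs at h
      omega
    · rw [if_neg h2] at h
      by_cases h4 : Pc A W x a
      · push Not at h2
        exact ⟨h1, h2, h4⟩
      · rw [if_neg h4] at h
        omega
  · rw [if_neg h1] at h
    split_ifs at h
    omega

omit hr hs hS in
theorem cf_eq_one {x a u : V} (hx : x ∈ W) (hu : u ∈ W) (hA : A x u) (hne : u ≠ x)
    (h : Pc A W x a) : cf A W x a = 1 := by
  unfold cf
  rw [if_pos hx, if_neg (fun hh => hne (hh u hu hA)), if_pos h]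

/-- coverage two everywhere implies minimal domination -/
theorem mds_of_cov (hW : IsReps A U W) {D : Finset V} (hD : D ⊆ U)
    (hcov : ∀ a ∈ W, ∑ x ∈ D, cf A W x a = 2) : Mds A U D := by
  refine mds_of_priv hD (dom_of_reps hs hW hD ?_) ?_
  · intro a ha
    by_cases h2 : ∃ x ∈ D, cf A W x a = 2
    · obtain ⟨x, hx, h3⟩ := h2
      exact ⟨x, hx, hs _ _ (cf_two hr h3).1⟩
    · push Not at h2
      have hle : ∀ x ∈ D, cf A W x a ≤ 1 := by
        intro x hx
        have := cf_le (A := A) (W := W) x a
        have := h2 x hx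
        omega
      have hsum := hcov a ha
      obtain ⟨x, hx, hx0⟩ := Finset.exists_ne_zero_of_sum_ne_zero
        (s := D) (f := fun x => cf A W x a) (by omega)
      have hx1 : cf A W x a = 1 := by
        have := hle x hx
        try simp only at hx0
        omega
      have hsum2 : ∑ y ∈ D.erase x, cf A W y a = 1 := by
        have := Finset.add_sum_erase D (fun x => cf A W x a) hx
        try simp only at this
        omega
      obtain ⟨y, hy, hy0⟩ := Finset.exists_ne_zero_of_sum_ne_zero
        (s := D.erase x) (f := fun x => cf A W x a) (by omega)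
      rw [Finset.mem_erase] at hy
      have hy1 : cf A W y a = 1 := by
        have := hle y hy.2
        try simp only at hy0
        omega
      obtain ⟨hxW, _, hxP⟩ := cf_one hx1
      obtain ⟨hyW, _, hyP⟩ := cf_one hy1
      rcases Pc_two hr hs hS ha hxW hyW (Ne.symm hy.1) (Pc_symm hr hs hS hxP)
        (Pc_symm hr hs hS hyP) with h3 | h3
      · exact ⟨x, hx, h3⟩
      · exact ⟨y, hy.2, h3⟩
  · intro d hd
    obtain ⟨a, ha, hsub⟩ := hW.ex d (hD hd)
    have hda : A d a := hsub a (hW.sub ha) (hr a)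
    have hpos := cf_pos (W := W) hr ha hda
    have hle := cf_le (A := A) (W := W) d a
    have hsum := hcov a ha
    have hadd := Finset.add_sum_erase D (fun x => cf A W x a) hd
    try simp only at hadd
    rcases Nat.lt_or_ge (cf A W d a) 2 with hlt | hge
    · have h1 : cf A W d a = 1 := by omega
      obtain ⟨hdW, ⟨u₀, hu₀, hdu₀, hu₀d⟩, hdP⟩ := cf_one h1
      obtain ⟨x, hx, hx0⟩ := Finset.exists_ne_zero_of_sum_ne_zero
        (s := D.erase d) (f := fun x => cf A W x a) (by omega)
      have hxle := Finset.single_le_sum (s := D.erase d) (f := fun x => cf A W x a)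
        (fun _ _ => Nat.zero_le _) hx
      try simp only at hxle hx0
      have hx1 : cf A W x a = 1 := by omega
      rw [Finset.mem_erase] at hx
      obtain ⟨hxW, ⟨u, hu, hxu, hux⟩, hxP⟩ := cf_one hx1
      obtain ⟨x', hx', hnx, hPx, hx'x⟩ := Pc_twin hr hs hS hxW hu hxu hux
      have hPd : Pc A W d x' := Pc_trans hr hs hS hdW hxW hx'
        (Pc_trans hr hs hS hdW ha hxW hdP (Pc_symm hr hs hS hxP)) hPx
      have e1 := cf_eq_one hdW hu₀ hdu₀ hu₀d hPd
      have e2 := cf_eq_one hxW hu hxu hux hPx
      have hsum' := hcov x' hx'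
      refine ⟨x', hW.sub hx', ?_⟩
      intro y hy hA
      by_contra hyd
      have hyx : y ≠ x := by
        rintro rfl
        exact hnx (hs _ _ hA)
      have e3 := cf_pos (W := W) hr hx' (hs _ _ hA)
      have e4 := Finset.add_sum_erase D (fun x => cf A W x x') hd
      have e5 := Finset.add_sum_erase (D.erase d) (fun x => cf A W x x')
        (Finset.mem_erase.mpr hx)
      have e6 := Finset.single_le_sum (s := (D.erase d).erase x) (f := fun x => cf A W x x')
        (fun _ _ => Nat.zero_le _)
        (Finset.mem_erase.mpr ⟨hyx, Finset.mem_erase.mpr ⟨hyd, hy⟩⟩)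
      try simp only at e4 e5 e6
      omega
    · refine ⟨a, hW.sub ha, ?_⟩
      intro y hy hA
      by_contra hyd
      have e3 := cf_pos (W := W) hr ha (hs _ _ hA)
      have e6 := Finset.single_le_sum (s := D.erase d) (f := fun x => cf A W x a)
        (fun _ _ => Nat.zero_le _) (Finset.mem_erase.mpr ⟨hyd, hy⟩)
      try simp only at e6
      omega

omit hr hS in
theorem no_nested (hW : IsReps A U W) {D : Finset V} (h : Mds A U D) {x y : V} (hx : x ∈ D)
    (hy : y ∈ D) (hne : x ≠ y) (hsub : ∀ b ∈ W, A y b → A x b) : False := by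
  refine h.2.2 y hy (dom_of_reps hs hW ((Finset.erase_subset _ _).trans h.1) ?_)
  intro v hv
  obtain ⟨d, hd, hA⟩ := h.2.1 v (hW.sub hv)
  by_cases hdy : d = y
  · subst hdy
    exact ⟨x, Finset.mem_erase.mpr ⟨hne, hx⟩, hs _ _ (hsub v hv (hs _ _ hA))⟩
  · exact ⟨d, Finset.mem_erase.mpr ⟨hdy, hd⟩, hA⟩

theorem cov_of_mds (hW : IsReps A U W) {D : Finset V} (h : Mds A U D) :
    ∀ a ∈ W, ∑ x ∈ D, cf A W x a = 2 := by
  intro a ha
  refine le_antisymm ?_ ?_
  · by_contra hgt
    rw [not_le] at hgt
    by_cases hcase : ∃ x ∈ D, cf A W x a = 2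
    · obtain ⟨x, hx, hx2⟩ := hcase
      have hadd := Finset.add_sum_erase D (fun x => cf A W x a) hx
      try simp only at hadd
      obtain ⟨y, hy, hy0⟩ := Finset.exists_ne_zero_of_sum_ne_zero
        (s := D.erase x) (f := fun x => cf A W x a) (by omega)
      rw [Finset.mem_erase] at hy
      obtain ⟨hxa, hxW⟩ := cf_two hr hx2
      have hyle := cf_le (A := A) (W := W) y a
      try simp only at hy0
      by_cases hxW' : x ∈ W
      · obtain ⟨hax, hiso⟩ := hxW hxW'
        by_cases hy2 : cf A W y a = 2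
        · obtain ⟨hya, hyW⟩ := cf_two hr hy2
          by_cases hyW' : y ∈ W
          · exact hy.1 ((hyW hyW').1.symm.trans hax)
          · refine no_nested hs hW h hy.2 hx hy.1 ?_
            intro b hb hxb
            rw [hiso b hb hxb, ← hax]
            exact hya
        · have hy1 : cf A W y a = 1 := by omega
          obtain ⟨hyW', _, hyP⟩ := cf_one hy1
          rcases hyP with h1 | ⟨u, hu, h1, h2⟩
          · rw [hax] at h1
            exact hy.1 (hiso y hyW' (hs _ _ h1))
          · rw [hax] at h2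
            have := hiso u hu (hs _ _ h2)
            subst this
            exact hy.1 (hiso y hyW' (hs _ _ h1))
      · by_cases hyW' : y ∈ W
        · refine no_nested hs hW h hx hy.2 (Ne.symm hy.1) ?_
          intro b hb hyb
          by_cases hy2 : cf A W y a = 2
          · obtain ⟨hya, hyW⟩ := cf_two hr hy2
            obtain ⟨hay, hiso⟩ := hyW hyW'
            rw [hiso b hb hyb, ← hay]
            exact hxa
          · have hy1 : cf A W y a = 1 := by omega
            obtain ⟨_, _, hyP⟩ := cf_one hy1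
            exact cl_Pc hr hs hS (h.1 hx) hxW' ha hb hxa
              (Pc_adj hr hs hS ha hyW' hb (Pc_symm hr hs hS hyP) hyb)
        · have hya : A y a := by
            by_contra hn
            refine hy0 ?_
            unfold cf
            rw [if_neg hyW', if_neg hn]
          rcases hS.s2 x (h.1 hx) hxW' y (h.1 hy.2) hyW' a ha hxa hya with h1 | h1
          · exact no_nested hs hW h hy.2 hx hy.1 h1
          · exact no_nested hs hW h hx hy.2 (Ne.symm hy.1) h1
    · push Not at hcase
      have hle : ∀ x ∈ D, cf A W x a ≤ 1 := by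
        intro x hx
        have := cf_le (A := A) (W := W) x a
        have := hcase x hx
        omega
      obtain ⟨x, hx, hx0⟩ := Finset.exists_ne_zero_of_sum_ne_zero
        (s := D) (f := fun x => cf A W x a) (by omega)
      have hx1 : cf A W x a = 1 := by
        have := hle x hx
        try simp only at hx0
        omega
      have e1 := Finset.add_sum_erase D (fun x => cf A W x a) hx
      try simp only at e1
      obtain ⟨y, hy, hy0⟩ := Finset.exists_ne_zero_of_sum_ne_zero
        (s := D.erase x) (f := fun x => cf A W x a) (by omega)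
      have e2 := Finset.add_sum_erase (D.erase x) (fun x => cf A W x a) hy
      try simp only at e2
      rw [Finset.mem_erase] at hy
      have hy1 : cf A W y a = 1 := by
        have := hle y hy.2
        try simp only at hy0
        omega
      obtain ⟨z, hz, hz0⟩ := Finset.exists_ne_zero_of_sum_ne_zero
        (s := (D.erase x).erase y) (f := fun x => cf A W x a) (by omega)
      rw [Finset.mem_erase, Finset.mem_erase] at hz
      have hz1 : cf A W z a = 1 := by
        have := hle z hz.2.2
        try simp only at hz0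
        omega
      obtain ⟨hxW, _, hxP⟩ := cf_one hx1
      obtain ⟨hyW, _, hyP⟩ := cf_one hy1
      obtain ⟨hzW, _, hzP⟩ := cf_one hz1
      refine h.2.2 z hz.2.2 (dom_of_reps hs hW ((Finset.erase_subset _ _).trans h.1) ?_)
      intro v hv
      obtain ⟨d, hd, hA⟩ := h.2.1 v (hW.sub hv)
      by_cases hdz : d = z
      · subst hdz
        have hva : Pc A W v a := Pc_trans hr hs hS hv hzW ha (Or.inl hA) hzP
        rcases Pc_two hr hs hS hv hxW hyW (Ne.symm hy.1)
          (Pc_trans hr hs hS hv ha hxW hva (Pc_symm hr hs hS hxP))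
          (Pc_trans hr hs hS hv ha hyW hva (Pc_symm hr hs hS hyP)) with h3 | h3
        · exact ⟨x, Finset.mem_erase.mpr ⟨Ne.symm hz.2.1, hx⟩, h3⟩
        · exact ⟨y, Finset.mem_erase.mpr ⟨Ne.symm hz.1, hy.2⟩, h3⟩
      · exact ⟨d, Finset.mem_erase.mpr ⟨hdz, hd⟩, hA⟩
  · obtain ⟨x, hx, hA⟩ := h.2.1 a (hW.sub ha)
    have hpos := cf_pos (W := W) hr ha (hs _ _ hA)
    have hadd := Finset.add_sum_erase D (fun x => cf A W x a) hx
    try simp only at hadd
    rcases Nat.lt_or_ge (cf A W x a) 2 with hlt | hge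
    · have hx1 : cf A W x a = 1 := by omega
      obtain ⟨hxW, ⟨u, hu, hxu, hux⟩, hxP⟩ := cf_one hx1
      obtain ⟨x', hx', hnx, hPx, hx'x⟩ := Pc_twin hr hs hS hxW hu hxu hux
      obtain ⟨y, hy, hAy⟩ := h.2.1 x' (hW.sub hx')
      have hyx : y ≠ x := by
        rintro rfl
        exact hnx (hs _ _ hAy)
      have hPx'a : Pc A W x' a := Pc_trans hr hs hS hx' hxW ha (Pc_symm hr hs hS hPx) hxP
      have hypos : 1 ≤ cf A W y a := by
        by_cases hyW : y ∈ W
        · have hPya : Pc A W y a := Pc_trans hr hs hS hyW hx' ha (Or.inl (hs _ _ hAy)) hPx'a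
          by_cases hyx' : x' = y
          · subst hyx'
            rcases hPx with h1 | ⟨v, hv, h1, h2⟩
            · exact absurd h1 hnx
            · have hvx' : v ≠ x' := by
                rintro rfl
                exact hnx h1
              exact le_of_eq (cf_eq_one hyW hv (hs _ _ h2) hvx' hPya).symm
          · exact le_of_eq (cf_eq_one hyW hx' (hs _ _ hAy) hyx' hPya).symm
        · have hya : A y a := cl_Pc hr hs hS (h.1 hy) hyW hx' ha (hs _ _ hAy) hPx'a
          exact cf_pos hr ha hya
      have e6 := Finset.single_le_sum (s := D.erase x) (f := fun x => cf A W x a)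
        (fun _ _ => Nat.zero_le _) (Finset.mem_erase.mpr ⟨hyx, hy⟩)
      try simp only at e6
      omega
    · omega

/-- the block structure gives an equidominating structure -/
theorem eqStr_of_struct (hW : IsReps A U W) :
    ∃ (w : V → ℕ) (t : ℕ), (∀ v ∈ U, 0 < w v) ∧ (U.Nonempty → 0 < t) ∧ EqStr A w U t := by
  obtain ⟨c, hc, hsep⟩ := exists_coeff (2 * U.card + 3) (by omega) W
  refine ⟨fun x => ∑ a ∈ W, cf A W x a * c a, ∑ a ∈ W, 2 * c a, ?_, ?_, ?_⟩
  · intro x hx
    obtain ⟨a, ha, hsub⟩ := hW.ex x hx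
    have hxa : A x a := hsub a (hW.sub ha) (hr a)
    have h1 := cf_pos (W := W) hr ha hxa
    have h2 := Finset.single_le_sum (s := W) (f := fun a => cf A W x a * c a)
      (fun _ _ => Nat.zero_le _) ha
    try simp only at h2
    have h3 : 0 < cf A W x a * c a := Nat.mul_pos (by omega) (hc a)
    dsimp only
    omega
  · rintro ⟨x, hx⟩
    obtain ⟨a, ha, hsub⟩ := hW.ex x hx
    have h2 := Finset.single_le_sum (s := W) (f := fun a => 2 * c a)
      (fun _ _ => Nat.zero_le _) ha
    try simp only at h2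
    have := hc a
    omega
  · intro D hD
    have hswap : wt (fun x => ∑ a ∈ W, cf A W x a * c a) D =
        ∑ a ∈ W, (∑ x ∈ D, cf A W x a) * c a := by
      unfold wt
      rw [Finset.sum_comm]
      refine Finset.sum_congr rfl ?_
      intro a _
      rw [Finset.sum_mul]
    rw [hswap]
    constructor
    · intro h
      refine Finset.sum_congr rfl ?_
      intro a ha
      rw [cov_of_mds hr hs hS hW h a ha]
    · intro heq
      refine mds_of_cov hr hs hS hW hD ?_
      have hbound : ∀ a ∈ W, ∑ x ∈ D, cf A W x a < 2 * U.card + 3 := by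
        intro a _
        have h1 : ∑ x ∈ D, cf A W x a ≤ ∑ x ∈ D, 2 :=
          Finset.sum_le_sum (fun x _ => cf_le x a)
        rw [Finset.sum_const, smul_eq_mul] at h1
        have h2 := Finset.card_le_card hD
        omega
      exact hsep (fun a => ∑ x ∈ D, cf A W x a) (fun _ => 2) hbound (fun _ _ => by omega) heq

end

end Pool.Agent.H70.Equi
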