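import Mathlib

/-!
Equidominating graphs: the definitions used in the statements.
-/

namespace Pool.Agent.H70.Equi

variable {V : Type*}

/-- every vertex is in `S` or has a neighbour in `S` -/
def Dominating (G : SimpleGraph V) (S : Finset V) : Prop :=
  ∀ v, v ∈ S ∨ ∃ u ∈ S, G.Adj v u

/-- minimal dominating set -/
def MinDominating (G : SimpleGraph V) (S : Finset V) : Prop :=
  Dominating G S ∧ ∀ T, T ⊂ S → ¬ Dominating G T

/-- equidominating graph: some positive weights and a positive target such that the minimal
dominating sets are exactly the vertex sets whose weight is the target -/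
def Equidominating (G : SimpleGraph V) : Prop :=
  ∃ (ω : V → ℕ) (t : ℕ), (∀ v, 0 < ω v) ∧ 0 < t ∧
    ∀ D : Finset V, MinDominating G D ↔ ∑ v ∈ D, ω v = t

end Pool.Agent.H70.Equi
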