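import Pool.Agent.H70.Equi.Converse
import Pool.Agent.H70.Equi.Defs

/-!
Equidominating graphs: definitions for simple graphs and the elementary criterion.
-/

namespace Pool.Agent.H70.Equi

open Finset

set_option linter.unusedSectionVars false
set_option linter.unusedVariables false

variable {V : Type*}

/-- closed neighbourhood -/
def N (G : SimpleGraph V) (v : V) : Set V := {u | u = v ∨ G.Adj v u}

/-- the closed neighbourhood of `v` is minimal for inclusion -/
def Basic (G : SimpleGraph V) (v : V) : Prop := ∀ u, N G u ⊆ N G v → N G v ⊆ N G u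

/-- basic vertices in the closed neighbourhood -/
def T (G : SimpleGraph V) (v : V) : Set V := {u | u ∈ N G v ∧ Basic G u}

/-- the criterion -/
def Crit (G : SimpleGraph V) : Prop :=
  ∀ x y : V, T G x ⊆ T G y ∨ T G y ⊆ T G x ∨ Disjoint (T G x) (T G y) ∨
    ∃ x' y' : V, x' ≠ x ∧ y' ≠ y ∧ G.neighborSet x' = G.neighborSet x ∧
      G.neighborSet y' = G.neighborSet y ∧ insert x' (N G x) = insert y' (N G y)

/-- closed adjacency -/
def cadj (G : SimpleGraph V) (u v : V) : Prop := u = v ∨ G.Adj u v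

theorem cadj_refl (G : SimpleGraph V) : ∀ v, cadj G v v := fun _ => Or.inl rfl

theorem cadj_symm (G : SimpleGraph V) : ∀ u v, cadj G u v → cadj G v u := by
  rintro u v (h | h)
  · exact Or.inl h.symm
  · exact Or.inr h.symm

theorem mem_N {G : SimpleGraph V} {u v : V} : u ∈ N G v ↔ cadj G v u := by
  unfold N cadj
  rw [Set.mem_ofPred_eq, eq_comm]

section

variable [Fintype V] [DecidableEq V] {G : SimpleGraph V}

theorem dom_iff {S : Finset V} : Dom (cadj G) univ S ↔ Dominating G S := by
  unfold Dom Dominating cadj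
  constructor
  · intro h v
    obtain ⟨d, hd, h1⟩ := h v (Finset.mem_univ v)
    rcases h1 with rfl | h1
    · exact Or.inl hd
    · exact Or.inr ⟨d, hd, h1⟩
  · intro h v _
    rcases h v with h1 | ⟨u, hu, h1⟩
    · exact ⟨v, h1, Or.inl rfl⟩
    · exact ⟨u, hu, Or.inr h1⟩

theorem mds_iff {S : Finset V} : Mds (cadj G) univ S ↔ MinDominating G S := by
  constructor
  · intro h
    refine ⟨dom_iff.mp h.2.1, ?_⟩
    intro T hT hd
    exact hT.ne (h.eq_of_dom hT.subset (dom_iff.mpr hd))
  · intro h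
    refine ⟨Finset.subset_univ _, dom_iff.mpr h.1, ?_⟩
    intro d hd hcon
    exact h.2 _ (Finset.erase_ssubset hd) (dom_iff.mp hcon)

/-- `W` is a system of representatives -/
theorem basic_of_mem {W : Finset V} (hW : IsReps (cadj G) univ W) {v : V} (hv : v ∈ W) :
    Basic G v := by
  intro u hu
  obtain ⟨r, hr, hsub⟩ := hW.ex u (Finset.mem_univ u)
  have hrv : r = v := by
    refine hW.inj r hr v hv ?_
    intro a _ ha
    exact mem_N.mp (hu (mem_N.mpr (hsub a (Finset.mem_univ a) ha)))
  subst hrv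
  intro a ha
  exact mem_N.mpr (hsub a (Finset.mem_univ a) (mem_N.mp ha))

theorem twin_mem {W : Finset V} (hW : IsReps (cadj G) univ W) {x x' : V} (hne : x' ≠ x)
    (hN : G.neighborSet x' = G.neighborSet x) : x ∈ W := by
  obtain ⟨r, hr, hsub⟩ := hW.ex x (Finset.mem_univ x)
  have hadj : ∀ u, G.Adj x' u ↔ G.Adj x u := by
    intro u
    have := congrArg (fun s => u ∈ s) hN
    simpa using this
  rcases hsub r (Finset.mem_univ r) (cadj_refl G r) with h | h
  · rwa [h]
  · exfalso
    have h1 : G.Adj x' r := (hadj r).mpr h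
    rcases hsub x' (Finset.mem_univ _) (Or.inr h1.symm) with h2 | h2
    · exact hne h2.symm
    · exact G.loopless.irrefl x' ((hadj x').mpr h2)

theorem crossing {W : Finset V} (hC : Crit G) (hW : IsReps (cadj G) univ W) {a b : V}
    (ha : a ∈ W) (hb : b ∈ W) (hab : a ≠ b) (hA : cadj G a b) :
    ∃ x' y' : V, x' ≠ a ∧ y' ≠ b ∧ G.neighborSet x' = G.neighborSet a ∧
      G.neighborSet y' = G.neighborSet b ∧ insert x' (N G a) = insert y' (N G b) := by
  have key : ∀ a ∈ W, ∀ b ∈ W, a ≠ b → cadj G a b → ¬ T G a ⊆ T G b := by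
    intro a ha b hb hab hA hsub
    have hex : ∃ v, cadj G a v ∧ ¬ cadj G b v := by
      by_contra hcon
      push Not at hcon
      exact hab (hW.inj a ha b hb (fun u _ hu => hcon u hu))
    obtain ⟨v, hav, hbv⟩ := hex
    rcases hC v b with h | h | h | ⟨v', b', hv', hb', hNv, hNb, hins⟩
    · obtain ⟨r, hr, hrsub⟩ := hW.ex v (Finset.mem_univ v)
      have h1 : r ∈ T G v := ⟨mem_N.mpr (hrsub r (Finset.mem_univ r) (cadj_refl G r)),
        basic_of_mem hW hr⟩
      have h2 : cadj G b r := mem_N.mp (h h1).1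
      exact hbv (cadj_symm G _ _ (hrsub b (Finset.mem_univ b) (cadj_symm G _ _ h2)))
    · have h1 : b ∈ T G b := ⟨mem_N.mpr (cadj_refl G b), basic_of_mem hW hb⟩
      exact hbv (cadj_symm G _ _ (mem_N.mp (h h1).1))
    · have e1 : a ∈ T G v := ⟨mem_N.mpr (cadj_symm G _ _ hav), basic_of_mem hW ha⟩
      have e2 : a ∈ T G b := ⟨mem_N.mpr (cadj_symm G _ _ hA), basic_of_mem hW ha⟩
      exact Set.disjoint_left.mp h e1 e2
    · have h1 : v ∈ insert b' (N G b) := by
        rw [← hins]
        exact Or.inr (mem_N.mpr (cadj_refl G v))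
      rcases h1 with h1 | h1
      · have hvb : v ≠ b := by
          rintro rfl
          exact hbv (cadj_refl G _)
        have hvW : v ∈ W := twin_mem hW hvb.symm (by rw [h1]; exact hNb.symm)
        have h2 : v ∈ T G a := ⟨mem_N.mpr hav, basic_of_mem hW hvW⟩
        exact hbv (mem_N.mp (hsub h2).1)
      · exact hbv (mem_N.mp h1)
  rcases hC a b with h | h | h | h
  · exact absurd h (key a ha b hb hab hA)
  · exact absurd h (key b hb a ha hab.symm (cadj_symm G _ _ hA))
  · exfalso
    have e1 : a ∈ T G a := ⟨mem_N.mpr (cadj_refl G a), basic_of_mem hW ha⟩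
    have e2 : a ∈ T G b := ⟨mem_N.mpr (cadj_symm G _ _ hA), basic_of_mem hW ha⟩
    exact Set.disjoint_left.mp h e1 e2
  · exact h

theorem struct_of_crit {W : Finset V} (hC : Crit G) (hW : IsReps (cadj G) univ W) :
    Struct (cadj G) univ W := by
  refine ⟨?_, ?_, ?_⟩
  · intro x _ hx a ha b hb hxa hab
    by_cases hne : a = b
    · subst hne
      exact hxa
    · obtain ⟨a', b', ha', hb', hNa, hNb, hins⟩ := crossing hC hW ha hb hne hab
      have h1 : x ∈ insert b' (N G b) := by
        rw [← hins]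
        exact Or.inr (mem_N.mpr (cadj_symm G _ _ hxa))
      rcases h1 with h1 | h1
      · exfalso
        subst h1
        exact hx (twin_mem hW hb'.symm hNb.symm)
      · exact cadj_symm G _ _ (mem_N.mp h1)
  · intro x _ hx y _ hy a ha hxa hya
    rcases hC x y with h | h | h | ⟨x', y', hx', hy', hNx, hNy, hins⟩
    · exact Or.inl (fun b hb hxb => mem_N.mp (h ⟨mem_N.mpr hxb, basic_of_mem hW hb⟩).1)
    · exact Or.inr (fun b hb hyb => mem_N.mp (h ⟨mem_N.mpr hyb, basic_of_mem hW hb⟩).1)
    · exfalso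
      have e1 : a ∈ T G x := ⟨mem_N.mpr hxa, basic_of_mem hW ha⟩
      have e2 : a ∈ T G y := ⟨mem_N.mpr hya, basic_of_mem hW ha⟩
      exact Set.disjoint_left.mp h e1 e2
    · exact absurd (twin_mem hW hx' hNx) hx
  · intro a ha b hb hne hab
    obtain ⟨a', b', ha', hb', hNa, hNb, hins⟩ := crossing hC hW ha hb hne hab
    have hadj : ∀ u, G.Adj b' u ↔ G.Adj b u := by
      intro u
      have := congrArg (fun s => u ∈ s) hNb
      simpa using this
    refine ⟨b', twin_mem hW hb'.symm hNb.symm, hb', ?_, ?_, ?_⟩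
    · rintro (h | h)
      · exact hb' h.symm
      · exact G.loopless.irrefl b' ((hadj b').mpr h)
    · intro v _ hvb hvb'
      unfold cadj
      rw [hadj v]
      constructor
      · rintro (h | h)
        · exact absurd h.symm hvb
        · exact Or.inr h
      · rintro (h | h)
        · exact absurd h.symm hvb'
        · exact Or.inr h
    · intro v _ hav hbv
      have h1 : v ∈ insert b' (N G b) := by
        rw [← hins]
        exact Or.inr (mem_N.mpr hav)
      rcases h1 with h1 | h1
      · exact h1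
      · exact absurd (mem_N.mp h1) hbv

theorem crit_of_struct {W : Finset V} (hW : IsReps (cadj G) univ W)
    (hS : Struct (cadj G) univ W) : Crit G := by
  have hs := cadj_symm G
  have hr := cadj_refl G
  intro x y
  by_contra hcon
  rw [not_or, not_or, not_or] at hcon
  obtain ⟨h1, h2, h3, h4⟩ := hcon
  rw [Set.not_subset] at h1 h2
  rw [Set.not_disjoint_iff] at h3
  obtain ⟨p, hp, hp'⟩ := h1
  obtain ⟨q, hq, hq'⟩ := h2
  obtain ⟨r, hrx, hry⟩ := h3
  have htrans : ∀ p, Basic G p → ∃ p₁ ∈ W, ∀ z, cadj G z p ↔ cadj G z p₁ := by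
    intro p hp
    obtain ⟨p₁, hp₁, hsub⟩ := hW.ex p (Finset.mem_univ p)
    have hsub1 : N G p₁ ⊆ N G p := fun a ha => mem_N.mpr (hsub a (Finset.mem_univ a) (mem_N.mp ha))
    have hsub2 := hp p₁ hsub1
    refine ⟨p₁, hp₁, fun z => ⟨fun hz => ?_, fun hz => ?_⟩⟩
    · exact hs _ _ (mem_N.mp (hsub2 (mem_N.mpr (hs _ _ hz))))
    · exact hs _ _ (mem_N.mp (hsub1 (mem_N.mpr (hs _ _ hz))))
  obtain ⟨p₁, hp₁, hpiff⟩ := htrans p hp.2
  obtain ⟨q₁, hq₁, hqiff⟩ := htrans q hq.2
  obtain ⟨r₁, hr₁, hriff⟩ := htrans r hrx.2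
  have hxp : cadj G x p₁ := (hpiff x).mp (mem_N.mp hp.1)
  have hyp : ¬ cadj G y p₁ := fun hh => hp' ⟨mem_N.mpr ((hpiff y).mpr hh), hp.2⟩
  have hyq : cadj G y q₁ := (hqiff y).mp (mem_N.mp hq.1)
  have hxq : ¬ cadj G x q₁ := fun hh => hq' ⟨mem_N.mpr ((hqiff x).mpr hh), hq.2⟩
  have hxr : cadj G x r₁ := (hriff x).mp (mem_N.mp hrx.1)
  have hyr : cadj G y r₁ := (hriff y).mp (mem_N.mp hry.1)
  have hu : ∀ z : V, z ∈ (univ : Finset V) := Finset.mem_univ
  have hxW : x ∈ W := by
    by_contra hxW
    by_cases hyW : y ∈ W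
    · have h5 := hS.s1 x (hu x) hxW r₁ hr₁ y hyW hxr (hs _ _ hyr)
      exact hxq (hS.s1 x (hu x) hxW y hyW q₁ hq₁ h5 hyq)
    · rcases hS.s2 x (hu x) hxW y (hu y) hyW r₁ hr₁ hxr hyr with h5 | h5
      · exact hyp (h5 p₁ hp₁ hxp)
      · exact hxq (h5 q₁ hq₁ hyq)
  have hyW : y ∈ W := by
    by_contra hyW
    have h5 := hS.s1 y (hu y) hyW r₁ hr₁ x hxW hyr (hs _ _ hxr)
    exact hyp (hS.s1 y (hu y) hyW x hxW p₁ hp₁ h5 hxp)
  have hxy : x ≠ y := by
    rintro rfl
    exact hyp hxp
  -- a generic fact turning twins on `W` into twins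
  have mk : ∀ a ∈ W, ∀ a' ∈ W, ∀ m ∈ W, a' ≠ a → ¬ cadj G a a' →
      (∀ v ∈ W, v ≠ a → v ≠ a' → (cadj G a v ↔ cadj G a' v)) → cadj G a m → cadj G m a' →
      G.neighborSet a' = G.neighborSet a := by
    intro a ha a' ha' m hm hne hn htw ham hma'
    ext v
    rw [SimpleGraph.mem_neighborSet, SimpleGraph.mem_neighborSet]
    by_cases hva : v = a
    · subst hva
      constructor
      · intro hh
        exact absurd (Or.inr hh.symm) hn
      · intro hh
        exact absurd hh (G.loopless.irrefl v)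
    · by_cases hva' : v = a'
      · subst hva'
        constructor
        · intro hh
          exact absurd hh (G.loopless.irrefl v)
        · intro hh
          exact absurd (Or.inr hh) hn
      · have hiff : cadj G a v ↔ cadj G a' v := by
          by_cases hvW : v ∈ W
          · exact htw v hvW hva hva'
          · constructor
            · intro hh
              exact hs _ _ (hS.s1 v (hu v) hvW m hm a' ha'
                (hS.s1 v (hu v) hvW a ha m hm (hs _ _ hh) ham) hma')
            · intro hh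
              exact hs _ _ (hS.s1 v (hu v) hvW m hm a ha
                (hS.s1 v (hu v) hvW a' ha' m hm (hs _ _ hh) (hs _ _ hma')) (hs _ _ ham))
        constructor
        · intro hh
          rcases hiff.mpr (Or.inr hh) with h5 | h5
          · exact absurd h5.symm hva
          · exact h5
        · intro hh
          rcases hiff.mp (Or.inr hh) with h5 | h5
          · exact absurd h5.symm hva'
          · exact h5
  by_cases hA : cadj G x y
  · obtain ⟨y', hy'W, hy'y, hny, htwy, hFy⟩ := hS.s3 x hxW y hyW hxy hA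
    obtain ⟨x', hx'W, hx'x, hnx, htwx, hFx⟩ := hS.s3 y hyW x hxW hxy.symm (hs _ _ hA)
    have hyx' : y ≠ x' := by
      rintro rfl
      exact hnx hA
    have hxy' : x ≠ y' := by
      rintro rfl
      exact hny (hs _ _ hA)
    have hyx'A : cadj G y x' := hs _ _ ((htwx y hyW hxy.symm hyx').mp hA)
    have hxy'A : cadj G x y' := hs _ _ ((htwy x hxW hxy hxy').mp (hs _ _ hA))
    refine h4 ⟨x', y', hx'x, hy'y,
      mk x hxW x' hx'W y hyW hx'x hnx htwx hA hyx'A,
      mk y hyW y' hy'W x hxW hy'y hny htwy (hs _ _ hA) hxy'A, ?_⟩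
    ext v
    rw [Set.mem_insert_iff, Set.mem_insert_iff, mem_N, mem_N]
    by_cases hvW : v ∈ W
    · constructor
      · rintro (h5 | h5)
        · rw [h5]
          exact Or.inr hyx'A
        · by_cases hyv : cadj G y v
          · exact Or.inr hyv
          · exact Or.inl (hFy v hvW h5 hyv)
      · rintro (h5 | h5)
        · rw [h5]
          exact Or.inr hxy'A
        · by_cases hxv : cadj G x v
          · exact Or.inr hxv
          · exact Or.inl (hFx v hvW h5 hxv)
    · constructor
      · rintro (h5 | h5)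
        · exact absurd (h5 ▸ hx'W) hvW
        · exact Or.inr (hs _ _ (hS.s1 v (hu v) hvW x hxW y hyW (hs _ _ h5) hA))
      · rintro (h5 | h5)
        · exact absurd (h5 ▸ hy'W) hvW
        · exact Or.inr (hs _ _ (hS.s1 v (hu v) hvW y hyW x hxW (hs _ _ h5) (hs _ _ hA)))
  · have hr₁x : r₁ ≠ x := by
      rintro rfl
      exact hA (hs _ _ hyr)
    obtain ⟨x', hx'W, hx'x, hnx, htwx, hFx⟩ := hS.s3 r₁ hr₁ x hxW hr₁x (hs _ _ hxr)
    have hyx' : y = x' := hFx y hyW (hs _ _ hyr) hA
    subst hyx'
    have hNeq := mk x hxW y hyW r₁ hr₁ hx'x hnx htwx hxr (hs _ _ hyr)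
    refine h4 ⟨y, x, hx'x, hxy, hNeq, hNeq.symm, ?_⟩
    ext v
    have hadj : ∀ u, G.Adj y u ↔ G.Adj x u := by
      intro u
      have := congrArg (fun s => u ∈ s) hNeq
      simpa using this
    rw [Set.mem_insert_iff, Set.mem_insert_iff, mem_N, mem_N]
    unfold cadj
    rw [hadj v]
    tauto

theorem equidominating_iff_crit [Nonempty V] : Equidominating G ↔ Crit G := by
  obtain ⟨W, hW⟩ := exists_reps (cadj_refl G) (univ : Finset V)
  constructor
  · rintro ⟨ω, t, hω, _, h⟩
    refine crit_of_struct hW (struct_of_eqStr (cadj_refl G) (cadj_symm G) hω univ W hW t ?_)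
    intro D _
    rw [mds_iff]
    exact h D
  · intro hC
    obtain ⟨ω, t, hω, ht, h⟩ := eqStr_of_struct (cadj_refl G) (cadj_symm G)
      (struct_of_crit hC hW) hW
    refine ⟨ω, t, fun v => hω v (Finset.mem_univ v), ht Finset.univ_nonempty, ?_⟩
    intro D
    rw [← mds_iff]
    exact h D (Finset.subset_univ D)

theorem not_equidominating_of_isEmpty [IsEmpty V] : ¬ Equidominating G := by
  rintro ⟨ω, t, _, ht, h⟩
  have h1 := h ∅
  rw [Finset.sum_empty] at h1
  have h2 : MinDominating G ∅ :=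
    ⟨fun v => isEmptyElim v, fun T hT => absurd hT (Finset.not_ssubset_empty T)⟩
  have := h1.mp h2
  omega

end

end Pool.Agent.H70.Equi
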