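import Mathlib

/-!
Adjacency matrices of graphs as bitstrings.
-/

namespace Pool.Agent.H70.Equi

/-- `x` is the adjacency matrix of `G`, written row by row (`n * n` bits) -/
def IsAdjMatrix {n : ℕ} (x : List Bool) (G : SimpleGraph (Fin n)) : Prop :=
  x.length = n * n ∧ ∀ i j : Fin n, x[(i : ℕ) * n + (j : ℕ)]? = some true ↔ G.Adj i j

end Pool.Agent.H70.Equi
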