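import Pool.Agent.H70.Equi.Criterion

/-!
The criterion as a first-order sentence in the language of graphs.
-/

namespace Pool.Agent.H70.Equi

open FirstOrder FirstOrder.Language FirstOrder.Language.BoundedFormula

set_option linter.style.haveILetI false

/-- formulas -/
abbrev BF (n : ℕ) := Language.graph.BoundedFormula Empty n

def tv {n : ℕ} (i : Fin n) : Language.graph.Term (Empty ⊕ Fin n) := Term.var (Sum.inr i)

def fEq {n : ℕ} (i j : Fin n) : BF n := (tv i).bdEqual (tv j)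

def fAdj {n : ℕ} (i j : Fin n) : BF n :=
  Relations.boundedFormula₂ (FirstOrder.Language.adj) (tv i) (tv j)

def fC {n : ℕ} (i j : Fin n) : BF n := fEq i j ⊔ fAdj i j

def fBasic {n : ℕ} (i : Fin n) : BF n :=
  BoundedFormula.all
    ((BoundedFormula.all
      ((fC (Fin.last n).castSucc (Fin.last (n + 1))).imp
        (fC i.castSucc.castSucc (Fin.last (n + 1))))).imp
    (BoundedFormula.all
      ((fC i.castSucc.castSucc (Fin.last (n + 1))).imp
        (fC (Fin.last n).castSucc (Fin.last (n + 1))))))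

def fSub (i j : Fin 2) : BF 2 :=
  BoundedFormula.all ((fC i.castSucc (Fin.last 2) ⊓ fBasic (Fin.last 2)).imp
    (fC j.castSucc (Fin.last 2)))

def fDis : BF 2 :=
  BoundedFormula.all ((fC (0 : Fin 3) 2 ⊓ fC 1 2 ⊓ fBasic 2).not)

def fTwin : BF 2 :=
  BoundedFormula.ex (BoundedFormula.ex
    ((fEq (2 : Fin 4) 0).not ⊓ (fEq (3 : Fin 4) 1).not ⊓
      BoundedFormula.all ((fAdj (2 : Fin 5) 4).iff (fAdj 0 4)) ⊓
      BoundedFormula.all ((fAdj (3 : Fin 5) 4).iff (fAdj 1 4)) ⊓
      BoundedFormula.all ((fEq (4 : Fin 5) 2 ⊔ fC 0 4).iff (fEq 4 3 ⊔ fC 1 4))))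

/-- the sentence -/
def phi : Language.graph.Sentence :=
  (BoundedFormula.ex (⊤ : BF 1)) ⊓
    BoundedFormula.all (BoundedFormula.all (fSub 0 1 ⊔ (fSub 1 0 ⊔ (fDis ⊔ fTwin))))

section

variable {V : Type*} {G : SimpleGraph V}

theorem realize_fEq {n : ℕ} {i j : Fin n} {v : Empty → V} {xs : Fin n → V} :
    @BoundedFormula.Realize _ V G.structure _ _ (fEq i j) v xs ↔ xs i = xs j := by
  letI := G.structure
  simp [fEq, tv]

theorem realize_fAdj {n : ℕ} {i j : Fin n} {v : Empty → V} {xs : Fin n → V} :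
    @BoundedFormula.Realize _ V G.structure _ _ (fAdj i j) v xs ↔ G.Adj (xs i) (xs j) := by
  letI := G.structure
  simp only [fAdj, tv, BoundedFormula.realize_rel₂]
  rfl

theorem realize_fC {n : ℕ} {i j : Fin n} {v : Empty → V} {xs : Fin n → V} :
    @BoundedFormula.Realize _ V G.structure _ _ (fC i j) v xs ↔ cadj G (xs i) (xs j) := by
  letI := G.structure
  unfold fC cadj
  rw [BoundedFormula.realize_sup, realize_fEq, realize_fAdj]

theorem realize_fBasic {n : ℕ} {i : Fin n} {v : Empty → V} {xs : Fin n → V} :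
    @BoundedFormula.Realize _ V G.structure _ _ (fBasic i) v xs ↔ Basic G (xs i) := by
  letI := G.structure
  unfold fBasic Basic
  simp only [BoundedFormula.realize_all, BoundedFormula.realize_imp, realize_fC,
    Fin.snoc_castSucc, Fin.snoc_last]
  constructor
  · intro h u hsub a ha
    exact mem_N.mpr (h u (fun a ha => mem_N.mp (hsub (mem_N.mpr ha))) a (mem_N.mp ha))
  · intro h u hsub a ha
    exact mem_N.mp (h u (fun a ha => mem_N.mpr (hsub a (mem_N.mp ha))) (mem_N.mpr ha))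

theorem realize_fSub {i j : Fin 2} {v : Empty → V} {xs : Fin 2 → V} :
    @BoundedFormula.Realize _ V G.structure _ _ (fSub i j) v xs ↔ T G (xs i) ⊆ T G (xs j) := by
  letI := G.structure
  unfold fSub
  simp only [BoundedFormula.realize_all, BoundedFormula.realize_imp, realize_fC,
    BoundedFormula.realize_inf, realize_fBasic, Fin.snoc_castSucc, Fin.snoc_last]
  constructor
  · rintro h u ⟨hu, hb⟩
    exact ⟨mem_N.mpr (h u ⟨mem_N.mp hu, hb⟩), hb⟩
  · rintro h u ⟨hu, hb⟩
    have h1 : u ∈ T G (xs i) := ⟨mem_N.mpr hu, hb⟩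
    exact mem_N.mp (h h1).1

theorem snoc3_0 (xs : Fin 2 → V) (a : V) : (Fin.snoc xs a : Fin 3 → V) 0 = xs 0 :=
  Fin.snoc_castSucc (α := fun _ => V) a xs 0

theorem snoc3_1 (xs : Fin 2 → V) (a : V) : (Fin.snoc xs a : Fin 3 → V) 1 = xs 1 :=
  Fin.snoc_castSucc (α := fun _ => V) a xs 1

theorem snoc3_2 (xs : Fin 2 → V) (a : V) : (Fin.snoc xs a : Fin 3 → V) 2 = a :=
  Fin.snoc_last (α := fun _ => V) a xs

theorem snoc4_0 (xs : Fin 3 → V) (a : V) : (Fin.snoc xs a : Fin 4 → V) 0 = xs 0 :=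
  Fin.snoc_castSucc (α := fun _ => V) a xs 0

theorem snoc4_1 (xs : Fin 3 → V) (a : V) : (Fin.snoc xs a : Fin 4 → V) 1 = xs 1 :=
  Fin.snoc_castSucc (α := fun _ => V) a xs 1

theorem snoc4_2 (xs : Fin 3 → V) (a : V) : (Fin.snoc xs a : Fin 4 → V) 2 = xs 2 :=
  Fin.snoc_castSucc (α := fun _ => V) a xs 2

theorem snoc4_3 (xs : Fin 3 → V) (a : V) : (Fin.snoc xs a : Fin 4 → V) 3 = a :=
  Fin.snoc_last (α := fun _ => V) a xs

theorem snoc5_0 (xs : Fin 4 → V) (a : V) : (Fin.snoc xs a : Fin 5 → V) 0 = xs 0 :=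
  Fin.snoc_castSucc (α := fun _ => V) a xs 0

theorem snoc5_1 (xs : Fin 4 → V) (a : V) : (Fin.snoc xs a : Fin 5 → V) 1 = xs 1 :=
  Fin.snoc_castSucc (α := fun _ => V) a xs 1

theorem snoc5_2 (xs : Fin 4 → V) (a : V) : (Fin.snoc xs a : Fin 5 → V) 2 = xs 2 :=
  Fin.snoc_castSucc (α := fun _ => V) a xs 2

theorem snoc5_3 (xs : Fin 4 → V) (a : V) : (Fin.snoc xs a : Fin 5 → V) 3 = xs 3 :=
  Fin.snoc_castSucc (α := fun _ => V) a xs 3

theorem snoc5_4 (xs : Fin 4 → V) (a : V) : (Fin.snoc xs a : Fin 5 → V) 4 = a :=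
  Fin.snoc_last (α := fun _ => V) a xs

theorem realize_fDis {v : Empty → V} {xs : Fin 2 → V} :
    @BoundedFormula.Realize _ V G.structure _ _ fDis v xs ↔
      Disjoint (T G (xs 0)) (T G (xs 1)) := by
  letI := G.structure
  unfold fDis
  simp only [BoundedFormula.realize_all, BoundedFormula.realize_not, realize_fC,
    BoundedFormula.realize_inf, realize_fBasic, snoc3_0, snoc3_1, snoc3_2]
  rw [Set.disjoint_left]
  constructor
  · rintro h u ⟨hu, hb⟩ ⟨hu', _⟩
    exact h u ⟨⟨mem_N.mp hu, mem_N.mp hu'⟩, hb⟩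
  · rintro h u ⟨⟨hu, hu'⟩, hb⟩
    have h1 : u ∈ T G (xs 0) := ⟨mem_N.mpr hu, hb⟩
    have h2 : u ∈ T G (xs 1) := ⟨mem_N.mpr hu', hb⟩
    exact h h1 h2

theorem realize_fTwin {v : Empty → V} {xs : Fin 2 → V} :
    @BoundedFormula.Realize _ V G.structure _ _ fTwin v xs ↔
      ∃ x' y' : V, x' ≠ xs 0 ∧ y' ≠ xs 1 ∧ G.neighborSet x' = G.neighborSet (xs 0) ∧
      G.neighborSet y' = G.neighborSet (xs 1) ∧
      insert x' (N G (xs 0)) = insert y' (N G (xs 1)) := by
  letI := G.structure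
  unfold fTwin
  simp only [BoundedFormula.realize_ex, BoundedFormula.realize_inf, BoundedFormula.realize_not,
    BoundedFormula.realize_all, BoundedFormula.realize_iff, BoundedFormula.realize_sup,
    realize_fEq, realize_fAdj, realize_fC, snoc3_0, snoc3_1, snoc3_2, snoc4_0, snoc4_1,
    snoc4_2, snoc4_3, snoc5_0, snoc5_1, snoc5_2, snoc5_3, snoc5_4]
  constructor
  · rintro ⟨x', y', ⟨⟨⟨h1, h2⟩, h3⟩, h4⟩, h5⟩
    refine ⟨x', y', h1, h2, ?_, ?_, ?_⟩
    · ext a
      exact h3 a
    · ext a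
      exact h4 a
    · ext a
      rw [Set.mem_insert_iff, Set.mem_insert_iff, mem_N, mem_N]
      exact h5 a
  · rintro ⟨x', y', h1, h2, h3, h4, h5⟩
    refine ⟨x', y', ⟨⟨⟨h1, h2⟩, ?_⟩, ?_⟩, ?_⟩
    · intro a
      have := congrArg (fun s => a ∈ s) h3
      simpa using this
    · intro a
      have := congrArg (fun s => a ∈ s) h4
      simpa using this
    · intro a
      have := congrArg (fun s => a ∈ s) h5
      simp only [Set.mem_insert_iff, mem_N, eq_iff_iff] at this
      exact this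

theorem realize_phi : @Sentence.Realize _ V G.structure phi ↔ Nonempty V ∧ Crit G := by
  letI := G.structure
  unfold phi Sentence.Realize Formula.Realize Crit
  rw [BoundedFormula.realize_inf]
  refine and_congr ?_ ?_
  · rw [BoundedFormula.realize_ex]
    constructor
    · rintro ⟨a, _⟩
      exact ⟨a⟩
    · rintro ⟨a⟩
      exact ⟨a, BoundedFormula.realize_top.mpr trivial⟩
  · simp only [BoundedFormula.realize_all, BoundedFormula.realize_sup, realize_fSub,
      realize_fDis, realize_fTwin]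
    rfl

end

/-- equidominating graphs are first-order definable among finite graphs -/
theorem equidominating_iff_realize {V : Type*} [Finite V] (G : SimpleGraph V) :
    Equidominating G ↔ @Sentence.Realize _ V G.structure phi := by
  classical
  haveI := Fintype.ofFinite V
  rw [realize_phi]
  by_cases hV : Nonempty V
  · rw [equidominating_iff_crit]
    exact ⟨fun h => ⟨hV, h⟩, fun h => h.2⟩
  · have : IsEmpty V := not_nonempty_iff.mp hV
    exact ⟨fun h => absurd h not_equidominating_of_isEmpty, fun h => absurd h.1 hV⟩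

end Pool.Agent.H70.Equi
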