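import Pool.Agent.H70.Equi.FO
import Pool.Agent.H70.Equi.Encoding
import Pool.Agent.H70.TM.FOinP

/-!
Recognising equidominating graphs is in `P`.
-/

namespace Pool.Agent.H70.Equi

open FirstOrder FirstOrder.Language Pool.Agent.H70.TM

/-- a symmetric loopless matrix is the adjacency matrix of a graph -/
theorem matrixProp_iff (φ : Language.graph.Sentence) (x : List Bool) :
    MatrixProp (FirstOrder.Language.adj.irreflexive ⊓
      (FirstOrder.Language.adj.symmetric ⊓ φ)) x ↔
    ∃ (n : ℕ) (G : SimpleGraph (Fin n)), IsAdjMatrix x G ∧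
      @Sentence.Realize _ (Fin n) G.structure φ := by
  unfold MatrixProp
  refine exists_congr (fun n => ?_)
  have hrel : ∀ a b : Fin n, @Structure.RelMap _ _ (stM n x) 2 FirstOrder.Language.adj ![a, b] ↔
      x.getD ((a : ℕ) * n + (b : ℕ)) false = true := fun a b => Iff.rfl
  constructor
  · rintro ⟨hlen, h⟩
    let := stM n x
    have h' : (Fin n) ⊨ (FirstOrder.Language.adj.irreflexive ⊓
      (FirstOrder.Language.adj.symmetric ⊓ φ)) := h
    unfold Sentence.Realize Formula.Realize at h'
    rw [BoundedFormula.realize_inf, BoundedFormula.realize_inf] at h'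
    obtain ⟨h1, h2, h3⟩ := h'
    have h1' : (Fin n) ⊨ (FirstOrder.Language.adj.irreflexive) := h1
    have h2' : (Fin n) ⊨ (FirstOrder.Language.adj.symmetric) := h2
    rw [Relations.realize_irreflexive] at h1'
    rw [Relations.realize_symmetric] at h2'
    let G : SimpleGraph (Fin n) :=
      { Adj := fun a b => x.getD ((a : ℕ) * n + (b : ℕ)) false = true
        symm := ⟨fun a b hab => h2'.symm a b hab⟩
        loopless := ⟨fun a ha => h1'.irrefl a ha⟩ }
    have hG : G.structure = stM n x := by
      ext
      case funMap n f xs =>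
        exact isEmptyElim f
      case RelMap l r xs =>
        match l, r with
        | 2, .adj => rfl
    refine ⟨G, ⟨hlen, ?_⟩, ?_⟩
    · intro i j
      change _ ↔ x.getD ((i : ℕ) * n + (j : ℕ)) false = true
      rw [List.getD_eq_getElem?_getD]
      cases x[(i : ℕ) * n + (j : ℕ)]? with
      | none => simp
      | some b => simp
    · rw [hG]
      exact h3
  · rintro ⟨G, ⟨hlen, hadj⟩, h⟩
    refine ⟨hlen, ?_⟩
    have hG : G.structure = stM n x := by
      ext
      case funMap n f xs =>
        exact isEmptyElim f
      case RelMap l r xs =>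
        match l, r with
        | 2, .adj =>
          change G.Adj (xs 0) (xs 1) ↔ (x.getD (((xs 0 : Fin n) : ℕ) * n +
            ((xs 1 : Fin n) : ℕ)) false = true)
          rw [← hadj, List.getD_eq_getElem?_getD]
          cases x[((xs 0 : Fin n) : ℕ) * n + ((xs 1 : Fin n) : ℕ)]? with
          | none => simp
          | some b => simp
    rw [← hG]
    let := G.structure
    change (Fin n) ⊨ (FirstOrder.Language.adj.irreflexive ⊓
      (FirstOrder.Language.adj.symmetric ⊓ φ))
    unfold Sentence.Realize Formula.Realize
    rw [BoundedFormula.realize_inf, BoundedFormula.realize_inf]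
    refine ⟨?_, ?_, h⟩
    · change (Fin n) ⊨ (FirstOrder.Language.adj.irreflexive)
      rw [Relations.realize_irreflexive]
      exact G.loopless
    · change (Fin n) ⊨ (FirstOrder.Language.adj.symmetric)
      rw [Relations.realize_symmetric]
      exact G.symm

/-- the main theorem -/
theorem equidomination_in_P : ∃ L : N68a2faeb.DecisionProblem, L ∈ N68a2faeb.P ∧
    ∀ x : List Bool, L x = true ↔
      ∃ (n : ℕ) (G : SimpleGraph (Fin n)), IsAdjMatrix x G ∧ Equidominating G := by
  classical
  refine ⟨_, matrixProp_mem_P (FirstOrder.Language.adj.irreflexive ⊓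
      (FirstOrder.Language.adj.symmetric ⊓ phi)), ?_⟩
  intro x
  rw [decide_eq_true_iff, matrixProp_iff]
  refine exists_congr (fun n => exists_congr (fun G => and_congr Iff.rfl ?_))
  exact (equidominating_iff_realize G).symm

end Pool.Agent.H70.Equi
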